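import Pool.Agent.W663.FI.Space

set_option autoImplicit false
set_option linter.unusedSectionVars false

open Filter Topology
open scoped TensorProduct InnerProductSpace

namespace Pool.Agent.W663.FI

open Pool.Agent.Helper38.FE

variable {H : Type} [NormedAddCommGroup H] [InnerProductSpace ℂ H] [CompleteSpace H] {m : ℕ}
  {M : VonNeumannAlgebra H} {Ω : H} {x : Fin m → (H →L[ℂ] H)}

/-- `ζ` is in the domain of `∂_i*` and `∂_i* ζ = z` -/
def Adj (Ω : H) (x : Fin m → (H →L[ℂ] H)) (i : Fin m) (ζ : T2 Ω x) (z : L2 Ω x) : Prop :=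
  ∀ w, inner ℂ (dmon Ω x i w) ζ = inner ℂ (vec Ω x w) z

theorem inner_dmon (i : Fin m) (w : List (Fin m)) (a b : L2 Ω x) :
    inner ℂ (dmon Ω x i w) (ten a b) = ∑ k ∈ Finset.range w.length,
      if w[k]? = some i then inner ℂ (vec Ω x (w.take k)) a * inner ℂ (vec Ω x (w.drop (k + 1))) b
        else 0 := by
  unfold dmon
  rw [sum_inner]
  refine Finset.sum_congr rfl fun k _ => ?_
  split_ifs with h
  · exact inner_ten _ _ _ _
  · exact inner_zero_left _

theorem Adj.left {i : Fin m} (hx : ∀ i, x i ∈ M ∧ IsSelfAdjoint (x i)) {a b z : L2 Ω x}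
    (h : Adj Ω x i (ten a b) z) (j : Fin m) :
    Adj Ω x i (ten (Lop Ω x j a) b)
      (Lop Ω x j z - (if j = i then inner ℂ (vec Ω x []) a • b else 0)) := by
  intro w
  have h1 := h (j :: w)
  rw [inner_dmon, List.length_cons, Finset.sum_range_succ'] at h1
  have hsa := ContinuousLinearMap.isSelfAdjoint_iff_isSymmetric.1 (Lop_sa (Ω := Ω) hx j)
  have hs : ∀ u v : L2 Ω x, inner ℂ (Lop Ω x j u) v = inner ℂ u (Lop Ω x j v) := hsa
  rw [inner_dmon, inner_sub_right, ← hs, Lop_vec, ← h1]
  have h2 : ∀ k ∈ Finset.range w.length,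
      (if (j :: w)[k + 1]? = some i then inner ℂ (vec Ω x ((j :: w).take (k + 1))) a *
        inner ℂ (vec Ω x ((j :: w).drop (k + 1 + 1))) b else 0) =
      (if w[k]? = some i then inner ℂ (vec Ω x (w.take k)) (Lop Ω x j a) *
        inner ℂ (vec Ω x (w.drop (k + 1))) b else 0) := by
    intro k _
    rw [List.getElem?_cons_succ, List.take_succ_cons, List.drop_succ_cons, ← hs, Lop_vec]
  rw [Finset.sum_congr rfl h2]
  simp only [List.getElem?_cons_zero, Option.some.injEq, List.take_zero, List.drop_one,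
    List.tail_cons, zero_add]
  split_ifs with h3
  · rw [inner_smul_right]; ring
  · simp

theorem Adj.right {i : Fin m} (hM : TracialSpace M Ω)
    (hx : ∀ i, x i ∈ M ∧ IsSelfAdjoint (x i)) {a b z : L2 Ω x}
    (h : Adj Ω x i (ten a b) z) (j : Fin m) :
    Adj Ω x i (ten a (Rop Ω x j b))
      (Rop Ω x j z - (if j = i then inner ℂ (vec Ω x []) b • a else 0)) := by
  intro w
  have h1 := h (w ++ [j])
  rw [inner_dmon, List.length_append, List.length_singleton, Finset.sum_range_succ] at h1
  have hsa := ContinuousLinearMap.isSelfAdjoint_iff_isSymmetric.1 (Rop_sa hM hx j)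
  have hs : ∀ u v : L2 Ω x, inner ℂ (Rop Ω x j u) v = inner ℂ u (Rop Ω x j v) := hsa
  rw [inner_dmon, inner_sub_right, ← hs, Rop_vec hM hx, ← h1]
  have h2 : ∀ k ∈ Finset.range w.length,
      (if (w ++ [j])[k]? = some i then inner ℂ (vec Ω x ((w ++ [j]).take k)) a *
        inner ℂ (vec Ω x ((w ++ [j]).drop (k + 1))) b else 0) =
      (if w[k]? = some i then inner ℂ (vec Ω x (w.take k)) a *
        inner ℂ (vec Ω x (w.drop (k + 1))) (Rop Ω x j b) else 0) := by
    intro k hk
    have hk' := Finset.mem_range.1 hk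
    rw [List.getElem?_append_left hk', List.take_append_of_le_length hk'.le,
      List.drop_append_of_le_length (by omega), ← hs, Rop_vec hM hx]
  rw [Finset.sum_congr rfl h2]
  rw [List.getElem?_concat_length]
  simp only [Option.some.injEq]
  split_ifs with h3
  · have h4 : (w ++ [j]).take w.length = w := by simp
    have h5 : (w ++ [j]).drop (w.length + 1) = [] := by simp
    rw [inner_smul_right, h4, h5]; ring
  · simp

theorem tau_wd_reverse (hx : ∀ i, x i ∈ M ∧ IsSelfAdjoint (x i)) (w : List (Fin m)) :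
    tau Ω (wd x w.reverse) = inner ℂ (vec Ω x w) (vec Ω x []) := by
  rw [inner_vec, wd_nil, mul_one, wd_star hx]
  rfl

/-- the conjugate variable is `∂_i*(1 ⊗ 1)` -/
theorem Adj.base (hx : ∀ i, x i ∈ M ∧ IsSelfAdjoint (x i)) {ξ : Fin m → H}
    (hξ : IsConj Ω x ξ) (i : Fin m) :
    Adj Ω x i (ten (vec Ω x []) (vec Ω x [])) ⟨ξ i, hξ.1 i⟩ := by
  intro w
  have h1 := hξ.2 i w.reverse
  rw [wd_star hx, List.reverse_reverse] at h1
  have h2 : inner ℂ (vec Ω x w) (⟨ξ i, hξ.1 i⟩ : L2 Ω x) = ⟪wd x w Ω, ξ i⟫_ℂ := rfl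
  rw [h2, h1, inner_dmon]
  unfold tauDiff
  rw [List.length_reverse]
  rw [← Finset.sum_range_reflect (fun k => if w.reverse[k]? = some i then
    tau Ω (wd x (List.take k w.reverse)) * tau Ω (wd x (List.drop (k + 1) w.reverse)) else 0)]
  refine Finset.sum_congr rfl fun k hk => ?_
  have hk' := Finset.mem_range.1 hk
  have e1 : w.reverse[w.length - 1 - k]? = w[k]? := by
    rw [List.getElem?_reverse (by omega)]
    congr 1
    omega
  have e2 : w.reverse.take (w.length - 1 - k) = (w.drop (k + 1)).reverse := by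
    rw [List.take_reverse, show w.length - (w.length - 1 - k) = k + 1 by omega]
  have e3 : w.reverse.drop (w.length - 1 - k + 1) = (w.take k).reverse := by
    rw [List.drop_reverse, show w.length - (w.length - 1 - k + 1) = k by omega]
  rw [e1, e2, e3, tau_wd_reverse hx, tau_wd_reverse hx]
  split_ifs
  · ring
  · rfl

theorem vec_foldr (w : List (Fin m)) :
    vec Ω x w = (w.foldr (fun j T => (Lop Ω x j) ∘L T) (ContinuousLinearMap.id ℂ _))
      (vec Ω x []) := by
  induction w with
  | nil => simp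
  | cons j w ih => rw [← Lop_vec, ih]; rfl

theorem exists_adj (hM : TracialSpace M Ω) (hx : ∀ i, x i ∈ M ∧ IsSelfAdjoint (x i))
    {ξ : Fin m → H} (hξ : IsConj Ω x ξ) (i : Fin m) (u v : List (Fin m)) :
    ∃ z, Adj Ω x i (ten (vec Ω x u) (vec Ω x v)) z := by
  have h1 : ∀ v : List (Fin m), ∃ z, Adj Ω x i (ten (vec Ω x []) (vec Ω x v)) z := by
    intro v
    induction v using List.reverseRecOn with
    | nil => exact ⟨_, Adj.base hx hξ i⟩
    | append_singleton v j ih =>
      obtain ⟨z, hz⟩ := ih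
      rw [← Rop_vec hM hx]
      exact ⟨_, hz.right hM hx j⟩
  induction u with
  | nil => exact h1 v
  | cons j u ih =>
    obtain ⟨z, hz⟩ := ih
    rw [← Lop_vec]
    exact ⟨_, hz.left hx j⟩

theorem Adj.add {i : Fin m} {ζ ζ' : T2 Ω x} {z z' : L2 Ω x} (h : Adj Ω x i ζ z)
    (h' : Adj Ω x i ζ' z') : Adj Ω x i (ζ + ζ') (z + z') := fun w => by
  rw [inner_add_right, inner_add_right, h w, h' w]

theorem Adj.smul {i : Fin m} {ζ : T2 Ω x} {z : L2 Ω x} (c : ℂ) (h : Adj Ω x i ζ z) :
    Adj Ω x i (c • ζ) (c • z) := fun w => by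
  rw [inner_smul_right, inner_smul_right, h w]

theorem Adj.zero {i : Fin m} : Adj Ω x i (0 : T2 Ω x) 0 := fun w => by
  rw [inner_zero_right, inner_zero_right]

theorem Adj.sum {i : Fin m} {ι : Type*} (s : Finset ι) {ζ : ι → T2 Ω x} {z : ι → L2 Ω x}
    (h : ∀ k ∈ s, Adj Ω x i (ζ k) (z k)) : Adj Ω x i (∑ k ∈ s, ζ k) (∑ k ∈ s, z k) := fun w => by
  rw [inner_sum, inner_sum]
  exact Finset.sum_congr rfl fun k hk => h k hk w

/-- density of the elementary tensors of words -/
theorem ten_dense : Dense (Submodule.span ℂ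
    {t : T2 Ω x | ∃ u v, ten (vec Ω x u) (vec Ω x v) = t} : Set (T2 Ω x)) := by
  set W : Submodule ℂ (T2 Ω x) := (Submodule.span ℂ
    {t : T2 Ω x | ∃ u v, ten (vec Ω x u) (vec Ω x v) = t}).topologicalClosure with hW
  have hcl : IsClosed (W : Set (T2 Ω x)) := Submodule.isClosed_topologicalClosure _
  set B := tenB (L2 Ω x) with hBd
  have h1 : ∀ a b : L2 Ω x, ten a b ∈ W := by
    have h2 : ∀ a ∈ Submodule.span ℂ (Set.range (vec Ω x)),
        ∀ b ∈ Submodule.span ℂ (Set.range (vec Ω x)), B a b ∈ W := by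
      intro a ha b hb
      induction ha using Submodule.span_induction with
      | mem a ha =>
        obtain ⟨u, rfl⟩ := ha
        induction hb using Submodule.span_induction with
        | mem b hb =>
          obtain ⟨v, rfl⟩ := hb
          exact Submodule.le_topologicalClosure _ (Submodule.subset_span ⟨u, v, rfl⟩)
        | zero => rw [map_zero]; exact W.zero_mem
        | add b b' _ _ h h' => rw [map_add]; exact W.add_mem h h'
        | smul c b _ h => rw [map_smul]; exact W.smul_mem c h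
      | zero => rw [map_zero]; exact W.zero_mem
      | add a a' _ _ h h' => rw [map_add]; exact W.add_mem h h'
      | smul c a _ h => rw [map_smul]; exact W.smul_mem c h
    have h3 : ∀ a ∈ Submodule.span ℂ (Set.range (vec Ω x)), ∀ b : L2 Ω x, B a b ∈ W := by
      intro a ha b
      have hc : IsClosed {b : L2 Ω x | B a b ∈ W} := hcl.preimage (B a).continuous
      exact (hc.closure_subset_iff.2 (h2 a ha)) (span_dense b)
    intro a b
    have hc : IsClosed {a : L2 Ω x | B a b ∈ W} := hcl.preimage (by fun_prop)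
    exact (hc.closure_subset_iff.2 (fun a ha => h3 a ha b)) (span_dense a)
  intro t
  exact mem_of_ten hcl h1 t

theorem eq_zero_of_adj (hM : TracialSpace M Ω) (hx : ∀ i, x i ∈ M ∧ IsSelfAdjoint (x i))
    {ξ : Fin m → H} (hξ : IsConj Ω x ξ) (i : Fin m) {t : T2 Ω x}
    (h : ∀ ζ z, Adj Ω x i ζ z → inner ℂ t ζ = 0) : t = 0 := by
  have h1 : ∀ s ∈ (Submodule.span ℂ
      {t : T2 Ω x | ∃ u v, ten (vec Ω x u) (vec Ω x v) = t} : Set (T2 Ω x)), inner ℂ t s = 0 := by
    intro s hs
    induction hs using Submodule.span_induction with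
    | mem s hs =>
      obtain ⟨u, v, rfl⟩ := hs
      obtain ⟨z, hz⟩ := exists_adj hM hx hξ i u v
      exact h _ _ hz
    | zero => exact inner_zero_right _
    | add a b _ _ ha hb => rw [inner_add_right, ha, hb, add_zero]
    | smul c a _ ha => rw [inner_smul_right, ha, mul_zero]
  have hc : IsClosed {s : T2 Ω x | inner ℂ t s = 0} := isClosed_eq (by fun_prop) (by fun_prop)
  have h2 : inner ℂ t t = 0 := (hc.closure_subset_iff.2 h1) (ten_dense t)
  exact inner_self_eq_zero.1 h2

end Pool.Agent.W663.FI
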