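import Pool.Agent.W663.FI.Meas3

set_option autoImplicit false

open Polynomial Filter Topology MeasureTheory

namespace Pool.Agent.W663.FI

theorem cos_sum_bdd (x : ℝ) (hx : x ≠ 0) (h1 : |x| ≤ 1) :
    ∃ C : ℝ, ∀ N : ℕ, |∑ n ∈ Finset.range N, Real.cos (n * x)| ≤ C := by
  set z : ℂ := Complex.exp (x * Complex.I) with hz
  have hz1 : z ≠ 1 := by
    intro h
    rw [hz, Complex.exp_eq_one_iff] at h
    obtain ⟨n, hn⟩ := h
    have h2 : (x : ℂ) = n * (2 * Real.pi) := by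
      have h3 : (x : ℂ) * Complex.I = (n * (2 * Real.pi)) * Complex.I := by rw [hn]; ring
      exact mul_right_cancel₀ Complex.I_ne_zero h3
    have h4 : x = n * (2 * Real.pi) := by exact_mod_cast h2
    have hn0 : n ≠ 0 := by rintro rfl; apply hx; rw [h4]; simp
    have h5 : (1 : ℝ) ≤ |(n : ℝ)| := by
      rw [← Int.cast_abs]
      exact_mod_cast Int.one_le_abs hn0
    rw [h4, abs_mul, abs_of_pos (by positivity : 0 < 2 * Real.pi)] at h1
    nlinarith [Real.pi_gt_three]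
  have hz2 : ‖z‖ = 1 := by rw [hz, Complex.norm_exp_ofReal_mul_I]
  refine ⟨2 / ‖z - 1‖, fun N => ?_⟩
  have h3 : ∑ n ∈ Finset.range N, Real.cos (n * x) = (∑ n ∈ Finset.range N, z ^ n).re := by
    rw [Complex.re_sum]
    refine Finset.sum_congr rfl fun n _ => ?_
    rw [hz, ← Complex.exp_nat_mul, ← mul_assoc, ← Complex.ofReal_natCast, ← Complex.ofReal_mul,
      Complex.exp_ofReal_mul_I_re]
  rw [h3]
  refine (Complex.abs_re_le_norm _).trans ?_
  rw [geom_sum_eq hz1, norm_div]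
  gcongr
  refine (norm_sub_le _ _).trans ?_
  rw [norm_pow, hz2, one_pow, norm_one]
  norm_num

theorem cos_avg (x : ℝ) (hx : x ≠ 0) (h1 : |x| ≤ 1) :
    Tendsto (fun N : ℕ => (N : ℝ)⁻¹ * ∑ n ∈ Finset.range N, Real.cos (n * x)) atTop (𝓝 0) := by
  obtain ⟨C, hC⟩ := cos_sum_bdd x hx h1
  have h2 : Tendsto (fun N : ℕ => (N : ℝ)⁻¹ * C) atTop (𝓝 0) := by
    have := (tendsto_inv_atTop_nhds_zero_nat (𝕜 := ℝ)).mul_const C
    rwa [zero_mul] at this
  refine squeeze_zero_norm (fun N => ?_) h2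
  rw [Real.norm_eq_abs, abs_mul, abs_of_nonneg (by positivity : (0 : ℝ) ≤ (N : ℝ)⁻¹)]
  exact mul_le_mul_of_nonneg_left (hC N) (by positivity)

theorem cos_avg_abs (x : ℝ) (N : ℕ) :
    |(N : ℝ)⁻¹ * ∑ n ∈ Finset.range N, Real.cos (n * x)| ≤ 1 := by
  have h : |∑ n ∈ Finset.range N, Real.cos (n * x)| ≤ N := by
    refine (Finset.abs_sum_le_sum_abs _ _).trans ?_
    refine (Finset.sum_le_sum fun n _ => Real.abs_cos_le_one _).trans ?_
    simp
  rw [abs_mul, abs_of_nonneg (by positivity : (0 : ℝ) ≤ (N : ℝ)⁻¹)]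
  rcases Nat.eq_zero_or_pos N with h0 | h0
  · subst h0; simp
  · have : (0 : ℝ) < N := by exact_mod_cast h0
    rw [inv_mul_le_iff₀ this, mul_one]
    exact h

variable {μ : Measure ℝ} [IsProbabilityMeasure μ] {r K : ℝ}

theorem Fisher.exists_freq (h : Fisher μ r K) {η : ℝ} (hη : 0 < η) :
    ∃ c : ℝ, ∫ z : ℝ × ℝ, Real.cos (c * (z.1 - z.2)) * G η (z.1 - z.2) ∂(μ.prod μ)
      ≤ DD μ η / 4 := by
  have hD : 0 < DD μ η := by
    have h1 := h.le_DD hη
    have h2 : 0 ≤ 2 * η * (2 * r + η) := by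
      have := h.r0
      positivity
    by_contra hneg
    push Not at hneg
    nlinarith
  set β : ℝ := (2 * r + 1)⁻¹ with hβ
  have hr := h.r0
  have hβ0 : 0 < β := by positivity
  by_contra hcon
  push Not at hcon
  have hlim : Tendsto (fun N : ℕ => ∫ z : ℝ × ℝ, ((N : ℝ)⁻¹ * ∑ n ∈ Finset.range N,
      Real.cos (n * (β * (z.1 - z.2)))) * G η (z.1 - z.2) ∂(μ.prod μ)) atTop
      (𝓝 (∫ _ : ℝ × ℝ, (0 : ℝ) ∂(μ.prod μ))) := by
    refine tendsto_integral_of_dominated_convergence (fun _ => (η ^ 2)⁻¹) ?_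
      (integrable_const _) ?_ ?_
    · intro N
      have : Continuous fun z : ℝ × ℝ => ((N : ℝ)⁻¹ * ∑ n ∈ Finset.range N,
          Real.cos (n * (β * (z.1 - z.2)))) * G η (z.1 - z.2) :=
        Continuous.mul (by fun_prop) (G_sub_cont hη)
      exact this.aestronglyMeasurable
    · intro N
      refine Eventually.of_forall fun z => ?_
      rw [norm_mul]
      calc _ ≤ 1 * (η ^ 2)⁻¹ :=
            mul_le_mul (cos_avg_abs _ N) (G_abs hη _) (abs_nonneg _) zero_le_one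
        _ = (η ^ 2)⁻¹ := one_mul _
    · filter_upwards [h.diag, h.supp2] with z hz hz2
      have h3 : β * (z.1 - z.2) ≠ 0 := mul_ne_zero hβ0.ne' (sub_ne_zero.2 hz)
      have h4 : |β * (z.1 - z.2)| ≤ 1 := by
        rw [abs_mul, abs_of_pos hβ0, hβ, inv_mul_le_iff₀ (by positivity), mul_one, abs_le]
        obtain ⟨⟨a1, a2⟩, a3, a4⟩ := hz2
        constructor <;> linarith
      have := (cos_avg _ h3 h4).mul_const (G η (z.1 - z.2))
      rwa [zero_mul] at this
  rw [integral_zero] at hlim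
  have hev := (tendsto_order.1 hlim).2 (DD μ η / 4) (by positivity)
  obtain ⟨N, hN, hN1⟩ := (hev.and (eventually_ge_atTop 1)).exists
  have hNpos : (0 : ℝ) < N := by exact_mod_cast hN1
  have i1 : ∀ n : ℕ, Integrable (fun z : ℝ × ℝ => Real.cos (n * (β * (z.1 - z.2))) *
      G η (z.1 - z.2)) (μ.prod μ) := by
    intro n
    refine int_of_bdd _ (Continuous.mul (by fun_prop) (G_sub_cont hη)) (C := (η ^ 2)⁻¹) ?_
    intro z
    rw [abs_mul]
    calc _ ≤ 1 * (η ^ 2)⁻¹ :=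
          mul_le_mul (Real.abs_cos_le_one _) (G_abs hη _) (abs_nonneg _) zero_le_one
      _ = (η ^ 2)⁻¹ := one_mul _
  have h5 : ∫ z : ℝ × ℝ, ((N : ℝ)⁻¹ * ∑ n ∈ Finset.range N,
      Real.cos (n * (β * (z.1 - z.2)))) * G η (z.1 - z.2) ∂(μ.prod μ) =
      (N : ℝ)⁻¹ * ∑ n ∈ Finset.range N, ∫ z : ℝ × ℝ, Real.cos (n * (β * (z.1 - z.2))) *
        G η (z.1 - z.2) ∂(μ.prod μ) := by
    rw [← integral_finsetSum _ fun n _ => i1 n, ← integral_const_mul]
    refine integral_congr_ae (Eventually.of_forall fun z => ?_)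
    show _ = _ * ∑ n ∈ Finset.range N, _
    rw [← Finset.sum_mul]
    ring
  rw [h5] at hN
  have h6 : ∀ n ∈ Finset.range N, DD μ η / 4 ≤ ∫ z : ℝ × ℝ,
      Real.cos (n * (β * (z.1 - z.2))) * G η (z.1 - z.2) ∂(μ.prod μ) := by
    intro n _
    have := (hcon (n * β)).le
    simpa only [mul_assoc] using this
  have h7 := Finset.sum_le_sum h6
  rw [Finset.sum_const, Finset.card_range, nsmul_eq_mul] at h7
  have h8 : DD μ η / 4 ≤ (N : ℝ)⁻¹ * ∑ n ∈ Finset.range N, ∫ z : ℝ × ℝ,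
      Real.cos (n * (β * (z.1 - z.2))) * G η (z.1 - z.2) ∂(μ.prod μ) := by
    rw [← div_eq_inv_mul, le_div_iff₀ hNpos]
    linarith
  linarith

theorem Fisher.DD_pos (h : Fisher μ r K) {η : ℝ} (hη : 0 < η) : 0 < DD μ η := by
  have h1 := h.le_DD hη
  have h2 : 0 ≤ 2 * η * (2 * r + η) := by
    have := h.r0
    positivity
  by_contra hneg
  push Not at hneg
  nlinarith

theorem wG_int {η : ℝ} (hη : 0 < η) {w : ℝ → ℝ} (hw : Continuous w) (hw1 : ∀ s, |w s| ≤ 1) :
    Integrable (fun z : ℝ × ℝ => (w z.1 - w z.2) ^ 2 * G η (z.1 - z.2)) (μ.prod μ) := by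
  refine int_of_bdd _ (Continuous.mul (by fun_prop) (G_sub_cont hη)) (C := 4 * (η ^ 2)⁻¹) ?_
  intro z
  rw [abs_mul]
  refine mul_le_mul ?_ (G_abs hη _) (abs_nonneg _) (by norm_num)
  rw [abs_of_nonneg (sq_nonneg _)]
  have h1 := abs_le.1 (hw1 z.1)
  have h2 := abs_le.1 (hw1 z.2)
  nlinarith

theorem Fisher.exists_w (h : Fisher μ r K) {η : ℝ} (hη : 0 < η) :
    ∃ w : ℝ → ℝ, Continuous w ∧ (∀ s, |w s| ≤ 1) ∧
      3 / 4 * DD μ η ≤ ∫ z : ℝ × ℝ, (w z.1 - w z.2) ^ 2 * G η (z.1 - z.2) ∂(μ.prod μ) := by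
  obtain ⟨c, hc⟩ := h.exists_freq hη
  have hsum : (∫ z : ℝ × ℝ, (Real.cos (c * z.1) - Real.cos (c * z.2)) ^ 2 *
      G η (z.1 - z.2) ∂(μ.prod μ)) + (∫ z : ℝ × ℝ, (Real.sin (c * z.1) - Real.sin (c * z.2)) ^ 2 *
      G η (z.1 - z.2) ∂(μ.prod μ)) = 2 * DD μ η - 2 * ∫ z : ℝ × ℝ, Real.cos (c * (z.1 - z.2)) *
        G η (z.1 - z.2) ∂(μ.prod μ) := by
    have i1 := wG_int (μ := μ) hη (w := fun s => Real.cos (c * s)) (by fun_prop)
      fun s => Real.abs_cos_le_one _
    have i2 := wG_int (μ := μ) hη (w := fun s => Real.sin (c * s)) (by fun_prop)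
      fun s => Real.abs_sin_le_one _
    have i3 : Integrable (fun z : ℝ × ℝ => Real.cos (c * (z.1 - z.2)) * G η (z.1 - z.2))
        (μ.prod μ) := by
      refine int_of_bdd _ (Continuous.mul (by fun_prop) (G_sub_cont hη)) (C := (η ^ 2)⁻¹) ?_
      intro z
      rw [abs_mul]
      calc _ ≤ 1 * (η ^ 2)⁻¹ :=
            mul_le_mul (Real.abs_cos_le_one _) (G_abs hη _) (abs_nonneg _) zero_le_one
        _ = (η ^ 2)⁻¹ := one_mul _
    rw [← integral_add i1 i2]
    unfold DD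
    rw [← integral_const_mul, ← integral_const_mul,
      ← integral_sub ((G2_int hη).const_mul _) (i3.const_mul _)]
    refine integral_congr_ae (Eventually.of_forall fun z => ?_)
    show (Real.cos (c * z.1) - Real.cos (c * z.2)) ^ 2 * G η (z.1 - z.2) +
      (Real.sin (c * z.1) - Real.sin (c * z.2)) ^ 2 * G η (z.1 - z.2) =
      2 * G η (z.1 - z.2) - 2 * (Real.cos (c * (z.1 - z.2)) * G η (z.1 - z.2))
    have h1 : Real.cos (c * (z.1 - z.2)) = Real.cos (c * z.1) * Real.cos (c * z.2) +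
        Real.sin (c * z.1) * Real.sin (c * z.2) := by
      rw [mul_sub, Real.cos_sub]
    rw [h1]
    have h2 := Real.sin_sq_add_cos_sq (c * z.1)
    have h3 := Real.sin_sq_add_cos_sq (c * z.2)
    linear_combination G η (z.1 - z.2) * h2 + G η (z.1 - z.2) * h3
  by_cases hcase : 3 / 4 * DD μ η ≤ ∫ z : ℝ × ℝ, (Real.cos (c * z.1) - Real.cos (c * z.2)) ^ 2 *
      G η (z.1 - z.2) ∂(μ.prod μ)
  · exact ⟨fun s => Real.cos (c * s), by fun_prop, fun s => Real.abs_cos_le_one _, hcase⟩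
  · refine ⟨fun s => Real.sin (c * s), by fun_prop, fun s => Real.abs_sin_le_one _, ?_⟩
    push Not at hcase
    linarith

theorem Fisher.exists_v (h : Fisher μ r K) {η : ℝ} (hη : 0 < η) :
    ∃ v : ℝ[X], (∀ s ∈ Set.Icc (-r) r, |v.eval s| ≤ 1) ∧
      1 / 2 * DD μ η ≤ ∫ z : ℝ × ℝ, (v.eval z.1 - v.eval z.2) ^ 2 * G η (z.1 - z.2) ∂(μ.prod μ) := by
  obtain ⟨w, hw, hw1, hw2⟩ := h.exists_w hη
  obtain ⟨p, hp⟩ := exists_polynomial_near_of_continuousOn (-r) r w hw.continuousOn (1 / 100)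
    (by norm_num)
  refine ⟨C (100 / 101) * p, ?_, ?_⟩
  · intro s hs
    rw [eval_mul, eval_C, abs_mul, abs_of_pos (by norm_num : (0 : ℝ) < 100 / 101)]
    have h1 := hp s hs
    have h2 : |p.eval s| ≤ 101 / 100 := by
      have : p.eval s = (p.eval s - w s) + w s := by ring
      rw [this]
      refine (abs_add_le _ _).trans ?_
      have := hw1 s
      linarith
    nlinarith [abs_nonneg (p.eval s)]
  · have h1 : ∫ z : ℝ × ℝ, ((100 / 101) ^ 2 * ((w z.1 - w z.2) ^ 2 * G η (z.1 - z.2)) -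
        (100 / 101) ^ 2 * (8 / 100) * G η (z.1 - z.2)) ∂(μ.prod μ) ≤
        ∫ z : ℝ × ℝ, ((C (100 / 101) * p).eval z.1 - (C (100 / 101) * p).eval z.2) ^ 2 *
          G η (z.1 - z.2) ∂(μ.prod μ) := by
      refine integral_mono_ae (((wG_int hη hw hw1).const_mul _).sub ((G2_int hη).const_mul _))
        (h.int_cont2 ?_) ?_
      · exact Continuous.mul (by fun_prop) (G_sub_cont hη)
      · filter_upwards [h.supp2] with z hz
        have a1 := abs_lt.1 (hp z.1 hz.1)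
        have a2 := abs_lt.1 (hp z.2 hz.2)
        have b1 := abs_le.1 (hw1 z.1)
        have b2 := abs_le.1 (hw1 z.2)
        have hG := G_pos hη (z.1 - z.2)
        have h3 : (w z.1 - w z.2) ^ 2 - 8 / 100 ≤ (p.eval z.1 - p.eval z.2) ^ 2 := by
          set a := w z.1 - w z.2
          set b := p.eval z.1 - p.eval z.2
          have e1 : |a| ≤ 2 := by rw [abs_le]; constructor <;> linarith
          have e2 : |a - b| ≤ 2 / 100 := by rw [abs_le]; constructor <;> linarith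
          have e3 : |b| ≥ |a| - 2 / 100 := by
            have := abs_sub_abs_le_abs_sub a b
            linarith
          by_cases hc : |a| ≤ 2 / 100
          · have : a ^ 2 ≤ 8 / 100 := by
              rw [← sq_abs]; nlinarith [abs_nonneg a]
            nlinarith [sq_nonneg b]
          · push Not at hc
            have : (|a| - 2 / 100) ^ 2 ≤ |b| ^ 2 := pow_le_pow_left₀ (by linarith) e3 2
            rw [sq_abs] at this
            have e4 : |a| ^ 2 = a ^ 2 := sq_abs a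
            nlinarith
        simp only [eval_mul, eval_C]
        have h4 : (100 / 101 * p.eval z.1 - 100 / 101 * p.eval z.2) ^ 2 =
          (100 / 101) ^ 2 * (p.eval z.1 - p.eval z.2) ^ 2 := by ring
        rw [h4]
        nlinarith [mul_le_mul_of_nonneg_right h3 hG.le]
    rw [integral_sub ((wG_int hη hw hw1).const_mul _) ((G2_int hη).const_mul _),
      integral_const_mul, integral_const_mul] at h1
    have h2 := h.DD_pos hη
    have h5 : ∫ z : ℝ × ℝ, G η (z.1 - z.2) ∂(μ.prod μ) = DD μ η := rfl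
    rw [h5] at h1
    nlinarith

/-- polynomial approximation of the kernel `G` -/
theorem exists_g (r : ℝ) (hr : 0 ≤ r) {η : ℝ} (hη : 0 < η) :
    ∃ g : ℝ[X], (∀ x, |x| ≤ 2 * r → 0 ≤ g.eval x ∧ g.eval x ≤ G η x ∧ G η x / 2 ≤ g.eval x) ∧
      ∀ x, g.eval (-x) = g.eval x := by
  set M : ℝ := 4 * r ^ 2 + η ^ 2 with hM
  have hM0 : 0 < M := by positivity
  set q : ℝ := 1 - η ^ 2 / M with hq
  have hq0 : 0 ≤ q := by
    rw [hq, sub_nonneg, div_le_one hM0]; nlinarith [sq_nonneg r]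
  have hq1 : q < 1 := by
    rw [hq]; have : 0 < η ^ 2 / M := by positivity
    linarith
  obtain ⟨N, hN⟩ := exists_pow_lt_of_lt_one (by norm_num : (0 : ℝ) < 1 / 2) hq1
  set ρ : ℝ[X] := 1 - C (1 / M) * (X ^ 2 + C (η ^ 2)) with hρ
  have hρe : ∀ x, ρ.eval x = 1 - (x ^ 2 + η ^ 2) / M := by
    intro x
    rw [hρ]
    simp only [eval_sub, eval_one, eval_mul, eval_C, eval_add, eval_pow, eval_X]
    ring
  refine ⟨C (1 / M) * ∑ n ∈ Finset.range N, ρ ^ n, ?_, ?_⟩
  · intro x hx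
    have hx2 : x ^ 2 ≤ 4 * r ^ 2 := by
      have := sq_le_sq' (by linarith [abs_le.1 hx]) (abs_le.1 hx).2
      nlinarith
    set y := ρ.eval x with hy
    have hy0 : 0 ≤ y := by
      rw [hy, hρe, sub_nonneg, div_le_one hM0]; linarith
    have hyq : y ≤ q := by
      rw [hy, hρe, hq]
      have : η ^ 2 / M ≤ (x ^ 2 + η ^ 2) / M := by
        gcongr; nlinarith [sq_nonneg x]
      linarith
    have hyN : y ^ N ≤ 1 / 2 := (pow_le_pow_left₀ hy0 hyq N).trans hN.le
    have hyN0 : 0 ≤ y ^ N := by positivity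
    have hval : (C (1 / M) * ∑ n ∈ Finset.range N, ρ ^ n).eval x = (1 - y ^ N) * G η x := by
      rw [eval_mul, eval_C, eval_finsetSum]
      simp only [eval_pow]
      rw [← hy, geom_sum_eq (by linarith : y ≠ 1)]
      have h1 : (x ^ 2 + η ^ 2) = M * (1 - y) := by
        rw [hy, hρe]; field_simp; ring
      unfold G
      rw [h1]
      have h2 : 1 - y ≠ 0 := by linarith
      have h3 : y - 1 ≠ 0 := by linarith
      field_simp
      ring
    rw [hval]
    have hG := G_pos hη x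
    refine ⟨mul_nonneg (by linarith) hG.le, ?_, ?_⟩
    · nlinarith
    · nlinarith
  · intro x
    rw [eval_mul, eval_mul, eval_finsetSum, eval_finsetSum]
    simp only [eval_pow, hρe, neg_sq, eval_C]

end Pool.Agent.W663.FI
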