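import Pool.Agent.W663.FI.Adj
import Pool.Agent.W663.FI.Meas4
import Pool.Agent.H792R3.SpecMeas

set_option autoImplicit false
set_option linter.unusedSectionVars false

open Filter Topology MeasureTheory Polynomial
open scoped TensorProduct InnerProductSpace

namespace Pool.Agent.W663.FI

open Pool.Agent.Helper38.FE

variable {H : Type} [NormedAddCommGroup H] [InnerProductSpace ℂ H] [CompleteSpace H] {m : ℕ}
  {M : VonNeumannAlgebra H} {Ω : H} {x : Fin m → (H →L[ℂ] H)}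

/-- the vectors `x_i^n Ω` -/
noncomputable def e (Ω : H) (x : Fin m → (H →L[ℂ] H)) (i : Fin m) (n : ℕ) : L2 Ω x :=
  vec Ω x (List.replicate n i)

theorem e_zero (i : Fin m) : e Ω x i 0 = vec Ω x [] := rfl

theorem L_e (i : Fin m) (k : ℕ) : Lop Ω x i (e Ω x i k) = e Ω x i (k + 1) := by
  unfold e
  rw [Lop_vec]; rfl

theorem R_e (hM : TracialSpace M Ω) (hx : ∀ i, x i ∈ M ∧ IsSelfAdjoint (x i)) (i : Fin m) (k : ℕ) :
    Rop Ω x i (e Ω x i k) = e Ω x i (k + 1) := by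
  unfold e
  rw [Rop_vec hM hx, List.replicate_succ']

theorem L_pow_e (i : Fin m) (n k : ℕ) :
    ((Lop Ω x i) ^ n) (e Ω x i k) = e Ω x i (k + n) := by
  induction n with
  | zero => simp
  | succ n ih => rw [pow_succ', mul_apply_eq_comp, ih, L_e, add_assoc]

theorem R_pow_e (hM : TracialSpace M Ω) (hx : ∀ i, x i ∈ M ∧ IsSelfAdjoint (x i)) (i : Fin m)
    (n k : ℕ) : ((Rop Ω x i) ^ n) (e Ω x i k) = e Ω x i (k + n) := by
  induction n with
  | zero => simp
  | succ n ih => rw [pow_succ', mul_apply_eq_comp, ih, R_e hM hx, add_assoc]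

theorem dmon_rep (i : Fin m) (n : ℕ) :
    dmon Ω x i (List.replicate n i) =
      ∑ k ∈ Finset.range n, ten (e Ω x i k) (e Ω x i (n - 1 - k)) := by
  unfold dmon
  rw [List.length_replicate]
  refine Finset.sum_congr rfl fun k hk => ?_
  have hk' := Finset.mem_range.1 hk
  rw [List.getElem?_replicate, if_pos hk', if_pos rfl, List.take_replicate, List.drop_replicate,
    min_eq_left hk'.le]
  unfold e
  rw [Nat.sub_add_eq, Nat.sub_right_comm]

/-- `μ` is the spectral distribution of `x_i` -/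
structure SpecM (Ω : H) (x : Fin m → (H →L[ℂ] H)) (i : Fin m) (μ : Measure ℝ) (r : ℝ) : Prop where
  r0 : 0 ≤ r
  supp : ∀ᵐ s ∂μ, s ∈ Set.Icc (-r) r
  mom : ∀ j k : ℕ, inner ℂ (e Ω x i j) (e Ω x i k) = ((∫ s, s ^ (j + k) ∂μ : ℝ) : ℂ)

theorem spec_sub (T : H →L[ℂ] H) : ∀ s ∈ spectrum ℝ T, |s| ≤ ‖T‖ := by
  intro s hs
  rcases subsingleton_or_nontrivial H with hH | hH
  · exact absurd hs (by
      have : T = 0 := Subsingleton.elim _ _
      rw [spectrum.mem_iff, not_not]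
      exact isUnit_of_subsingleton _)
  · have := spectrum.norm_le_norm_of_mem hs
    rwa [Real.norm_eq_abs] at this

theorem exists_specM (hM : TracialSpace M Ω) (hx : ∀ i, x i ∈ M ∧ IsSelfAdjoint (x i))
    (i : Fin m) : ∃ μ : Measure ℝ, IsProbabilityMeasure μ ∧ SpecM Ω x i μ ‖x i‖ := by
  obtain ⟨μ, hfin, hμ⟩ := Pool.Agent.H792R3.exists_specMeas (x i) (hx i).2 Ω
  have h1 : ∀ n : ℕ, ((∫ s, s ^ n ∂μ : ℝ) : ℂ) = inner ℂ Ω (((x i) ^ n) Ω) := by
    intro n
    rw [(hμ (fun s => s ^ n) (by fun_prop)).2]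
    congr 2
    exact cfc_pow_id (R := ℝ) (x i) n (ha := (hx i).2)
  have hprob : IsProbabilityMeasure μ := by
    have h2 := h1 0
    simp only [pow_zero, integral_const, smul_eq_mul, mul_one] at h2
    have h3 : inner ℂ Ω ((1 : H →L[ℂ] H) Ω) = (1 : ℂ) := by
      show inner ℂ Ω Ω = (1 : ℂ)
      rw [inner_self_eq_norm_sq_to_K, hM.norm_one]
      simp
    rw [h3] at h2
    have h4 : μ.real Set.univ = 1 := by exact_mod_cast h2
    exact isProbabilityMeasure_iff_real.2 h4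
  refine ⟨μ, hprob, norm_nonneg _, ?_, ?_⟩
  · have h2 := hμ (fun s => max (|s| - ‖x i‖) 0) (by fun_prop)
    have h3 : cfc (fun s : ℝ => max (|s| - ‖x i‖) 0) (x i) = 0 := by
      have h4 : cfc (fun s : ℝ => max (|s| - ‖x i‖) 0) (x i) = cfc (fun _ : ℝ => (0 : ℝ)) (x i) := by
        refine cfc_congr fun s hs => ?_
        exact max_eq_right (by linarith [spec_sub (x i) s hs])
      rw [h4, cfc_const_zero]
    rw [h3] at h2
    have h5 : ∫ s, max (|s| - ‖x i‖) 0 ∂μ = 0 := by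
      have := h2.2
      simp only [zero_apply, inner_zero_right] at this
      exact_mod_cast this
    have h5' := (integral_eq_zero_iff_of_nonneg (μ := μ)
      (f := fun s : ℝ => max (|s| - ‖x i‖) 0) (fun s => le_max_right _ _) h2.1).1 h5
    filter_upwards [h5'] with s hs
    have h6 : |s| - ‖x i‖ ≤ 0 := by
      have : max (|s| - ‖x i‖) 0 = 0 := hs
      exact (le_max_left _ _).trans this.le
    exact abs_le.1 (by linarith)
  · intro j k
    rw [h1]
    unfold e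
    rw [inner_vec]
    congr 2
    have h2 : ∀ n, wd x (List.replicate n i) = x i ^ n := by
      intro n; simp [wd]
    rw [h2, h2, star_pow, (hx i).2.star_eq, ← pow_add]


section

variable {μ : Measure ℝ} [IsProbabilityMeasure μ] {r : ℝ} {i : Fin m}

theorem SpecM.int_cont (h : SpecM Ω x i μ r) {f : ℝ → ℝ} (hf : Continuous f) :
    Integrable f μ := by
  obtain ⟨C, hC⟩ := (isCompact_Icc (a := -r) (b := r)).exists_bound_of_continuousOn
    hf.continuousOn
  refine Integrable.of_bound hf.aestronglyMeasurable C ?_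
  filter_upwards [h.supp] with s hs using hC s hs

theorem SpecM.int_cont2 (h : SpecM Ω x i μ r) {f : ℝ × ℝ → ℝ} (hf : Continuous f) :
    Integrable f (μ.prod μ) := by
  obtain ⟨C, hC⟩ := ((isCompact_Icc (a := -r) (b := r)).prod
    (isCompact_Icc (a := -r) (b := r))).exists_bound_of_continuousOn hf.continuousOn
  refine Integrable.of_bound hf.aestronglyMeasurable C ?_
  have h1 : ∀ᵐ z ∂(μ.prod μ), z.1 ∈ Set.Icc (-r) r :=
    Measure.quasiMeasurePreserving_fst.ae h.supp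
  have h2 : ∀ᵐ z ∂(μ.prod μ), z.2 ∈ Set.Icc (-r) r :=
    Measure.quasiMeasurePreserving_snd.ae h.supp
  filter_upwards [h1, h2] with z hz1 hz2 using hC z ⟨hz1, hz2⟩

/-- the vector `P(x_i) Ω` -/
noncomputable def EE (Ω : H) (x : Fin m → (H →L[ℂ] H)) (i : Fin m) (P : ℝ[X]) : L2 Ω x :=
  ∑ n ∈ P.support, (P.coeff n : ℂ) • e Ω x i n

theorem EE_inner (h : SpecM Ω x i μ r) (P Q : ℝ[X]) :
    inner ℂ (EE Ω x i P) (EE Ω x i Q) = ((∫ s, P.eval s * Q.eval s ∂μ : ℝ) : ℂ) := by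
  have h1 : ∀ k, inner ℂ (e Ω x i k) (EE Ω x i Q) = ((∫ s, s ^ k * Q.eval s ∂μ : ℝ) : ℂ) := by
    intro k
    unfold EE
    rw [inner_sum]
    have h2 : ∀ s : ℝ, s ^ k * Q.eval s = ∑ n ∈ Q.support, Q.coeff n * s ^ (k + n) := by
      intro s
      rw [Polynomial.eval_eq_sum, Polynomial.sum_def, Finset.mul_sum]
      refine Finset.sum_congr rfl fun n _ => ?_
      ring
    simp only [h2]
    rw [integral_finsetSum _ fun n _ => h.int_cont (by fun_prop)]
    push_cast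
    refine Finset.sum_congr rfl fun n _ => ?_
    rw [inner_smul_right, h.mom, integral_const_mul]
    push_cast
    rfl
  have h2 : inner ℂ (EE Ω x i P) (EE Ω x i Q) =
      ∑ n ∈ P.support, (P.coeff n : ℂ) * inner ℂ (e Ω x i n) (EE Ω x i Q) := by
    conv_lhs => rw [EE]
    rw [sum_inner]
    refine Finset.sum_congr rfl fun n _ => ?_
    rw [inner_smul_left, Complex.conj_ofReal]
  rw [h2]
  simp only [h1]
  have h3 : ∀ s : ℝ, P.eval s * Q.eval s = ∑ n ∈ P.support, P.coeff n * (s ^ n * Q.eval s) := by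
    intro s
    rw [Polynomial.eval_eq_sum, Polynomial.sum_def, Finset.sum_mul]
    refine Finset.sum_congr rfl fun n _ => ?_
    ring
  simp only [h3]
  rw [integral_finsetSum _ fun n _ => h.int_cont (by fun_prop)]
  push_cast
  refine Finset.sum_congr rfl fun n _ => ?_
  rw [integral_const_mul]
  push_cast
  rfl

theorem EE_norm (h : SpecM Ω x i μ r) (P : ℝ[X]) :
    ‖EE Ω x i P‖ ^ 2 = ∫ s, (P.eval s) ^ 2 ∂μ := by
  have h1 := EE_inner h P P
  rw [inner_self_eq_norm_sq_to_K] at h1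
  have h2 : ‖EE Ω x i P‖ ^ 2 = ∫ s, P.eval s * P.eval s ∂μ := by
    apply Complex.ofReal_injective
    rw [← h1]
    push_cast
    rfl
  rw [h2]
  refine integral_congr_ae (Eventually.of_forall fun s => ?_)
  show P.eval s * P.eval s = (P.eval s) ^ 2
  ring

theorem EE_coe (P : ℝ[X]) :
    ((EE Ω x i P : L2 Ω x) : H) = (aeval (x i) P) Ω := by
  unfold EE
  rw [Submodule.coe_sum, Polynomial.aeval_eq_sum_range' (n := P.natDegree + 1) (by omega),
    FunLike.coe_sum, Finset.sum_apply]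
  have hsub : P.support ⊆ Finset.range (P.natDegree + 1) := by
    intro n hn
    exact Finset.mem_range.2 (Nat.lt_succ_of_le (le_natDegree_of_mem_supp n hn))
  rw [Finset.sum_subset hsub]
  · refine Finset.sum_congr rfl fun n _ => ?_
    have h2 : ∀ n, wd x (List.replicate n i) = x i ^ n := by
      intro n; simp [wd]
    rw [Submodule.coe_smul]
    unfold e
    rw [vec_coe, h2]
    show _ = (P.coeff n) • ((x i ^ n) Ω)
    exact (RCLike.real_smul_eq_coe_smul (K := ℂ) (P.coeff n) ((x i ^ n) Ω)).symm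
  · intro n _ hn
    rw [notMem_support_iff.1 hn]
    simp

/-- `∂_i (P(x_i))` -/
noncomputable def dEE (Ω : H) (x : Fin m → (H →L[ℂ] H)) (i : Fin m) (P : ℝ[X]) : T2 Ω x :=
  ∑ n ∈ P.support, (P.coeff n : ℂ) • dmon Ω x i (List.replicate n i)

theorem inner_ten_e (h : SpecM Ω x i μ r) (j k j' k' : ℕ) :
    inner ℂ (ten (e Ω x i j) (e Ω x i k) : T2 Ω x) (ten (e Ω x i j') (e Ω x i k')) =
      ((∫ z : ℝ × ℝ, (z.1 ^ j * z.2 ^ k) * (z.1 ^ j' * z.2 ^ k') ∂(μ.prod μ) : ℝ) : ℂ) := by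
  rw [inner_ten, h.mom, h.mom, ← Complex.ofReal_mul, ← integral_prod_mul]
  congr 1
  refine integral_congr_ae (Eventually.of_forall fun z => ?_)
  show z.1 ^ (j + j') * z.2 ^ (k + k') = (z.1 ^ j * z.2 ^ k) * (z.1 ^ j' * z.2 ^ k')
  ring

theorem dEE_base (hx : ∀ i, x i ∈ M ∧ IsSelfAdjoint (x i)) {ξ : Fin m → H}
    (hξ : IsConj Ω x ξ) (h : SpecM Ω x i μ r) (P : ℝ[X]) :
    ((∫ s, ∫ t, dd P s t ∂μ ∂μ : ℝ) : ℂ) = inner ℂ (EE Ω x i P) (⟨ξ i, hξ.1 i⟩ : L2 Ω x) := by
  unfold EE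
  rw [sum_inner]
  have h1 : ∀ n, inner ℂ (e Ω x i n) (⟨ξ i, hξ.1 i⟩ : L2 Ω x) =
      ((∫ z : ℝ × ℝ, ∑ l ∈ Finset.range n, z.1 ^ l * z.2 ^ (n - 1 - l) ∂(μ.prod μ) : ℝ) : ℂ) := by
    intro n
    have h2 := Adj.base hx hξ i (List.replicate n i)
    rw [show e Ω x i n = vec Ω x (List.replicate n i) from rfl, ← h2, dmon_rep, sum_inner,
      integral_finsetSum _ fun n _ => h.int_cont2 (by fun_prop)]
    push_cast
    refine Finset.sum_congr rfl fun l _ => ?_
    rw [← e_zero i, inner_ten_e h]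
    simp
  have h3 : ∫ s, ∫ t, dd P s t ∂μ ∂μ = ∫ z : ℝ × ℝ, dd P z.1 z.2 ∂(μ.prod μ) :=
    (integral_prod _ (h.int_cont2 (dd_cont P))).symm
  rw [h3]
  unfold dd
  simp only [Polynomial.sum_def]
  rw [integral_finsetSum _ fun n _ => h.int_cont2 (by fun_prop)]
  push_cast
  refine Finset.sum_congr rfl fun n _ => ?_
  rw [integral_const_mul, inner_smul_left, Complex.conj_ofReal, h1]
  push_cast
  rfl

theorem fisher (hx : ∀ i, x i ∈ M ∧ IsSelfAdjoint (x i)) {ξ : Fin m → H}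
    (hξ : IsConj Ω x ξ) (h : SpecM Ω x i μ r) : Fisher μ r ‖ξ i‖ where
  r0 := h.r0
  K0 := norm_nonneg _
  supp := h.supp
  ineq P := by
    have h1 := dEE_base hx hξ h P
    have h2 : |∫ s, ∫ t, dd P s t ∂μ ∂μ| = ‖inner ℂ (EE Ω x i P) (⟨ξ i, hξ.1 i⟩ : L2 Ω x)‖ := by
      rw [← h1, Complex.norm_real, Real.norm_eq_abs]
    rw [h2]
    refine (norm_inner_le_norm _ _).trans ?_
    rw [mul_comm, ← EE_norm h, Real.sqrt_sq (norm_nonneg _)]
    exact le_rfl

end

end Pool.Agent.W663.FI
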