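import Mathlib

set_option autoImplicit false
set_option linter.unusedSectionVars false

open Filter Topology
open scoped InnerProductSpace ComplexStarModule

namespace Pool.Agent.W663.FI

variable {E : Type} [NormedAddCommGroup E] [InnerProductSpace ℂ E] [CompleteSpace E]

/-- `P(A, B)` for commuting `A`, `B` -/
noncomputable def WW (A B : E →L[ℂ] E) (P : MvPolynomial (Fin 2) ℝ) : E →L[ℂ] E :=
  ∑ d ∈ P.support, ((P.coeff d : ℝ) : ℂ) • (A ^ (d 0) * B ^ (d 1))

theorem WW_norm {A B : E →L[ℂ] E} (hA : IsSelfAdjoint A) (hB : IsSelfAdjoint B)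
    (hAB : Commute A B) {r C : ℝ} (hAr : ‖A‖ ≤ r) (hBr : ‖B‖ ≤ r) (hC : 0 ≤ C)
    (P : MvPolynomial (Fin 2) ℝ)
    (hP : ∀ s ∈ Set.Icc (-r) r, ∀ t ∈ Set.Icc (-r) r, |MvPolynomial.eval ![s, t] P| ≤ C) :
    ‖WW A B P‖ ≤ C := by
  set N : E →L[ℂ] E := A + Complex.I • B with hN
  have hstar : star N = A - Complex.I • B := by
    rw [hN, star_add, star_smul, hA.star_eq, hB.star_eq]
    simp [sub_eq_add_neg]
  have hnorm : IsStarNormal N := by
    refine ⟨?_⟩
    rw [hstar, hN]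
    refine Commute.add_right (Commute.sub_left ?_ ?_) (Commute.sub_left ?_ ?_)
    · exact Commute.refl _
    · exact hAB.symm.smul_left _
    · exact hAB.smul_right _
    · exact ((Commute.refl B).smul_left _).smul_right _
  have hre : ((ℜ N : selfAdjoint (E →L[ℂ] E)) : E →L[ℂ] E) = A := by
    rw [realPart_apply_coe, hstar, hN, add_add_sub_cancel, ← two_smul ℝ A, smul_smul]
    norm_num
  have him : ((ℑ N : selfAdjoint (E →L[ℂ] E)) : E →L[ℂ] E) = B := by
    rw [imaginaryPart_apply_coe, hstar, hN, add_sub_sub_cancel, ← two_smul ℝ (Complex.I • B),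
      smul_smul, smul_comm, smul_smul]
    simp
  have hcre : cfc (fun z : ℂ => (z.re : ℂ)) N = A := by rw [cfc_re_id N, hre]
  have hcim : cfc (fun z : ℂ => (z.im : ℂ)) N = B := by rw [cfc_im_id N, him]
  have hspre : ∀ z ∈ spectrum ℂ N, |z.re| ≤ r ∧ |z.im| ≤ r := by
    intro z hz
    have h1 : ‖z‖ ≤ ‖N‖ * ‖(1 : E →L[ℂ] E)‖ := spectrum.norm_le_norm_mul_of_mem hz
    have h2 : (z.re : ℂ) ∈ spectrum ℂ A := by
      rw [← hre, spectrum_realPart N]
      exact ⟨z, hz, rfl⟩
    have h3 : (z.im : ℂ) ∈ spectrum ℂ B := by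
      rw [← him, spectrum_imaginaryPart N]
      exact ⟨z, hz, rfl⟩
    rcases subsingleton_or_nontrivial E with hE | hE
    · exfalso
      have hu : IsUnit (algebraMap ℂ (E →L[ℂ] E) z - N) := isUnit_of_subsingleton _
      exact hz hu
    · have h4 := spectrum.norm_le_norm_of_mem h2
      have h5 := spectrum.norm_le_norm_of_mem h3
      rw [Complex.norm_real, Real.norm_eq_abs] at h4 h5
      exact ⟨h4.trans hAr, h5.trans hBr⟩
  have hW : WW A B P = cfc (fun z : ℂ => ((MvPolynomial.eval ![z.re, z.im] P : ℝ) : ℂ)) N := by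
    have h1 : (fun z : ℂ => ((MvPolynomial.eval ![z.re, z.im] P : ℝ) : ℂ)) =
        ∑ d ∈ P.support, fun z : ℂ => ((P.coeff d : ℝ) : ℂ) * ((z.re : ℂ) ^ (d 0) * (z.im : ℂ) ^ (d 1)) := by
      ext z
      rw [MvPolynomial.eval_eq', Finset.sum_apply]
      push_cast
      refine Finset.sum_congr rfl fun d _ => ?_
      rw [Fin.prod_univ_two]
      rfl
    rw [h1, cfc_sum _ _ _ (fun d _ => by fun_prop)]
    unfold WW
    refine Finset.sum_congr rfl fun d _ => ?_
    rw [cfc_const_mul _ _ _ (by fun_prop), cfc_mul _ _ _ (by fun_prop) (by fun_prop),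
      cfc_pow _ _ _ (by fun_prop), cfc_pow _ _ _ (by fun_prop), hcre, hcim]
  rw [hW]
  refine norm_cfc_le hC fun z hz => ?_
  obtain ⟨h1, h2⟩ := hspre z hz
  rw [Complex.norm_real, Real.norm_eq_abs]
  exact hP _ (abs_le.1 h1) _ (abs_le.1 h2)

end Pool.Agent.W663.FI
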