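import Pool.Agent.W663.FI.Calc
import Pool.Agent.W663.FI.Joint

set_option autoImplicit false
set_option linter.unusedSectionVars false

open Filter Topology MeasureTheory Polynomial
open scoped TensorProduct InnerProductSpace

namespace Pool.Agent.W663.FI

open Pool.Agent.Helper38.FE

variable {H : Type} [NormedAddCommGroup H] [InnerProductSpace ℂ H] [CompleteSpace H] {m : ℕ}
  {M : VonNeumannAlgebra H} {Ω : H} {x : Fin m → (H →L[ℂ] H)} {i : Fin m}

theorem EE_eq (P : ℝ[X]) : EE Ω x i P = (aeval (Lop Ω x i) P) (e Ω x i 0) := by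
  unfold EE
  rw [Polynomial.aeval_eq_sum_range' (n := P.natDegree + 1) (by omega),
    FunLike.coe_sum, Finset.sum_apply]
  have hsub : P.support ⊆ Finset.range (P.natDegree + 1) := by
    intro n hn
    exact Finset.mem_range.2 (Nat.lt_succ_of_le (le_natDegree_of_mem_supp n hn))
  rw [Finset.sum_subset hsub]
  · refine Finset.sum_congr rfl fun n _ => ?_
    show _ = (P.coeff n) • (((Lop Ω x i) ^ n) (e Ω x i 0))
    rw [L_pow_e, zero_add]
    exact (RCLike.real_smul_eq_coe_smul (K := ℂ) (P.coeff n) (e Ω x i n)).symm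
  · intro n _ hn
    rw [notMem_support_iff.1 hn]
    simp

theorem EE_add (P Q : ℝ[X]) : EE Ω x i (P + Q) = EE Ω x i P + EE Ω x i Q := by
  rw [EE_eq, EE_eq, EE_eq, map_add]; rfl

theorem EE_zero : EE Ω x i 0 = 0 := by
  rw [EE_eq, map_zero]; rfl

theorem EE_sum {ι : Type*} (s : Finset ι) (P : ι → ℝ[X]) :
    EE Ω x i (∑ k ∈ s, P k) = ∑ k ∈ s, EE Ω x i (P k) := by
  classical
  induction s using Finset.induction_on with
  | empty => simp [EE_zero]
  | insert a s ha ih => rw [Finset.sum_insert ha, Finset.sum_insert ha, EE_add, ih]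

theorem EE_C_mul (c : ℝ) (P : ℝ[X]) : EE Ω x i (C c * P) = (c : ℂ) • EE Ω x i P := by
  rw [EE_eq, EE_eq, map_mul, aeval_C, mul_apply_eq_comp, Algebra.algebraMap_eq_smul_one]
  show c • ((aeval (Lop Ω x i) P) (e Ω x i 0)) = _
  exact RCLike.real_smul_eq_coe_smul (K := ℂ) c _

theorem EE_X_pow (k : ℕ) : EE Ω x i (X ^ k) = e Ω x i k := by
  rw [EE_eq, map_pow, aeval_X, L_pow_e, zero_add]

theorem EE_C (c : ℝ) : EE Ω x i (C c) = (c : ℂ) • e Ω x i 0 := by
  rw [← mul_one (C c), EE_C_mul, ← pow_zero X, EE_X_pow]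

theorem L_EE (P : ℝ[X]) : Lop Ω x i (EE Ω x i P) = EE Ω x i (X * P) := by
  rw [EE_eq, EE_eq, map_mul, aeval_X, mul_apply_eq_comp]

theorem R_EE (hM : TracialSpace M Ω) (hx : ∀ i, x i ∈ M ∧ IsSelfAdjoint (x i)) (P : ℝ[X]) :
    Rop Ω x i (EE Ω x i P) = EE Ω x i (X * P) := by
  rw [← L_EE]
  unfold EE
  rw [map_sum, map_sum]
  refine Finset.sum_congr rfl fun n _ => ?_
  rw [map_smul, map_smul, R_e hM hx, L_e]

/-- the polynomial `∫ (s^k - t^k)/(s - t) dμ(t)` -/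
noncomputable def cc (μ : Measure ℝ) (k : ℕ) : ℝ[X] :=
  ∑ l ∈ Finset.range k, X ^ l * C (∫ t, t ^ (k - 1 - l) ∂μ)

theorem cc_zero (μ : Measure ℝ) : cc μ 0 = 0 := by simp [cc]

theorem cc_succ (μ : Measure ℝ) (k : ℕ) : cc μ (k + 1) = X * cc μ k + C (∫ t, t ^ k ∂μ) := by
  unfold cc
  rw [Finset.sum_range_succ', Finset.mul_sum]
  simp only [pow_zero, one_mul]
  congr 1
  · refine Finset.sum_congr rfl fun l _ => ?_
    rw [pow_succ', mul_assoc, show k + 1 - 1 - (l + 1) = k - 1 - l by omega]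

section

variable {μ : Measure ℝ} [IsProbabilityMeasure μ] {r : ℝ}

theorem adj_e (hM : TracialSpace M Ω) (hx : ∀ i, x i ∈ M ∧ IsSelfAdjoint (x i))
    {ξ : Fin m → H} (hξ : IsConj Ω x ξ) (h : SpecM Ω x i μ r) (j k : ℕ) :
    Adj Ω x i (ten (e Ω x i j) (e Ω x i k))
      (((Lop Ω x i) ^ j * (Rop Ω x i) ^ k) ⟨ξ i, hξ.1 i⟩ -
        EE Ω x i (X ^ j * cc μ k + X ^ k * cc μ j)) := by
  have hm : ∀ n, inner ℂ (vec Ω x []) (e Ω x i n) = ((∫ t, t ^ n ∂μ : ℝ) : ℂ) := by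
    intro n
    rw [← e_zero i, h.mom, zero_add]
  have h1 : ∀ k, Adj Ω x i (ten (e Ω x i 0) (e Ω x i k))
      (((Rop Ω x i) ^ k) ⟨ξ i, hξ.1 i⟩ - EE Ω x i (cc μ k)) := by
    intro k
    induction k with
    | zero =>
      rw [cc_zero, EE_zero, sub_zero, pow_zero]
      exact Adj.base hx hξ i
    | succ k ih =>
      have h2 := ih.right hM hx i
      rw [R_e hM hx, if_pos rfl, hm, map_sub, R_EE hM hx] at h2
      rw [cc_succ, EE_add, EE_C, pow_succ', mul_apply_eq_comp, ← sub_sub]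
      exact h2
  induction j with
  | zero =>
    have h2 := h1 k
    rw [cc_zero, mul_zero, add_zero, pow_zero, pow_zero, one_mul, one_mul]
    exact h2
  | succ j ih =>
    have h2 := ih.left hx i
    rw [L_e, if_pos rfl, hm, map_sub, L_EE] at h2
    have h3 : (X ^ (j + 1) * cc μ k + X ^ k * cc μ (j + 1) : ℝ[X]) =
        X * (X ^ j * cc μ k + X ^ k * cc μ j) + C (∫ t, t ^ j ∂μ) * X ^ k := by
      rw [cc_succ]; ring
    rw [h3, EE_add, EE_C_mul, EE_X_pow, ← sub_sub, pow_succ', mul_assoc, mul_apply_eq_comp]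
    exact h2

/-- the tensor `P(x_i ⊗ 1, 1 ⊗ x_i) (Ω ⊗ Ω)` -/
noncomputable def zz (Ω : H) (x : Fin m → (H →L[ℂ] H)) (i : Fin m) (P : MvPolynomial (Fin 2) ℝ) :
    T2 Ω x :=
  ∑ d ∈ P.support, ((P.coeff d : ℝ) : ℂ) • ten (e Ω x i (d 0)) (e Ω x i (d 1))

/-- the correction term -/
noncomputable def bb (μ : Measure ℝ) (P : MvPolynomial (Fin 2) ℝ) : ℝ[X] :=
  ∑ d ∈ P.support, C (P.coeff d) * (X ^ (d 0) * cc μ (d 1) + X ^ (d 1) * cc μ (d 0))

theorem adj_zz (hM : TracialSpace M Ω) (hx : ∀ i, x i ∈ M ∧ IsSelfAdjoint (x i))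
    {ξ : Fin m → H} (hξ : IsConj Ω x ξ) (h : SpecM Ω x i μ r) (P : MvPolynomial (Fin 2) ℝ) :
    Adj Ω x i (zz Ω x i P)
      (WW (Lop Ω x i) (Rop Ω x i) P ⟨ξ i, hξ.1 i⟩ - EE Ω x i (bb μ P)) := by
  have h1 : WW (Lop Ω x i) (Rop Ω x i) P ⟨ξ i, hξ.1 i⟩ - EE Ω x i (bb μ P) =
      ∑ d ∈ P.support, ((P.coeff d : ℝ) : ℂ) •
        (((Lop Ω x i) ^ (d 0) * (Rop Ω x i) ^ (d 1)) ⟨ξ i, hξ.1 i⟩ -
          EE Ω x i (X ^ (d 0) * cc μ (d 1) + X ^ (d 1) * cc μ (d 0))) := by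
    unfold WW bb
    rw [FunLike.coe_sum, Finset.sum_apply, EE_sum, ← Finset.sum_sub_distrib]
    refine Finset.sum_congr rfl fun d _ => ?_
    rw [EE_C_mul, smul_sub]
    rfl
  rw [h1]
  unfold zz
  refine Adj.sum _ fun d _ => ?_
  exact (adj_e hM hx hξ h _ _).smul _

theorem inner_ten_zz (h : SpecM Ω x i μ r) (j k : ℕ) (P : MvPolynomial (Fin 2) ℝ) :
    inner ℂ (ten (e Ω x i j) (e Ω x i k) : T2 Ω x) (zz Ω x i P) =
      ((∫ z : ℝ × ℝ, (z.1 ^ j * z.2 ^ k) * MvPolynomial.eval ![z.1, z.2] P ∂(μ.prod μ) : ℝ) : ℂ) := by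
  have h1 : ∀ z : ℝ × ℝ, (z.1 ^ j * z.2 ^ k) * MvPolynomial.eval ![z.1, z.2] P =
      ∑ d ∈ P.support, P.coeff d * ((z.1 ^ j * z.2 ^ k) * (z.1 ^ (d 0) * z.2 ^ (d 1))) := by
    intro z
    rw [MvPolynomial.eval_eq', Finset.mul_sum]
    refine Finset.sum_congr rfl fun d _ => ?_
    rw [Fin.prod_univ_two]
    simp only [Matrix.cons_val_zero, Matrix.cons_val_one]
    ring
  simp only [h1]
  unfold zz
  rw [inner_sum, integral_finsetSum _ fun n _ => h.int_cont2 (by fun_prop)]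
  push_cast
  refine Finset.sum_congr rfl fun d _ => ?_
  rw [inner_smul_right, inner_ten_e h, integral_const_mul]
  push_cast
  rfl

theorem mveval_cont (P : MvPolynomial (Fin 2) ℝ) :
    Continuous fun z : ℝ × ℝ => MvPolynomial.eval ![z.1, z.2] P := by
  simp only [MvPolynomial.eval_eq', Fin.prod_univ_two, Matrix.cons_val_zero, Matrix.cons_val_one]
  fun_prop

theorem zz_norm (h : SpecM Ω x i μ r) (P : MvPolynomial (Fin 2) ℝ) :
    ‖zz Ω x i P‖ ^ 2 = ∫ z : ℝ × ℝ, (MvPolynomial.eval ![z.1, z.2] P) ^ 2 ∂(μ.prod μ) := by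
  have hc := mveval_cont P
  have h1 : inner ℂ (zz Ω x i P) (zz Ω x i P) =
      ∑ d ∈ P.support, ((P.coeff d : ℝ) : ℂ) *
        inner ℂ (ten (e Ω x i (d 0)) (e Ω x i (d 1)) : T2 Ω x) (zz Ω x i P) := by
    conv_lhs => arg 2; rw [zz]
    rw [sum_inner]
    refine Finset.sum_congr rfl fun n _ => ?_
    rw [inner_smul_left, Complex.conj_ofReal]
  simp only [inner_ten_zz h] at h1
  have h2 : inner ℂ (zz Ω x i P) (zz Ω x i P) =
      ((∫ z : ℝ × ℝ, (MvPolynomial.eval ![z.1, z.2] P) ^ 2 ∂(μ.prod μ) : ℝ) : ℂ) := by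
    have h3 : ∀ z : ℝ × ℝ, (MvPolynomial.eval ![z.1, z.2] P) ^ 2 = ∑ d ∈ P.support,
        P.coeff d * ((z.1 ^ (d 0) * z.2 ^ (d 1)) * MvPolynomial.eval ![z.1, z.2] P) := by
      intro z
      rw [sq]
      conv_lhs => arg 1; rw [MvPolynomial.eval_eq']
      rw [Finset.sum_mul]
      refine Finset.sum_congr rfl fun d _ => ?_
      rw [Fin.prod_univ_two]
      simp only [Matrix.cons_val_zero, Matrix.cons_val_one]
      ring
    simp only [h3]
    rw [h1, integral_finsetSum _ fun n _ => h.int_cont2 (by fun_prop)]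
    push_cast
    refine Finset.sum_congr rfl fun d _ => ?_
    rw [integral_const_mul]
    push_cast
    rfl
  rw [inner_self_eq_norm_sq_to_K] at h2
  apply Complex.ofReal_injective
  rw [← h2]
  push_cast
  rfl

theorem dEE_zz (h : SpecM Ω x i μ r) (Q : ℝ[X]) (P : MvPolynomial (Fin 2) ℝ) :
    inner ℂ (dEE Ω x i Q) (zz Ω x i P) =
      ((∫ z : ℝ × ℝ, dd Q z.1 z.2 * MvPolynomial.eval ![z.1, z.2] P ∂(μ.prod μ) : ℝ) : ℂ) := by
  have hc := mveval_cont P
  have h1 : ∀ n, inner ℂ (dmon Ω x i (List.replicate n i)) (zz Ω x i P) =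
      ((∫ z : ℝ × ℝ, (∑ l ∈ Finset.range n, z.1 ^ l * z.2 ^ (n - 1 - l)) *
        MvPolynomial.eval ![z.1, z.2] P ∂(μ.prod μ) : ℝ) : ℂ) := by
    intro n
    simp only [Finset.sum_mul]
    rw [dmon_rep, sum_inner, integral_finsetSum _ fun n _ => h.int_cont2 (by fun_prop)]
    push_cast
    refine Finset.sum_congr rfl fun l _ => ?_
    rw [inner_ten_zz h]
  have h2 : ∀ z : ℝ × ℝ, dd Q z.1 z.2 * MvPolynomial.eval ![z.1, z.2] P = ∑ n ∈ Q.support,
      Q.coeff n * ((∑ l ∈ Finset.range n, z.1 ^ l * z.2 ^ (n - 1 - l)) *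
        MvPolynomial.eval ![z.1, z.2] P) := by
    intro z
    unfold dd
    rw [Polynomial.sum_def, Finset.sum_mul]
    refine Finset.sum_congr rfl fun n _ => ?_
    rw [mul_assoc]
  simp only [h2]
  unfold dEE
  rw [sum_inner, integral_finsetSum _ fun n _ => h.int_cont2 (by fun_prop)]
  push_cast
  refine Finset.sum_congr rfl fun n _ => ?_
  rw [integral_const_mul, inner_smul_left, Complex.conj_ofReal, h1]
  push_cast
  rfl

theorem cc_eval (h : SpecM Ω x i μ r) (k : ℕ) (s : ℝ) :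
    (cc μ k).eval s = ∫ t, ∑ l ∈ Finset.range k, s ^ l * t ^ (k - 1 - l) ∂μ := by
  unfold cc
  rw [eval_finsetSum, integral_finsetSum _ fun n _ => h.int_cont (by fun_prop)]
  refine Finset.sum_congr rfl fun l _ => ?_
  rw [eval_mul, eval_pow, eval_X, eval_C, integral_const_mul]

theorem bb_eval (h : SpecM Ω x i μ r) (P : MvPolynomial (Fin 2) ℝ) (s : ℝ) :
    (bb μ P).eval s = ∫ t, ∑ d ∈ P.support, P.coeff d *
      (s ^ (d 0) * (∑ l ∈ Finset.range (d 1), s ^ l * t ^ (d 1 - 1 - l)) +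
        s ^ (d 1) * (∑ l ∈ Finset.range (d 0), s ^ l * t ^ (d 0 - 1 - l))) ∂μ := by
  unfold bb
  rw [eval_finsetSum, integral_finsetSum _ fun n _ => h.int_cont (by fun_prop)]
  refine Finset.sum_congr rfl fun d _ => ?_
  rw [eval_mul, eval_C, eval_add, eval_mul, eval_mul, eval_pow, eval_pow, eval_X, cc_eval h,
    cc_eval h, integral_const_mul, integral_add (h.int_cont (by fun_prop))
    (h.int_cont (by fun_prop)), integral_const_mul, integral_const_mul]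

theorem geom_dd (s t : ℝ) (n : ℕ) :
    (s - t) * ∑ l ∈ Finset.range n, s ^ l * t ^ (n - 1 - l) = s ^ n - t ^ n := by
  rw [mul_comm]
  exact (Commute.all s t).geom_sum₂_mul n

theorem bb_integrand (P : MvPolynomial (Fin 2) ℝ) (s t : ℝ) :
    (s - t) * ∑ d ∈ P.support, P.coeff d *
      (s ^ (d 0) * (∑ l ∈ Finset.range (d 1), s ^ l * t ^ (d 1 - 1 - l)) +
        s ^ (d 1) * (∑ l ∈ Finset.range (d 0), s ^ l * t ^ (d 0 - 1 - l))) =
      2 * MvPolynomial.eval ![s, s] P - MvPolynomial.eval ![s, t] P -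
        MvPolynomial.eval ![t, s] P := by
  rw [MvPolynomial.eval_eq', MvPolynomial.eval_eq', MvPolynomial.eval_eq', Finset.mul_sum,
    Finset.mul_sum, ← Finset.sum_sub_distrib, ← Finset.sum_sub_distrib]
  refine Finset.sum_congr rfl fun d _ => ?_
  simp only [Fin.prod_univ_two, Matrix.cons_val_zero, Matrix.cons_val_one]
  have h1 := geom_dd s t (d 0)
  have h2 := geom_dd s t (d 1)
  linear_combination (P.coeff d * s ^ (d 1)) * h1 + (P.coeff d * s ^ (d 0)) * h2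

end

end Pool.Agent.W663.FI
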