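import Pool.Agent.W663.FI.Calc2

set_option autoImplicit false
set_option linter.unusedSectionVars false

open Filter Topology MeasureTheory Polynomial
open scoped TensorProduct InnerProductSpace

namespace Pool.Agent.W663.FI

open Pool.Agent.Helper38.FE

variable {H : Type} [NormedAddCommGroup H] [InnerProductSpace ℂ H] [CompleteSpace H] {m : ℕ}
  {M : VonNeumannAlgebra H} {Ω : H} {x : Fin m → (H →L[ℂ] H)} {i : Fin m}

theorem mveval_aeval (f : Fin 2 → ℝ) (v : ℝ[X]) (p : MvPolynomial (Fin 2) ℝ) :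
    MvPolynomial.eval f (aeval p v) = v.eval (MvPolynomial.eval f p) := by
  have h := Polynomial.aeval_algHom_apply (MvPolynomial.aeval (R := ℝ) f) p v
  have h2 : ∀ q : MvPolynomial (Fin 2) ℝ, MvPolynomial.aeval f q = MvPolynomial.eval f q :=
    fun q => rfl
  rw [h2, h2] at h
  rw [← h]
  rfl

theorem exists_test (hM : TracialSpace M Ω) (hx : ∀ i, x i ∈ M ∧ IsSelfAdjoint (x i))
    {ξ : Fin m → H} (hξ : IsConj Ω x ξ) {μ : Measure ℝ} [IsProbabilityMeasure μ]
    (h : SpecM Ω x i μ ‖x i‖) {η : ℝ} (hη : 0 < η) :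
    ∃ v : ℝ[X], (∀ s ∈ Set.Icc (-‖x i‖) ‖x i‖, |v.eval s| ≤ 1) ∧ ∃ ζ z, Adj Ω x i ζ z ∧
      ‖z‖ ≤ 7 * ‖ξ i‖ / η ∧ ‖ζ‖ ^ 2 ≤ 4 * DD μ η ∧ DD μ η / 4 ≤ (inner ℂ (dEE Ω x i v) ζ).re := by
  set r := ‖x i‖ with hr
  set K := ‖ξ i‖ with hK
  have hF : Fisher μ r K := fisher hx hξ h
  obtain ⟨v, hv1, hv2⟩ := hF.exists_v hη
  obtain ⟨g, hg1, hg2⟩ := exists_g r h.r0 hη
  set P : MvPolynomial (Fin 2) ℝ := (aeval (MvPolynomial.X 0) v - aeval (MvPolynomial.X 1) v) *
    ((MvPolynomial.X 0 - MvPolynomial.X 1) * aeval (MvPolynomial.X 0 - MvPolynomial.X 1) g) with hP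
  have hPe : ∀ s t : ℝ, MvPolynomial.eval ![s, t] P =
      (v.eval s - v.eval t) * ((s - t) * g.eval (s - t)) := by
    intro s t
    rw [hP]
    simp only [map_mul, map_sub, mveval_aeval, MvPolynomial.eval_X, Matrix.cons_val_zero,
      Matrix.cons_val_one]
  have hst : ∀ s ∈ Set.Icc (-r) r, ∀ t ∈ Set.Icc (-r) r, |s - t| ≤ 2 * r := by
    intro s hs t ht
    rw [abs_le]
    constructor <;> linarith [hs.1, hs.2, ht.1, ht.2]
  have hv2' : ∀ s ∈ Set.Icc (-r) r, ∀ t ∈ Set.Icc (-r) r, |v.eval s - v.eval t| ≤ 2 := by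
    intro s hs t ht
    have h1 := abs_le.1 (hv1 s hs)
    have h2 := abs_le.1 (hv1 t ht)
    rw [abs_le]
    constructor <;> linarith [h1.1, h1.2, h2.1, h2.2]
  have hG : ∀ s t : ℝ, G η (s - t) = G η (t - s) := by
    intro s t
    rw [← G_neg, neg_sub]
  refine ⟨v, hv1, zz Ω x i P, _, adj_zz hM hx hξ h P, ?_, ?_, ?_⟩
  · -- the norm of z
    have h1 : ‖WW (Lop Ω x i) (Rop Ω x i) P‖ ≤ η⁻¹ := by
      refine WW_norm (Lop_sa hx i) (Rop_sa hM hx i) (LR_comm hM hx i i) (Lop_norm i)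
        (Rop_norm hM hx i) (inv_nonneg.2 hη.le) P ?_
      intro s hs t ht
      rw [hPe, abs_mul]
      have h2 := hg1 _ (hst s hs t ht)
      have h3 : |(s - t) * g.eval (s - t)| ≤ (2 * η)⁻¹ := by
        refine le_trans ?_ (xG_le hη (s - t))
        rw [abs_mul, abs_mul, abs_of_nonneg h2.1, abs_of_pos (G_pos hη _)]
        exact mul_le_mul_of_nonneg_left h2.2.1 (abs_nonneg _)
      calc |v.eval s - v.eval t| * |(s - t) * g.eval (s - t)| ≤ 2 * (2 * η)⁻¹ :=
            mul_le_mul (hv2' s hs t ht) h3 (abs_nonneg _) (by norm_num)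
        _ = η⁻¹ := by rw [mul_inv]; ring
    have h2 : ‖EE Ω x i (bb μ P)‖ ≤ 6 * K / η := by
      have hb : ∀ s ∈ Set.Icc (-r) r, |(bb μ P).eval s| ≤ 4 * uu μ η s := by
        intro s hs
        rw [bb_eval h, ← Real.norm_eq_abs]
        have h4 : 4 * uu μ η s = ∫ t, 4 * G η (t - s) ∂μ := by
          unfold uu
          rw [integral_const_mul]
        rw [h4]
        refine norm_integral_le_of_norm_le ((G_int μ hη s).const_mul _) ?_
        have h5 : ∀ᵐ t ∂μ, t ≠ s := by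
          rw [ae_iff]
          simp only [ne_eq, not_not]
          exact hF.noatom s
        filter_upwards [h.supp, h5] with t ht hts
        have h6 := bb_integrand P s t
        rw [hPe, hPe, hPe] at h6
        set I := ∑ d ∈ P.support, P.coeff d *
          (s ^ (d 0) * (∑ l ∈ Finset.range (d 1), s ^ l * t ^ (d 1 - 1 - l)) +
            s ^ (d 1) * (∑ l ∈ Finset.range (d 0), s ^ l * t ^ (d 0 - 1 - l))) with hI
        have h7 : g.eval (t - s) = g.eval (s - t) := by rw [← hg2, neg_sub]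
        have h8 : I = -2 * ((v.eval s - v.eval t) * g.eval (s - t)) := by
          have h9 : s - t ≠ 0 := sub_ne_zero.2 hts.symm
          apply mul_left_cancel₀ h9
          rw [h6, h7]
          ring
        rw [h8, Real.norm_eq_abs, abs_mul, abs_mul]
        have h10 := hg1 _ (hst s hs t ht)
        rw [abs_of_nonneg h10.1, ← hG]
        have h11 := hv2' s hs t ht
        have h12 : |(-2 : ℝ)| = 2 := by norm_num
        rw [h12]
        calc 2 * (|v.eval s - v.eval t| * g.eval (s - t)) ≤ 2 * (2 * G η (s - t)) := by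
              refine mul_le_mul_of_nonneg_left ?_ (by norm_num)
              exact mul_le_mul h11 h10.2.1 h10.1 (by norm_num)
          _ = 4 * G η (s - t) := by ring
      have h3 : ‖EE Ω x i (bb μ P)‖ ^ 2 ≤ (6 * K / η) ^ 2 := by
        rw [EE_norm h]
        have h4 : ∫ s, ((bb μ P).eval s) ^ 2 ∂μ ≤ ∫ s, 16 * uu μ η s ^ 2 ∂μ := by
          refine integral_mono_ae (h.int_cont (by fun_prop)) ((uu_sq_int μ hη).const_mul _) ?_
          filter_upwards [h.supp] with s hs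
          have h5 := hb s hs
          have h6 := uu_nonneg μ hη s
          calc ((bb μ P).eval s) ^ 2 = |(bb μ P).eval s| ^ 2 := (sq_abs _).symm
            _ ≤ (4 * uu μ η s) ^ 2 := pow_le_pow_left₀ (abs_nonneg _) h5 2
            _ = 16 * uu μ η s ^ 2 := by ring
        refine h4.trans ?_
        rw [integral_const_mul]
        have h5 := hF.uu_le hη
        have h6 : ∫ s, uu μ η s ^ 2 ∂μ ≤ 2 * K ^ 2 / η ^ 2 := by
          rw [le_div_iff₀ (by positivity)]
          linarith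
        calc 16 * ∫ s, uu μ η s ^ 2 ∂μ ≤ 16 * (2 * K ^ 2 / η ^ 2) := by linarith
          _ ≤ (6 * K / η) ^ 2 := by
            rw [div_pow, mul_pow, ← mul_div_assoc]
            refine div_le_div_of_nonneg_right ?_ (by positivity)
            nlinarith [sq_nonneg K]
      exact (sq_le_sq₀ (norm_nonneg _) (by have := hF.K0; positivity)).1 h3
    have h3 : ‖WW (Lop Ω x i) (Rop Ω x i) P ⟨ξ i, hξ.1 i⟩‖ ≤ K / η := by
      refine (ContinuousLinearMap.le_opNorm _ _).trans ?_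
      rw [div_eq_inv_mul]
      exact mul_le_mul h1 (le_of_eq rfl) (norm_nonneg _) (inv_nonneg.2 hη.le)
    refine (norm_sub_le _ _).trans ?_
    calc _ ≤ K / η + 6 * K / η := add_le_add h3 h2
      _ = 7 * K / η := by ring
  · rw [zz_norm h]
    have h1 : 4 * DD μ η = ∫ z : ℝ × ℝ, 4 * G η (z.1 - z.2) ∂(μ.prod μ) := by
      unfold DD
      rw [integral_const_mul]
    rw [h1]
    have hc := mveval_cont P
    refine integral_mono_ae (h.int_cont2 (by fun_prop)) ((G2_int hη).const_mul _) ?_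
    filter_upwards [hF.supp2] with z hz
    obtain ⟨hz1, hz2⟩ := hz
    show (MvPolynomial.eval ![z.1, z.2] P) ^ 2 ≤ 4 * G η (z.1 - z.2)
    rw [hPe]
    have h2 := hg1 _ (hst _ hz1 _ hz2)
    have h3 := hv2' _ hz1 _ hz2
    have h4 := sqG_le hη (z.1 - z.2)
    have h5 := (G_pos hη (z.1 - z.2)).le
    have h6 : (v.eval z.1 - v.eval z.2) ^ 2 ≤ 4 := by
      have := abs_le.1 h3
      nlinarith [this.1, this.2]
    have h7 : (g.eval (z.1 - z.2)) ^ 2 ≤ (G η (z.1 - z.2)) ^ 2 :=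
      pow_le_pow_left₀ h2.1 h2.2.1 2
    calc ((v.eval z.1 - v.eval z.2) * ((z.1 - z.2) * g.eval (z.1 - z.2))) ^ 2
        = (v.eval z.1 - v.eval z.2) ^ 2 * ((z.1 - z.2) ^ 2 * (g.eval (z.1 - z.2)) ^ 2) := by ring
      _ ≤ 4 * ((z.1 - z.2) ^ 2 * (G η (z.1 - z.2)) ^ 2) := by
          refine mul_le_mul h6 ?_ (by positivity) (by norm_num)
          exact mul_le_mul_of_nonneg_left h7 (sq_nonneg _)
      _ = 4 * (((z.1 - z.2) ^ 2 * G η (z.1 - z.2)) * G η (z.1 - z.2)) := by ring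
      _ ≤ 4 * (1 * G η (z.1 - z.2)) := by
          refine mul_le_mul_of_nonneg_left ?_ (by norm_num)
          exact mul_le_mul_of_nonneg_right h4 h5
      _ = 4 * G η (z.1 - z.2) := by ring
  · rw [dEE_zz h, Complex.ofReal_re]
    have hc := mveval_cont P
    have h1 : ∫ z : ℝ × ℝ, (v.eval z.1 - v.eval z.2) ^ 2 * G η (z.1 - z.2) ∂(μ.prod μ) ≤
        ∫ z : ℝ × ℝ, 2 * (dd v z.1 z.2 * MvPolynomial.eval ![z.1, z.2] P) ∂(μ.prod μ) := by
      have hd := dd_cont v
      have hGc := G_sub_cont hη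
      refine integral_mono_ae (h.int_cont2 (by fun_prop)) (h.int_cont2 (by fun_prop)) ?_
      filter_upwards [hF.supp2] with z hz
      obtain ⟨hz1, hz2⟩ := hz
      show (v.eval z.1 - v.eval z.2) ^ 2 * G η (z.1 - z.2) ≤
        2 * (dd v z.1 z.2 * MvPolynomial.eval ![z.1, z.2] P)
      have h2 := hg1 _ (hst _ hz1 _ hz2)
      rw [hPe]
      have h3 := dd_mul v z.1 z.2
      have h4 : dd v z.1 z.2 * ((v.eval z.1 - v.eval z.2) * ((z.1 - z.2) * g.eval (z.1 - z.2))) =
          (v.eval z.1 - v.eval z.2) ^ 2 * g.eval (z.1 - z.2) := by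
        rw [sq]
        conv_rhs => arg 1; arg 1; rw [← h3]
        ring
      rw [h4]
      have h5 : 0 ≤ (v.eval z.1 - v.eval z.2) ^ 2 := sq_nonneg _
      nlinarith [h2.2.2]
    rw [integral_const_mul] at h1
    linarith

theorem aeval_norm_le (hx : ∀ i, x i ∈ M ∧ IsSelfAdjoint (x i)) (v : ℝ[X])
    (hv : ∀ s ∈ Set.Icc (-‖x i‖) ‖x i‖, |v.eval s| ≤ 1) : ‖aeval (x i) v‖ ≤ 1 := by
  rw [← cfc_polynomial (R := ℝ) v (x i) (ha := (hx i).2)]
  refine norm_cfc_le zero_le_one fun s hs => ?_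
  rw [Real.norm_eq_abs]
  exact hv s (abs_le.1 (spec_sub (x i) s hs))

end Pool.Agent.W663.FI
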