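import Mathlib
import Pool.Agent.Helper38.FE.Pub

set_option autoImplicit false

open Filter Topology
open scoped TensorProduct InnerProductSpace

namespace Pool.Agent.W663.FI

open Pool.Agent.Helper38.FE

section tensor

variable (E : Type) [NormedAddCommGroup E] [InnerProductSpace ℂ E]

/-- the Hilbert space tensor product `E ⊗ E`: the completion of the algebraic tensor product of
the inner product spaces -/
def HT : Type := UniformSpace.Completion (E ⊗[ℂ] E)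

noncomputable instance : NormedAddCommGroup (HT E) :=
  inferInstanceAs (NormedAddCommGroup (UniformSpace.Completion (E ⊗[ℂ] E)))

noncomputable instance : InnerProductSpace ℂ (HT E) :=
  inferInstanceAs (InnerProductSpace ℂ (UniformSpace.Completion (E ⊗[ℂ] E)))

instance : CompleteSpace (HT E) :=
  inferInstanceAs (CompleteSpace (UniformSpace.Completion (E ⊗[ℂ] E)))

variable {E}

/-- the elementary tensor `a ⊗ b` -/
noncomputable def ten (a b : E) : HT E :=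
  ((a ⊗ₜ[ℂ] b : E ⊗[ℂ] E) : UniformSpace.Completion (E ⊗[ℂ] E))

end tensor

variable {H : Type} [NormedAddCommGroup H] [InnerProductSpace ℂ H] [CompleteSpace H] {m : ℕ}

/-- the vector `x_{w_1} ⋯ x_{w_p} Ω` as an element of `L²(N)` -/
noncomputable def vec (Ω : H) (x : Fin m → (H →L[ℂ] H)) (w : List (Fin m)) : L2 Ω x :=
  ⟨wd x w Ω, Submodule.le_topologicalClosure _ (Submodule.subset_span ⟨w, rfl⟩)⟩

/-- `L²(N) ⊗ L²(N)` -/
abbrev T2 (Ω : H) (x : Fin m → (H →L[ℂ] H)) : Type := HT (L2 Ω x)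

/-- the free difference quotient of the monomial `x_w`:
`∂_i x_w = ∑_{w = u i v} x_u ⊗ x_v` -/
noncomputable def dmon (Ω : H) (x : Fin m → (H →L[ℂ] H)) (i : Fin m) (w : List (Fin m)) :
    T2 Ω x :=
  ∑ k ∈ Finset.range w.length,
    if w[k]? = some i then ten (vec Ω x (w.take k)) (vec Ω x (w.drop (k + 1))) else 0

/-- `d` is the free difference quotient `∂_i`: the unbounded operator from `L²(N)` to
`L²(N) ⊗ L²(N)` with domain `ℂ⟨x_1, …, x_m⟩` and values `∂_i x_w` on monomials -/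
def IsDiffQuot (Ω : H) (x : Fin m → (H →L[ℂ] H)) (i : Fin m) (d : L2 Ω x →ₗ.[ℂ] T2 Ω x) : Prop :=
  d.domain = Submodule.span ℂ (Set.range (vec Ω x)) ∧ ∀ w, (vec Ω x w, dmon Ω x i w) ∈ d.graph

/-- `S` is a closed gradient `(∂_1, …, ∂_m)`: a closed operator which is defined on
`ℂ⟨x_1, …, x_m⟩` and satisfies `S u = (∂̄_1 u, …, ∂̄_m u)` on its domain.  (The smallest one is the
closure of `(∂_1, …, ∂_m)`, the largest one has the domain `⋂_i dom ∂̄_i`.) -/
def IsGradient (Ω : H) (x : Fin m → (H →L[ℂ] H)) (d : Fin m → (L2 Ω x →ₗ.[ℂ] T2 Ω x))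
    (S : L2 Ω x →ₗ.[ℂ] PiLp 2 (fun _ : Fin m => T2 Ω x)) : Prop :=
  S.IsClosed ∧ (∀ w, (vec Ω x w, WithLp.toLp 2 fun i => dmon Ω x i w) ∈ S.graph) ∧
    ∀ u k, (u, k) ∈ S.graph → ∀ i, (u, k i) ∈ (d i).closure.graph

section abstract

variable {E F : Type*} [NormedAddCommGroup E] [InnerProductSpace ℂ E] [CompleteSpace E]
  [NormedAddCommGroup F] [InnerProductSpace ℂ F]

/-- the graph of `Δ = S* S`: `S u = k` and `S* k = w` for some `k` -/
def Lap (S : E →ₗ.[ℂ] F) (u w : E) : Prop :=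
  ∃ k : F, (u, k) ∈ S.graph ∧ (k, w) ∈ S.adjoint.graph

/-- `R = (1 + Δ)⁻¹` for the operator `Δ` with graph `L` -/
structure Resolvent (L : E → E → Prop) (R : E →L[ℂ] E) : Prop where
  pos : R.IsPositive
  right : ∀ v, L (R v) (v - R v)
  left : ∀ u w, L u w → R (u + w) = u

/-- `P t`, `t > 0`, is the strongly continuous semigroup of contractions generated by `-Δ`,
where `Δ` has graph `L` -/
structure HeatSemigroup (L : E → E → Prop) (P : ℝ → E →L[ℂ] E) : Prop where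
  contr : ∀ t, 0 < t → ‖P t‖ ≤ 1
  mul : ∀ s t : ℝ, 0 < s → 0 < t → ∀ v, P (s + t) v = P s (P t v)
  cont : ∀ v, Tendsto (fun s : ℝ => P s v) (𝓝[>] 0) (𝓝 v)
  deriv : ∀ s : ℝ, 0 < s → ∀ u w, L u w →
    Tendsto (fun r : ℝ => ((r - s)⁻¹ : ℂ) • (P r u - P s u)) (𝓝[≠] s) (𝓝 (-(P s w)))

end abstract

/-- `P t → id` uniformly on the unit ball of `N = {x_1, …, x_m}''`, in the 2-norm -/
def UniformOnBall (Ω : H) (x : Fin m → (H →L[ℂ] H)) (P : ℝ → (L2 Ω x →L[ℂ] L2 Ω x)) : Prop :=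
  ∀ ε : ℝ, 0 < ε → ∃ δ : ℝ, 0 < δ ∧ ∀ t : ℝ, 0 < t → t < δ →
    ∀ y ∈ Set.centralizer (Set.centralizer (Set.range x)), ‖y‖ ≤ 1 →
      ∀ v : L2 Ω x, (v : H) = y Ω → ‖P t v - v‖ < ε

end Pool.Agent.W663.FI
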