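import Pool.Agent.W663.FI.Main

set_option autoImplicit false

open Filter Topology
open scoped TensorProduct InnerProductSpace

namespace Pool.Agent.W663.FI

open Pool.Agent.Helper38.FE

section generic

variable {E F W : Type} [NormedAddCommGroup E] [InnerProductSpace ℂ E] [CompleteSpace E]
  [NormedAddCommGroup F] [InnerProductSpace ℂ F] {m : ℕ}

/-- `d` is the unbounded operator `E → F` with domain the linear span of the vectors `vec w`
(`w` a monomial) and values `d (vec w) = dm w` -/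
def IsMonomialMap (vec : W → E) (dm : W → F) (d : E →ₗ.[ℂ] F) : Prop :=
  d.domain = Submodule.span ℂ (Set.range vec) ∧ ∀ w, (vec w, dm w) ∈ d.graph

/-- `S` is a closed gradient `(d_1, …, d_m)`: a closed operator, defined on all monomials, with
`S u = (d̄_1 u, …, d̄_m u)` on its domain, where `d̄_i` is the closure of `d_i`.  (The smallest one
is the closure of `(d_1, …, d_m)`, the largest one has the domain `⋂_i dom d̄_i`.) -/
def IsClosedGradient (vec : W → E) (dm : Fin m → W → F) (d : Fin m → (E →ₗ.[ℂ] F))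
    (S : E →ₗ.[ℂ] PiLp 2 (fun _ : Fin m => F)) : Prop :=
  S.IsClosed ∧ (∀ w, (vec w, WithLp.toLp 2 fun i => dm i w) ∈ S.graph) ∧
    ∀ u k, (u, k) ∈ S.graph → ∀ i, (u, k i) ∈ (d i).closure.graph

/-- `P t v → v` as `t → 0`, uniformly for `v ∈ B` -/
def UniformOn (B : Set E) (P : ℝ → (E →L[ℂ] E)) : Prop :=
  ∀ ε : ℝ, 0 < ε → ∃ δ : ℝ, 0 < δ ∧ ∀ t : ℝ, 0 < t → t < δ → ∀ v ∈ B, ‖P t v - v‖ < ε

/-- for every `t ∈ (0, 1]` some `v ∈ B` is moved by `P t` by at least `c > 0` -/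
def MovedBy (B : Set E) (P : ℝ → (E →L[ℂ] E)) (c : ℝ) : Prop :=
  0 < c ∧ ∀ t : ℝ, 0 < t → t ≤ 1 → ∃ v ∈ B, c ≤ ‖P t v - v‖

/-- The operators `d_i` given by `vec w ↦ dm i w` on the linear span of the vectors `vec w` are
well defined and closable, there is a closed gradient, and for every closed gradient `S` the
operator `Δ = S* S` has a resolvent `R = (1 + Δ)⁻¹`, generates the heat semigroup
`e^{-tΔ} = heat R t`, and this semigroup does not converge to the identity uniformly on `B`; it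
moves some element of `B` by at least `c i > 0`, for every `i` and every `t ∈ (0, 1]`. -/
def HeatNotUniform (vec : W → E) (dm : Fin m → W → F) (B : Set E) (c : Fin m → ℝ) : Prop :=
  ∃ d : Fin m → (E →ₗ.[ℂ] F),
    (∀ i, IsMonomialMap vec (dm i) (d i) ∧ (d i).IsClosable) ∧
    (∃ S, IsClosedGradient vec dm d S) ∧
    ∀ S, IsClosedGradient vec dm d S → ∃ R : E →L[ℂ] E,
      Resolvent (Lap S) R ∧ HeatSemigroup (Lap S) (Pool.Agent.Helper228.OP.heat R) ∧
      (∀ i, MovedBy B (Pool.Agent.Helper228.OP.heat R) (c i)) ∧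
      ¬ UniformOn B (Pool.Agent.Helper228.OP.heat R)

end generic

variable {H : Type} [NormedAddCommGroup H] [InnerProductSpace ℂ H] [CompleteSpace H] {m : ℕ}
  {M : VonNeumannAlgebra H} {Ω : H} {x : Fin m → (H →L[ℂ] H)}

/-- the unit ball of `N = {x_1, …, x_m}''`, as a subset of `L²(N)` -/
def opBall (Ω : H) (x : Fin m → (H →L[ℂ] H)) : Set (L2 Ω x) :=
  {v | ∃ y ∈ Set.centralizer (Set.centralizer (Set.range x)), ‖y‖ ≤ 1 ∧ (v : H) = y Ω}

/-- the free difference quotient of the monomial `x_w` in `L²(N) ⊗ L²(N)`, the Hilbert space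
completion of the algebraic tensor product: `∂_i x_w = ∑_{w = u i v} x_u ⊗ x_v` -/
noncomputable def freeDQ (Ω : H) (x : Fin m → (H →L[ℂ] H)) (i : Fin m) (w : List (Fin m)) :
    UniformSpace.Completion (L2 Ω x ⊗[ℂ] L2 Ω x) :=
  ∑ k ∈ Finset.range w.length,
    if w[k]? = some i then
      ((vec Ω x (w.take k) ⊗ₜ[ℂ] vec Ω x (w.drop (k + 1)) : L2 Ω x ⊗[ℂ] L2 Ω x) :
        UniformSpace.Completion (L2 Ω x ⊗[ℂ] L2 Ω x)) else 0

theorem heat_not_uniform' (hM : TracialSpace M Ω) (hm : 0 < m)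
    (hx : ∀ i, x i ∈ M ∧ IsSelfAdjoint (x i)) {ξ : Fin m → H} (hξ : IsConj Ω x ξ) :
    HeatNotUniform (vec Ω x) (dmon Ω x) (opBall Ω x)
      (fun i => 1 / (112 * ‖ξ i‖ * (2 * ‖x i‖ + 1))) := by
  obtain ⟨d, hd, hS, h⟩ := never_uniform hM hm hx hξ
  refine ⟨d, hd, hS, fun S hS => ?_⟩
  obtain ⟨R, hR, hh, hb, hu⟩ := h S hS
  refine ⟨R, hR, hh, fun i => ⟨?_, fun t ht ht1 => ?_⟩, fun hU => hu fun ε hε => ?_⟩
  · obtain ⟨_, _, _, _, _, hK, _⟩ := hb i 1 one_pos le_rfl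
    have : 0 < 2 * ‖x i‖ + 1 := by positivity
    exact one_div_pos.2 (mul_pos (mul_pos (by norm_num) hK) this)
  · obtain ⟨y, hy, hy1, u, hu1, _, hb'⟩ := hb i t ht ht1
    exact ⟨u, ⟨y, hy, hy1, hu1⟩, hb'⟩
  · obtain ⟨δ, hδ, hδ2⟩ := hU ε hε
    exact ⟨δ, hδ, fun t ht ht1 y hy hy1 v hv => hδ2 t ht ht1 v ⟨y, hy, hy1, hv⟩⟩

theorem heat_not_uniform (hM : TracialSpace M Ω) (hm : 0 < m)
    (hx : ∀ i, x i ∈ M ∧ IsSelfAdjoint (x i)) {ξ : Fin m → H} (hξ : IsConj Ω x ξ) :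
    HeatNotUniform (F := UniformSpace.Completion (L2 Ω x ⊗[ℂ] L2 Ω x)) (vec Ω x) (freeDQ Ω x)
      (opBall Ω x) (fun i => 1 / (112 * ‖ξ i‖ * (2 * ‖x i‖ + 1))) :=
  heat_not_uniform' hM hm hx hξ

end Pool.Agent.W663.FI
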