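import Pool.Agent.W663.FI.Defs
import Pool.Agent.Helper228.OP.P_abs_resolvent
import Pool.Agent.Helper228.OP.P_heat_mul
import Pool.Agent.Helper228.OP.P_heat_strong
import Pool.Agent.Helper228.OP.P_heat_deriv
import Pool.Agent.Helper228.OP.P_resolvent_range

set_option autoImplicit false
set_option linter.unusedSectionVars false

open Filter Topology
open scoped InnerProductSpace

namespace Pool.Agent.W663.FI

open Pool.Agent.Helper228.OP

variable {E F : Type*} [NormedAddCommGroup E] [InnerProductSpace ℂ E] [CompleteSpace E]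
  [NormedAddCommGroup F] [InnerProductSpace ℂ F] [CompleteSpace F]

theorem closure_eq_of_closed {S : E →ₗ.[ℂ] F} (hc : S.IsClosed) : S.closure = S := by
  apply LinearPMap.eq_of_eq_graph
  rw [← hc.isClosable.graph_closure_eq_closure_graph]
  exact hc.submodule_topologicalClosure_eq

theorem lap_iff {S : E →ₗ.[ℂ] F} (hc : S.IsClosed) (u w : E) : IsLap S u w ↔ Lap S u w := by
  have hcl := closure_eq_of_closed hc
  unfold IsLap Lap
  constructor
  · rintro ⟨hu, hk, hw⟩
    have h1 := S.closure.mem_graph ⟨u, hu⟩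
    have hg : S.closure.graph = S.graph := by rw [hcl]
    refine ⟨S.closure ⟨u, hu⟩, ?_, ?_⟩
    · rw [← hg]
      exact h1
    · have h2 := S.adjoint.mem_graph ⟨_, hk⟩
      rw [hw] at h2
      exact h2
  · rintro ⟨k, h1, h2⟩
    rw [← hcl] at h1
    obtain ⟨y, hy1, hy2⟩ := (LinearPMap.mem_graph_iff _).1 h1
    obtain ⟨z, hz1, hz2⟩ := (LinearPMap.mem_graph_iff _).1 h2
    have hu : u ∈ S.closure.domain := by
      have h3 : (y : E) = u := hy1
      rw [← h3]; exact y.2
    have hyu : (⟨u, hu⟩ : S.closure.domain) = y := Subtype.ext hy1.symm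
    have hk : S.closure ⟨u, hu⟩ ∈ S.adjoint.domain := by
      rw [hyu, hy2]
      have h3 : (z : F) = k := hz1
      rw [← h3]; exact z.2
    refine ⟨hu, hk, ?_⟩
    have hz2' : S.adjoint z = w := hz2
    rw [← hz2']
    congr 1
    apply Subtype.ext
    show S.closure ⟨u, hu⟩ = z
    rw [hyu, hy2]
    exact hz1.symm

theorem exists_resolvent {S : E →ₗ.[ℂ] F} (hd : Dense (S.domain : Set E)) (hc : S.IsClosed) :
    ∃ R : E →L[ℂ] E, Resolvent (Lap S) R ∧ ‖R‖ ≤ 1 ∧ DenseRange R := by
  obtain ⟨R, hR, h1, _⟩ := abs_resolvent S hd hc.isClosable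
  refine ⟨R, ⟨hR.pos, fun v => (lap_iff hc _ _).1 (hR.right v), fun u w h =>
    hR.left u w ((lap_iff hc _ _).2 h)⟩, h1, resolvent_range S R hR⟩

theorem resolvent_unique' {L : E → E → Prop} {R R' : E →L[ℂ] E} (h : Resolvent L R)
    (h' : Resolvent L R') : R = R' := by
  ext v
  have h1 := h'.left _ _ (h.right v)
  rw [add_sub_cancel] at h1
  exact h1.symm

theorem heat_semigroup {L : E → E → Prop} {R : E →L[ℂ] E} (h : Resolvent L R) (h1 : ‖R‖ ≤ 1)
    (hd : DenseRange R) : HeatSemigroup L (heat R) where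
  contr t ht := (heat_mul R h.pos h1 t 1 ht one_pos).2.1
  mul s t hs ht v := by
    rw [(heat_mul R h.pos h1 s t hs ht).1]; rfl
  cont v := heat_strong R h.pos h1 hd v
  deriv s hs u w hL := by
    have h2 := heat_deriv R h.pos h1 s hs (u + w)
    rw [h.left u w hL, add_sub_cancel_left] at h2
    have h3 := h2.tendsto_slope
    refine h3.congr fun r => ?_
    rw [slope_def_module]
    have h4 := RCLike.real_smul_eq_coe_smul (K := ℂ) (r - s)⁻¹ (heat R r u - heat R s u)
    rw [h4]
    push_cast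
    rfl

/-- `heatFun t x / x` -/
theorem phi_cont (t : ℝ) (ht : 0 < t) : Continuous fun x : ℝ => heatFun t x / x := by
  rw [continuous_iff_continuousAt]
  intro x
  by_cases hx : x = 0
  · subst hx
    show Tendsto (fun x => heatFun t x / x) (𝓝 0) (𝓝 (heatFun t 0 / 0))
    rw [div_zero]
    have h0 : heatFun (t / 2) 0 = 0 := by
      unfold heatFun
      rw [if_neg (lt_irrefl _)]
    have hb : ∀ x, ‖heatFun t x / x‖ ≤ Real.exp (t / 2) / (t / 2) * |heatFun (t / 2) x| := by
      intro x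
      have h1 : heatFun t x = heatFun (t / 2) x * heatFun (t / 2) x := by
        unfold heatFun
        split_ifs
        · rw [← Real.exp_add]
          congr 1
          ring
        · simp
      rw [h1, Real.norm_eq_abs, abs_div, abs_mul]
      have h2 := j22656_bound (t / 2) (by positivity) x
      by_cases hx0 : x = 0
      · subst hx0
        simp only [abs_zero, div_zero]
        positivity
      · have h3 : 0 < |x| := abs_pos.2 hx0
        rw [div_le_iff₀ h3]
        calc |heatFun (t / 2) x| * |heatFun (t / 2) x| ≤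
            |heatFun (t / 2) x| * (Real.exp (t / 2) / (t / 2) * |x|) :=
              mul_le_mul_of_nonneg_left h2 (abs_nonneg _)
          _ = _ := by ring
    refine squeeze_zero_norm hb ?_
    have hc : Continuous fun x => Real.exp (t / 2) / (t / 2) * |heatFun (t / 2) x| := by
      have := j22656_cont (t / 2) (by positivity)
      fun_prop
    have h2 := hc.tendsto 0
    rw [h0, abs_zero, mul_zero] at h2
    exact h2
  · exact ((j22656_cont t ht).continuousAt).div continuousAt_id hx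

theorem energy {S : E →ₗ.[ℂ] F} (hd : Dense (S.domain : Set E)) {R : E →L[ℂ] E}
    (h : Resolvent (Lap S) R) (h1 : ‖R‖ ≤ 1) {t : ℝ} (ht : 0 < t) (u : E) :
    ∃ k, (heat R t u, k) ∈ S.graph ∧ ‖k‖ ^ 2 ≤ ‖u‖ ^ 2 / t := by
  have hsa : IsSelfAdjoint R := h.pos.isSelfAdjoint
  have hnn : 0 ≤ R := (ContinuousLinearMap.nonneg_iff_isPositive R).2 h.pos
  have hspec0 : ∀ t ∈ spectrum ℝ R, 0 ≤ t := fun t ht => spectrum_nonneg_of_nonneg hnn ht
  have hspec1 : ∀ t ∈ spectrum ℝ R, t ≤ 1 := by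
    intro t ht
    have h2 := spectrum.norm_le_norm_mul_of_mem ht
    have h3 : ‖(1 : E →L[ℂ] E)‖ ≤ 1 := ContinuousLinearMap.norm_id_le
    have h4 : ‖R‖ * ‖(1 : E →L[ℂ] E)‖ ≤ 1 := mul_le_one₀ h1 (norm_nonneg _) h3
    exact (le_abs_self t).trans (h2.trans h4)
  have hc1 := phi_cont t ht
  have hc2 := j22656_cont t ht
  set Q : E →L[ℂ] E := cfc (fun x : ℝ => heatFun t x / x) R with hQ
  have h0 : heatFun t 0 = 0 := by
    unfold heatFun
    rw [if_neg (lt_irrefl _)]
  have hRQ : heat R t = R * Q := by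
    have h3 : R = cfc (fun x : ℝ => x) R := (cfc_id' ℝ R).symm
    conv_rhs => arg 1; rw [h3]
    rw [hQ, ← cfc_mul (fun x : ℝ => x) (fun x : ℝ => heatFun t x / x) R (by fun_prop)
      hc1.continuousOn]
    unfold heat
    congr 1
    ext x
    by_cases hx : x = 0
    · subst hx; rw [h0]; simp
    · field_simp
  have hdiff : ‖Q - heat R t‖ ≤ t⁻¹ := by
    unfold heat
    rw [hQ, ← cfc_sub (fun x : ℝ => heatFun t x / x) (heatFun t) R hc1.continuousOn
      hc2.continuousOn]
    refine norm_cfc_le (by positivity) fun x hx => ?_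
    rw [Real.norm_eq_abs]
    rcases (hspec0 x hx).eq_or_lt with h3 | h3
    · rw [← h3, h0]
      simp only [div_zero, sub_zero, abs_zero]
      positivity
    · have h4 := hspec1 x hx
      unfold heatFun
      rw [if_pos h3]
      have h5 : 0 ≤ 1 / x - 1 := by
        rw [sub_nonneg, le_div_iff₀ h3]; linarith
      set l := 1 / x - 1 with hl
      have h6 : Real.exp (-t * l) / x - Real.exp (-t * l) = l * Real.exp (-t * l) := by
        rw [hl]; ring
      rw [h6, abs_of_nonneg (by positivity)]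
      have h7 : t * l ≤ Real.exp (t * l) := by linarith [Real.add_one_le_exp (t * l)]
      have h8 : Real.exp (t * l) * Real.exp (-t * l) = 1 := by
        rw [← Real.exp_add]
        simp
      have h9 : 0 < Real.exp (-t * l) := Real.exp_pos _
      rw [← one_div, le_div_iff₀ ht]
      calc l * Real.exp (-t * l) * t = (t * l) * Real.exp (-t * l) := by ring
        _ ≤ Real.exp (t * l) * Real.exp (-t * l) := mul_le_mul_of_nonneg_right h7 h9.le
        _ = 1 := h8
  have hcontr : ‖heat R t‖ ≤ 1 := (heat_mul R h.pos h1 t 1 ht one_pos).2.1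
  obtain ⟨k, hk1, hk2⟩ := h.right (Q u)
  have e1 : R (Q u) = heat R t u := by rw [hRQ]; rfl
  rw [e1] at hk1 hk2
  refine ⟨k, hk1, ?_⟩
  obtain ⟨y, hy1, hy2⟩ := (LinearPMap.mem_graph_iff _).1 hk1
  obtain ⟨z, hz1, hz2⟩ := (LinearPMap.mem_graph_iff _).1 hk2
  have h3 := LinearPMap.adjoint_isFormalAdjoint hd z y
  have h4 : inner ℂ (Q u - heat R t u) (heat R t u) = inner ℂ k k := by
    have hz1' : (z : F) = k := hz1
    have hy1' : (y : E) = heat R t u := hy1
    have hz2' : S.adjoint z = Q u - heat R t u := hz2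
    have hy2' : S y = k := hy2
    rw [hz1', hy1', hz2', hy2'] at h3
    exact h3
  have h5 : ‖k‖ ^ 2 ≤ ‖Q u - heat R t u‖ * ‖heat R t u‖ := by
    have h6 := norm_inner_le_norm (𝕜 := ℂ) (Q u - heat R t u) (heat R t u)
    rw [h4, inner_self_eq_norm_sq_to_K] at h6
    simpa using h6
  have h6 : ‖Q u - heat R t u‖ ≤ t⁻¹ * ‖u‖ := by
    have h7 := (Q - heat R t).le_opNorm u
    exact h7.trans (mul_le_mul_of_nonneg_right hdiff (norm_nonneg _))
  have h7 : ‖heat R t u‖ ≤ ‖u‖ := by
    have h8 := (heat R t).le_opNorm u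
    exact h8.trans (mul_le_of_le_one_left (norm_nonneg _) hcontr)
  calc ‖k‖ ^ 2 ≤ ‖Q u - heat R t u‖ * ‖heat R t u‖ := h5
    _ ≤ (t⁻¹ * ‖u‖) * ‖u‖ := mul_le_mul h6 h7 (norm_nonneg _) (by positivity)
    _ = ‖u‖ ^ 2 / t := by rw [div_eq_inv_mul]; ring

section pi

variable {E F : Type} [NormedAddCommGroup E] [InnerProductSpace ℂ E] [CompleteSpace E]
    [NormedAddCommGroup F] [InnerProductSpace ℂ F] [CompleteSpace F] {m : ℕ}
    {S : E →ₗ.[ℂ] PiLp 2 (fun _ : Fin m => F)}

theorem energy_pi (hd : Dense (S.domain : Set E)) {R : E →L[ℂ] E}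
    (h : Resolvent (Lap S) R) (h1 : ‖R‖ ≤ 1) {t : ℝ} (ht : 0 < t) (u : E) :
    ∃ k, (heat R t u, k) ∈ S.graph ∧ ∀ i, ‖k i‖ ^ 2 ≤ ‖u‖ ^ 2 / t := by
  obtain ⟨k, hk1, hk2⟩ := energy hd h h1 ht u
  exact ⟨k, hk1, fun i => (pow_le_pow_left₀ (norm_nonneg _) (PiLp.norm_apply_le k i) 2).trans hk2⟩

theorem exists_resolvent_pi (hd : Dense (S.domain : Set E)) (hc : S.IsClosed) :
    ∃ R : E →L[ℂ] E, Resolvent (Lap S) R ∧ ‖R‖ ≤ 1 ∧ DenseRange R :=
  exists_resolvent hd hc

end pi

end Pool.Agent.W663.FI
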