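import Pool.Agent.W663.FI.Calc3
import Pool.Agent.W663.FI.Op

set_option autoImplicit false
set_option linter.unusedSectionVars false

open Filter Topology
open scoped TensorProduct InnerProductSpace

namespace Pool.Agent.W663.FI

open Pool.Agent.Helper38.FE

variable {H : Type} [NormedAddCommGroup H] [InnerProductSpace ℂ H] [CompleteSpace H] {m : ℕ}
  {M : VonNeumannAlgebra H} {Ω : H} {x : Fin m → (H →L[ℂ] H)}

/-- graph of the free difference quotient on polynomials -/
noncomputable def G0 (Ω : H) (x : Fin m → (H →L[ℂ] H)) (i : Fin m) :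
    Submodule ℂ (L2 Ω x × T2 Ω x) :=
  Submodule.span ℂ (Set.range fun w => (vec Ω x w, dmon Ω x i w))

theorem G0_rel {i : Fin m} {ζ : T2 Ω x} {z : L2 Ω x} (h : Adj Ω x i ζ z)
    (p : L2 Ω x × T2 Ω x) (hp : p ∈ (G0 Ω x i).topologicalClosure) :
    inner ℂ p.2 ζ = inner ℂ p.1 z := by
  have hc : IsClosed {p : L2 Ω x × T2 Ω x | inner ℂ p.2 ζ = inner ℂ p.1 z} :=
    isClosed_eq (by fun_prop) (by fun_prop)
  have h1 : (G0 Ω x i : Set (L2 Ω x × T2 Ω x)) ⊆
      {p : L2 Ω x × T2 Ω x | inner ℂ p.2 ζ = inner ℂ p.1 z} := by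
    intro p hp
    have hp' : p ∈ G0 Ω x i := hp
    unfold G0 at hp'
    induction hp' using Submodule.span_induction with
    | mem q hq => obtain ⟨w, rfl⟩ := hq; exact h w
    | zero =>
      show inner ℂ (0 : T2 Ω x) ζ = inner ℂ (0 : L2 Ω x) z
      rw [inner_zero_left, inner_zero_left]
    | add a b ha hb iha ihb =>
      have ha' := iha ha
      have hb' := ihb hb
      show inner ℂ (a.2 + b.2) ζ = inner ℂ (a.1 + b.1) z
      rw [inner_add_left, inner_add_left]
      have h2 : inner ℂ a.2 ζ = inner ℂ a.1 z := ha'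
      have h3 : inner ℂ b.2 ζ = inner ℂ b.1 z := hb'
      rw [h2, h3]
    | smul c a ha iha =>
      have h2 : inner ℂ a.2 ζ = inner ℂ a.1 z := iha ha
      show inner ℂ (c • a.2) ζ = inner ℂ (c • a.1) z
      rw [inner_smul_left, inner_smul_left, h2]
  exact closure_minimal h1 hc hp

theorem G0_zero (hM : TracialSpace M Ω) (hx : ∀ i, x i ∈ M ∧ IsSelfAdjoint (x i))
    {ξ : Fin m → H} (hξ : IsConj Ω x ξ) (i : Fin m)
    (p : L2 Ω x × T2 Ω x) (hp : p ∈ (G0 Ω x i).topologicalClosure) (h0 : p.1 = 0) : p.2 = 0 := by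
  refine eq_zero_of_adj hM hx hξ i fun ζ z h => ?_
  rw [G0_rel h p hp, h0, inner_zero_left]

theorem exists_d (hM : TracialSpace M Ω) (hx : ∀ i, x i ∈ M ∧ IsSelfAdjoint (x i))
    {ξ : Fin m → H} (hξ : IsConj Ω x ξ) (i : Fin m) :
    ∃ d : L2 Ω x →ₗ.[ℂ] T2 Ω x, IsDiffQuot Ω x i d ∧ d.IsClosable ∧
      d.closure.graph = (G0 Ω x i).topologicalClosure := by
  have h1 : ∀ p ∈ G0 Ω x i, p.1 = 0 → p.2 = 0 := fun p hp =>
    G0_zero hM hx hξ i p (Submodule.le_topologicalClosure _ hp)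
  have h2 := G0_zero hM hx hξ i
  set d := (G0 Ω x i).toLinearPMap with hd
  have hg : d.graph = G0 Ω x i := Submodule.toLinearPMap_graph_eq _ h1
  have hcl : d.IsClosable := by
    refine ⟨(G0 Ω x i).topologicalClosure.toLinearPMap, ?_⟩
    rw [hg, Submodule.toLinearPMap_graph_eq _ h2]
  refine ⟨d, ⟨?_, fun w => ?_⟩, hcl, ?_⟩
  · rw [hd, Submodule.toLinearPMap_domain]
    unfold G0
    rw [Submodule.map_span, ← Set.range_comp]
    rfl
  · rw [hg]
    exact Submodule.subset_span ⟨w, rfl⟩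
  · rw [← hcl.graph_closure_eq_closure_graph, hg]

/-- graph of the gradient on polynomials -/
noncomputable def GS (Ω : H) (x : Fin m → (H →L[ℂ] H)) :
    Submodule ℂ (L2 Ω x × PiLp 2 (fun _ : Fin m => T2 Ω x)) :=
  Submodule.span ℂ (Set.range fun w =>
    (vec Ω x w, (WithLp.toLp 2 fun i => dmon Ω x i w : PiLp 2 (fun _ : Fin m => T2 Ω x))))

theorem GS_proj (i : Fin m) (p : L2 Ω x × PiLp 2 (fun _ : Fin m => T2 Ω x))
    (hp : p ∈ (GS Ω x).topologicalClosure) : (p.1, p.2 i) ∈ (G0 Ω x i).topologicalClosure := by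
  have hcont : Continuous fun p : L2 Ω x × PiLp 2 (fun _ : Fin m => T2 Ω x) => (p.1, p.2 i) := by
    fun_prop
  have hc : IsClosed {p : L2 Ω x × PiLp 2 (fun _ : Fin m => T2 Ω x) |
      (p.1, p.2 i) ∈ (G0 Ω x i).topologicalClosure} :=
    (Submodule.isClosed_topologicalClosure (G0 Ω x i)).preimage hcont
  have h1 : (GS Ω x : Set _) ⊆ {p : L2 Ω x × PiLp 2 (fun _ : Fin m => T2 Ω x) |
      (p.1, p.2 i) ∈ (G0 Ω x i).topologicalClosure} := by
    intro p hp
    have hp' : p ∈ GS Ω x := hp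
    unfold GS at hp'
    induction hp' using Submodule.span_induction with
    | mem q hq =>
      obtain ⟨w, rfl⟩ := hq
      exact Submodule.le_topologicalClosure _ (Submodule.subset_span ⟨w, rfl⟩)
    | zero => exact Submodule.zero_mem (G0 Ω x i).topologicalClosure
    | add a b ha hb iha ihb =>
      have h2 : (a.1, a.2 i) ∈ (G0 Ω x i).topologicalClosure := iha ha
      have h3 : (b.1, b.2 i) ∈ (G0 Ω x i).topologicalClosure := ihb hb
      exact Submodule.add_mem (G0 Ω x i).topologicalClosure h2 h3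
    | smul c a ha iha =>
      have h2 : (a.1, a.2 i) ∈ (G0 Ω x i).topologicalClosure := iha ha
      exact Submodule.smul_mem (G0 Ω x i).topologicalClosure c h2
  exact closure_minimal h1 hc hp

theorem exists_grad (hM : TracialSpace M Ω) (hx : ∀ i, x i ∈ M ∧ IsSelfAdjoint (x i))
    {ξ : Fin m → H} (hξ : IsConj Ω x ξ) {d : Fin m → (L2 Ω x →ₗ.[ℂ] T2 Ω x)}
    (hd : ∀ i, (d i).closure.graph = (G0 Ω x i).topologicalClosure) :
    ∃ S, IsGradient Ω x d S := by
  have h1 : ∀ p ∈ (GS Ω x).topologicalClosure, p.1 = 0 → p.2 = 0 := by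
    intro p hp h0
    ext i
    exact G0_zero hM hx hξ i _ (GS_proj i p hp) h0
  set S := (GS Ω x).topologicalClosure.toLinearPMap with hS
  have hg : S.graph = (GS Ω x).topologicalClosure := Submodule.toLinearPMap_graph_eq _ h1
  refine ⟨S, ?_, fun w => ?_, fun u k huk i => ?_⟩
  · unfold LinearPMap.IsClosed
    rw [hg]
    exact Submodule.isClosed_topologicalClosure _
  · rw [hg]
    exact Submodule.le_topologicalClosure _ (Submodule.subset_span ⟨w, rfl⟩)
  · rw [hg] at huk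
    rw [hd i]
    exact GS_proj i (u, k) huk

theorem grad_dense {d : Fin m → (L2 Ω x →ₗ.[ℂ] T2 Ω x)}
    {S : L2 Ω x →ₗ.[ℂ] PiLp 2 (fun _ : Fin m => T2 Ω x)} (hS : IsGradient Ω x d S) :
    Dense (S.domain : Set (L2 Ω x)) := by
  refine (span_dense (Ω := Ω) (x := x)).mono ?_
  have h1 : Submodule.span ℂ (Set.range (vec Ω x)) ≤ S.domain := by
    rw [Submodule.span_le]
    rintro _ ⟨w, rfl⟩
    exact LinearPMap.mem_domain_of_mem_graph (hS.2.1 w)
  exact h1

theorem adj_dEE {i : Fin m} {ζ : T2 Ω x} {z : L2 Ω x} (h : Adj Ω x i ζ z) (P : Polynomial ℝ) :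
    inner ℂ (dEE Ω x i P) ζ = inner ℂ (EE Ω x i P) z := by
  unfold dEE EE
  rw [sum_inner, sum_inner]
  refine Finset.sum_congr rfl fun n _ => ?_
  rw [inner_smul_left, inner_smul_left, h]
  rfl


end Pool.Agent.W663.FI
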