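import Pool.Agent.W663.FI.Grad

set_option autoImplicit false
set_option linter.unusedSectionVars false

open Filter Topology
open scoped TensorProduct InnerProductSpace

namespace Pool.Agent.W663.FI

open Pool.Agent.Helper38.FE

variable {H : Type} [NormedAddCommGroup H] [InnerProductSpace ℂ H] [CompleteSpace H] {m : ℕ}
  {M : VonNeumannAlgebra H} {Ω : H} {x : Fin m → (H →L[ℂ] H)}

/-- the main estimate -/
theorem main_bound (hM : TracialSpace M Ω) (hx : ∀ i, x i ∈ M ∧ IsSelfAdjoint (x i))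
    {ξ : Fin m → H} (hξ : IsConj Ω x ξ) {d : Fin m → (L2 Ω x →ₗ.[ℂ] T2 Ω x)}
    (hd : ∀ i, (d i).closure.graph = (G0 Ω x i).topologicalClosure)
    {S : L2 Ω x →ₗ.[ℂ] PiLp 2 (fun _ : Fin m => T2 Ω x)} (hS : IsGradient Ω x d S)
    {R : L2 Ω x →L[ℂ] L2 Ω x} (hR : Resolvent (Lap S) R) (hR1 : ‖R‖ ≤ 1) (i : Fin m)
    {t : ℝ} (ht : 0 < t) (ht1 : t ≤ 1) :
    0 < ‖ξ i‖ ∧ ∃ v : Polynomial ℝ, ‖Polynomial.aeval (x i) v‖ ≤ 1 ∧
      1 / (112 * ‖ξ i‖ * (2 * ‖x i‖ + 1)) ≤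
        ‖Pool.Agent.Helper228.OP.heat R t (EE Ω x i v) - EE Ω x i v‖ := by
  obtain ⟨μ, hprob, hμ⟩ := exists_specM hM hx i
  set r := ‖x i‖ with hr
  set K := ‖ξ i‖ with hK
  have hr0 : 0 ≤ r := norm_nonneg _
  have hK0 : 0 ≤ K := norm_nonneg _
  set η : ℝ := t / (512 * (2 * r + 1)) with hη
  have hη0 : 0 < η := by positivity
  have hη1 : η ≤ 1 := by
    rw [hη, div_le_one (by positivity)]
    nlinarith
  obtain ⟨v, hv, ζ, z, hadj, hz, hζ, hre⟩ := exists_test hM hx hξ hμ hη0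
  have hvn : ‖Polynomial.aeval (x i) v‖ ≤ 1 := aeval_norm_le hx v hv
  have hF : Fisher μ r K := fisher hx hξ hμ
  have hDD := hF.le_DD hη0
  have hDDp := hF.DD_pos hη0
  set D := DD μ η with hD
  set u : L2 Ω x := EE Ω x i v with hu
  have hun : ‖u‖ ≤ 1 := by
    show ‖(u : H)‖ ≤ 1
    rw [hu, EE_coe]
    refine ((Polynomial.aeval (x i) v).le_opNorm Ω).trans ?_
    rw [hM.norm_one, mul_one]
    exact hvn
  obtain ⟨k, hk1, hk2⟩ := energy_pi (F := T2 Ω x) (grad_dense hS) hR hR1 ht u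
  set w := Pool.Agent.Helper228.OP.heat R t u with hw
  have h1 : inner ℂ (k i) ζ = inner ℂ w z := by
    have h2 := hS.2.2 _ _ hk1 i
    rw [hd i] at h2
    exact G0_rel hadj _ h2
  have h2 : inner ℂ (dEE Ω x i v) ζ = inner ℂ u z := adj_dEE hadj v
  -- D is large
  have hD1 : 256 / t ≤ D := by
    have h3 : 2 * η * (2 * r + η) ≤ 2 * η * (2 * r + 1) := by
      apply mul_le_mul_of_nonneg_left _ (by positivity)
      linarith
    have h4 : 1 ≤ (2 * η * (2 * r + 1)) * D := hDD.trans (mul_le_mul_of_nonneg_right h3 hDDp.le)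
    have h5 : 2 * η * (2 * r + 1) = t / 256 := by
      rw [hη]
      field_simp
      norm_num
    rw [h5] at h4
    rw [div_le_iff₀ ht]
    linarith
  have hkζ : ‖k i‖ * ‖ζ‖ ≤ D / 8 := by
    have h3 : (‖k i‖ * ‖ζ‖) ^ 2 ≤ (D / 8) ^ 2 := by
      have h4 : ‖k i‖ ^ 2 ≤ 1 / t := by
        calc ‖k i‖ ^ 2 ≤ ‖u‖ ^ 2 / t := hk2 i
          _ ≤ 1 / t := by
            refine div_le_div_of_nonneg_right ?_ ht.le
            exact pow_le_one₀ (norm_nonneg _) hun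
      have h5 : 1 / t ≤ D / 256 := by
        rw [le_div_iff₀ (by norm_num : (0 : ℝ) < 256)]
        calc 1 / t * 256 = 256 / t := by ring
          _ ≤ D := hD1
      calc (‖k i‖ * ‖ζ‖) ^ 2 = ‖k i‖ ^ 2 * ‖ζ‖ ^ 2 := by ring
        _ ≤ (D / 256) * (4 * D) := mul_le_mul (h4.trans h5) hζ (sq_nonneg _) (by positivity)
        _ = (D / 8) ^ 2 := by ring
    exact (sq_le_sq₀ (by positivity) (by positivity)).1 h3
  have h3 : D / 8 ≤ ‖w - u‖ * (7 * K / η) := by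
    have h4 : (inner ℂ (dEE Ω x i v) ζ).re - (inner ℂ (k i) ζ).re = (inner ℂ (u - w) z).re := by
      rw [h1, h2, ← Complex.sub_re, ← inner_sub_left]
    have h5 : (inner ℂ (k i) ζ).re ≤ D / 8 :=
      (Complex.re_le_norm _).trans ((norm_inner_le_norm _ _).trans hkζ)
    have h6 : (inner ℂ (u - w) z).re ≤ ‖w - u‖ * (7 * K / η) := by
      refine (Complex.re_le_norm _).trans ((norm_inner_le_norm _ _).trans ?_)
      rw [norm_sub_rev]
      exact mul_le_mul_of_nonneg_left hz (norm_nonneg _)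
    linarith
  have hKpos : 0 < K := by
    rcases hK0.eq_or_lt with h4 | h4
    · exfalso
      rw [← h4] at h3
      simp only [mul_zero, zero_div] at h3
      linarith
    · exact h4
  refine ⟨hKpos, v, hvn, ?_⟩
  have h4 : 1 ≤ (2 * η * (2 * r + 1)) * D := by
    have h5 : 2 * η * (2 * r + 1) = t / 256 := by
      rw [hη]
      field_simp
      norm_num
    rw [h5]
    have h6 : 256 ≤ D * t := (div_le_iff₀ ht).1 hD1
    linarith
  have h5 : D * η ≤ 56 * K * ‖w - u‖ := by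
    have h6 : D / 8 * η ≤ ‖w - u‖ * (7 * K / η) * η := mul_le_mul_of_nonneg_right h3 hη0.le
    have h7 : ‖w - u‖ * (7 * K / η) * η = ‖w - u‖ * (7 * K) := by
      field_simp
    rw [h7] at h6
    linarith
  rw [div_le_iff₀ (by positivity)]
  have h6 : 0 ≤ 2 * r + 1 := by positivity
  calc (1 : ℝ) ≤ (2 * η * (2 * r + 1)) * D := h4
    _ = 2 * (2 * r + 1) * (D * η) := by ring
    _ ≤ 2 * (2 * r + 1) * (56 * K * ‖w - u‖) := mul_le_mul_of_nonneg_left h5 (by positivity)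
    _ = ‖w - u‖ * (112 * K * (2 * r + 1)) := by ring

/-- powers and polynomials of `x_i` lie in the bicommutant -/
theorem aeval_mem (i : Fin m) (v : Polynomial ℝ) :
    Polynomial.aeval (x i) v ∈ Set.centralizer (Set.centralizer (Set.range x)) := by
  rw [Set.mem_centralizer_iff]
  intro T hT
  rw [Set.mem_centralizer_iff] at hT
  have h1 : Commute T (x i) := (hT (x i) ⟨i, rfl⟩).symm
  induction v using Polynomial.induction_on' with
  | add p q hp hq => rw [map_add, mul_add, add_mul, hp, hq]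
  | monomial n a =>
    rw [Polynomial.aeval_monomial]
    have h2 : Commute T (algebraMap ℝ (H →L[ℂ] H) a) := (Algebra.commutes a T).symm
    exact (h2.mul_right (h1.pow_right n)).eq

theorem never_uniform (hM : TracialSpace M Ω) (hm : 0 < m)
    (hx : ∀ i, x i ∈ M ∧ IsSelfAdjoint (x i)) {ξ : Fin m → H} (hξ : IsConj Ω x ξ) :
    ∃ d : Fin m → (L2 Ω x →ₗ.[ℂ] T2 Ω x),
      (∀ i, IsDiffQuot Ω x i (d i) ∧ (d i).IsClosable) ∧
      (∃ S, IsGradient Ω x d S) ∧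
      ∀ S, IsGradient Ω x d S → ∃ R : L2 Ω x →L[ℂ] L2 Ω x,
        Resolvent (Lap S) R ∧ HeatSemigroup (Lap S) (Pool.Agent.Helper228.OP.heat R) ∧
        (∀ i, ∀ t : ℝ, 0 < t → t ≤ 1 →
          ∃ y ∈ Set.centralizer (Set.centralizer (Set.range x)), ‖y‖ ≤ 1 ∧
            ∃ u : L2 Ω x, (u : H) = y Ω ∧ 0 < ‖ξ i‖ ∧ 1 / (112 * ‖ξ i‖ * (2 * ‖x i‖ + 1)) ≤
              ‖Pool.Agent.Helper228.OP.heat R t u - u‖) ∧
        ¬ UniformOnBall Ω x (Pool.Agent.Helper228.OP.heat R) := by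
  choose d hd1 hd2 hd3 using fun i => exists_d hM hx hξ i
  refine ⟨d, fun i => ⟨hd1 i, hd2 i⟩, exists_grad hM hx hξ hd3, fun S hS => ?_⟩
  obtain ⟨R, hR, hR1, hRd⟩ := exists_resolvent_pi (F := T2 Ω x) (grad_dense hS) hS.1
  have key : ∀ i, ∀ t : ℝ, 0 < t → t ≤ 1 →
      ∃ y ∈ Set.centralizer (Set.centralizer (Set.range x)), ‖y‖ ≤ 1 ∧
        ∃ u : L2 Ω x, (u : H) = y Ω ∧ 0 < ‖ξ i‖ ∧ 1 / (112 * ‖ξ i‖ * (2 * ‖x i‖ + 1)) ≤
          ‖Pool.Agent.Helper228.OP.heat R t u - u‖ := by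
    intro i t ht ht1
    obtain ⟨hK, v, hv1, hv2⟩ := main_bound hM hx hξ hd3 hS hR hR1 i ht ht1
    exact ⟨Polynomial.aeval (x i) v, aeval_mem i v, hv1, EE Ω x i v, EE_coe v, hK, hv2⟩
  refine ⟨R, hR, heat_semigroup hR hR1 hRd, key, fun hU => ?_⟩
  obtain ⟨_, _, _, _, _, hK, _⟩ := key ⟨0, hm⟩ 1 one_pos le_rfl
  obtain ⟨δ, hδ, hδ2⟩ := hU _ (show 0 < 1 / (112 * ‖ξ ⟨0, hm⟩‖ * (2 * ‖x ⟨0, hm⟩‖ + 1)) by
    positivity)
  obtain ⟨y, hy, hy1, u, hu, _, hb⟩ := key ⟨0, hm⟩ (min (δ / 2) 1)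
    (lt_min (by positivity) one_pos) (min_le_right _ _)
  have h1 := hδ2 (min (δ / 2) 1) (lt_min (by positivity) one_pos)
    ((min_le_left _ _).trans_lt (by linarith)) y hy hy1 u hu
  exact absurd h1 (not_lt.2 hb)

end Pool.Agent.W663.FI
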