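import Pool.Agent.W663.FI.Poly

set_option autoImplicit false

open Polynomial Filter Topology MeasureTheory

namespace Pool.Agent.W663.FI

/-- the kernel `1 / (x² + η²)` -/
noncomputable def G (η x : ℝ) : ℝ := (x ^ 2 + η ^ 2)⁻¹

theorem G_den_pos {η : ℝ} (hη : 0 < η) (x : ℝ) : 0 < x ^ 2 + η ^ 2 := by positivity

theorem G_pos {η : ℝ} (hη : 0 < η) (x : ℝ) : 0 < G η x := inv_pos.2 (G_den_pos hη x)

theorem G_le {η : ℝ} (hη : 0 < η) (x : ℝ) : G η x ≤ (η ^ 2)⁻¹ := by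
  unfold G
  exact inv_anti₀ (by positivity) (by nlinarith [sq_nonneg x])

theorem G_cont {η : ℝ} (hη : 0 < η) : Continuous (G η) := by
  unfold G
  exact Continuous.inv₀ (by fun_prop) fun x => (G_den_pos hη x).ne'

theorem G_neg (η x : ℝ) : G η (-x) = G η x := by unfold G; rw [neg_sq]

theorem G_mul {η : ℝ} (hη : 0 < η) (x : ℝ) : (x ^ 2 + η ^ 2) * G η x = 1 :=
  mul_inv_cancel₀ (G_den_pos hη x).ne'

theorem xG_le {η : ℝ} (hη : 0 < η) (x : ℝ) : |x * G η x| ≤ (2 * η)⁻¹ := by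
  rw [abs_mul, abs_of_pos (G_pos hη x), G, ← div_eq_mul_inv, div_le_iff₀ (G_den_pos hη x),
    ← div_eq_inv_mul, le_div_iff₀ (by positivity)]
  nlinarith [sq_nonneg (|x| - η), sq_abs x]

theorem sqG_le {η : ℝ} (hη : 0 < η) (x : ℝ) : x ^ 2 * G η x ≤ 1 := by
  have := G_mul hη x
  have h2 := G_pos hη x
  nlinarith [mul_pos (pow_pos hη 2) h2]

theorem int_add3 {α : Type*} [MeasurableSpace α] {ν : Measure α} {f g h : α → ℝ}
    (hf : Integrable f ν) (hg : Integrable g ν) (hh : Integrable h ν) :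
    ∫ x, (f x + g x + h x) ∂ν = (∫ x, f x ∂ν) + (∫ x, g x ∂ν) + ∫ x, h x ∂ν := by
  have h1 : ∫ x, (f x + g x) ∂ν = (∫ x, f x ∂ν) + (∫ x, g x ∂ν) := integral_add hf hg
  rw [← h1]
  exact integral_add (f := fun x => f x + g x) (hf.add hg) hh

section tri

variable (μ : Measure ℝ) [IsProbabilityMeasure μ]

theorem int_of_bdd {α : Type*} [TopologicalSpace α] [MeasurableSpace α] [OpensMeasurableSpace α]
    [SecondCountableTopologyEither α ℝ]
    (ν : Measure α) [IsFiniteMeasure ν] {f : α → ℝ} (hf : Continuous f) {C : ℝ}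
    (hC : ∀ x, |f x| ≤ C) : Integrable f ν :=
  Integrable.of_bound hf.aestronglyMeasurable C (Eventually.of_forall hC)

variable {Θ : ℝ → ℝ → ℝ → ℝ} {C : ℝ}

theorem tri_int (hΘ : Continuous fun z : (ℝ × ℝ) × ℝ => Θ z.1.1 z.1.2 z.2)
    (hC : ∀ x s t, |Θ x s t| ≤ C) :
    Integrable (fun z : ℝ × ℝ => ∫ t, Θ z.1 z.2 t ∂μ) (μ.prod μ) := by
  have h1 : Integrable (fun z : (ℝ × ℝ) × ℝ => Θ z.1.1 z.1.2 z.2) ((μ.prod μ).prod μ) :=
    int_of_bdd _ hΘ fun z => hC _ _ _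
  exact h1.integral_prod_left

theorem tri_swap12 (hΘ : Continuous fun z : (ℝ × ℝ) × ℝ => Θ z.1.1 z.1.2 z.2)
    (hC : ∀ x s t, |Θ x s t| ≤ C) :
    ∫ x, ∫ s, ∫ t, Θ x s t ∂μ ∂μ ∂μ = ∫ x, ∫ s, ∫ t, Θ s x t ∂μ ∂μ ∂μ :=
  integral_integral_swap (f := fun x s => ∫ t, Θ x s t ∂μ) (tri_int μ hΘ hC)

theorem tri_swap23 (hΘ : Continuous fun z : (ℝ × ℝ) × ℝ => Θ z.1.1 z.1.2 z.2)
    (hC : ∀ x s t, |Θ x s t| ≤ C) :
    ∫ x, ∫ s, ∫ t, Θ x s t ∂μ ∂μ ∂μ = ∫ x, ∫ s, ∫ t, Θ x t s ∂μ ∂μ ∂μ := by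
  refine integral_congr_ae (Eventually.of_forall fun x => ?_)
  have h1 : Integrable (Function.uncurry fun s t => Θ x s t) (μ.prod μ) := by
    refine int_of_bdd _ (C := C) ?_ fun z => hC _ _ _
    exact hΘ.comp (by fun_prop : Continuous fun z : ℝ × ℝ => ((x, z.1), z.2))
  exact integral_integral_swap h1

end tri

section

variable (μ : Measure ℝ) [IsProbabilityMeasure μ] {η : ℝ}

/-- `u(x) = ∫ G(t - x) dμ(t)` -/
noncomputable def uu (η x : ℝ) : ℝ := ∫ t, G η (t - x) ∂μ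

/-- `w(x) = ∫ (t - x) G(t - x) dμ(t)` -/
noncomputable def ww (η x : ℝ) : ℝ := ∫ t, (t - x) * G η (t - x) ∂μ

theorem G_abs {η : ℝ} (hη : 0 < η) (x : ℝ) : |G η x| ≤ (η ^ 2)⁻¹ := by
  rw [abs_of_pos (G_pos hη x)]; exact G_le hη x

theorem G_sub_cont {η : ℝ} (hη : 0 < η) : Continuous fun z : ℝ × ℝ => G η (z.1 - z.2) :=
  (G_cont hη).comp (by fun_prop)

theorem G_int (hη : 0 < η) (x : ℝ) : Integrable (fun t => G η (t - x)) μ :=
  int_of_bdd _ ((G_cont hη).comp (by fun_prop)) (fun t => G_abs hη _)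

theorem xG_int (hη : 0 < η) (x : ℝ) : Integrable (fun t => (t - x) * G η (t - x)) μ :=
  int_of_bdd _ ((continuous_id.sub continuous_const).mul ((G_cont hη).comp (by fun_prop)))
    (fun t => xG_le hη _)

theorem uu_cont (hη : 0 < η) : Continuous (uu μ η) := by
  refine continuous_of_dominated (bound := fun _ => (η ^ 2)⁻¹) ?_ ?_ (integrable_const _) ?_
  · intro x
    exact (G_int μ hη x).aestronglyMeasurable
  · intro x
    exact Eventually.of_forall fun t => G_abs hη _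
  · exact Eventually.of_forall fun t => (G_cont hη).comp (by fun_prop)

theorem ww_cont (hη : 0 < η) : Continuous (ww μ η) := by
  refine continuous_of_dominated (bound := fun _ => (2 * η)⁻¹) ?_ ?_ (integrable_const _) ?_
  · intro x
    exact (xG_int μ hη x).aestronglyMeasurable
  · intro x
    exact Eventually.of_forall fun t => xG_le hη _
  · exact Eventually.of_forall fun t =>
      (by fun_prop : Continuous fun x : ℝ => t - x).mul ((G_cont hη).comp (by fun_prop))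

omit [IsProbabilityMeasure μ] in
theorem uu_nonneg (hη : 0 < η) (x : ℝ) : 0 ≤ uu μ η x :=
  integral_nonneg fun _ => (G_pos hη _).le

theorem uu_abs (hη : 0 < η) (x : ℝ) : |uu μ η x| ≤ (η ^ 2)⁻¹ := by
  have h := norm_integral_le_of_norm_le_const (μ := μ) (f := fun t => G η (t - x))
    (Eventually.of_forall fun t => (G_abs hη (t - x)))
  rw [probReal_univ, mul_one] at h
  exact h

theorem ww_abs (hη : 0 < η) (x : ℝ) : |ww μ η x| ≤ (2 * η)⁻¹ := by
  have h := norm_integral_le_of_norm_le_const (μ := μ) (f := fun t => (t - x) * G η (t - x))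
    (Eventually.of_forall fun t => (xG_le hη (t - x)))
  rw [probReal_univ, mul_one] at h
  exact h

theorem uu_sq_int (hη : 0 < η) : Integrable (fun x => uu μ η x ^ 2) μ := by
  refine int_of_bdd _ ((uu_cont μ hη).pow 2) (C := (η ^ 2)⁻¹ ^ 2) fun x => ?_
  rw [abs_pow]
  exact pow_le_pow_left₀ (abs_nonneg _) (uu_abs μ hη x) 2

theorem ww_sq_int (hη : 0 < η) : Integrable (fun x => ww μ η x ^ 2) μ := by
  refine int_of_bdd _ ((ww_cont μ hη).pow 2) (C := (2 * η)⁻¹ ^ 2) fun x => ?_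
  rw [abs_pow]
  exact pow_le_pow_left₀ (abs_nonneg _) (ww_abs μ hη x) 2

/-- the double integral of a product kernel with base point `x` -/
theorem double_int (hη : 0 < η) (c x : ℝ) :
    ∫ s, ∫ t, (η ^ 2 - c * ((s - x) * (t - x))) * (G η (s - x) * G η (t - x)) ∂μ ∂μ =
      η ^ 2 * uu μ η x ^ 2 - c * ww μ η x ^ 2 := by
  have h1 : ∀ s, ∫ t, (η ^ 2 - c * ((s - x) * (t - x))) * (G η (s - x) * G η (t - x)) ∂μ =
      η ^ 2 * uu μ η x * G η (s - x) - c * ww μ η x * ((s - x) * G η (s - x)) := by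
    intro s
    have h2 : (fun t => (η ^ 2 - c * ((s - x) * (t - x))) * (G η (s - x) * G η (t - x))) =
        fun t => (η ^ 2 * G η (s - x)) * G η (t - x) -
          (c * ((s - x) * G η (s - x))) * ((t - x) * G η (t - x)) := by
      funext t; ring
    rw [h2, integral_sub ((G_int μ hη x).const_mul _) ((xG_int μ hη x).const_mul _),
      integral_const_mul, integral_const_mul]
    unfold uu ww
    ring
  simp only [h1]
  rw [integral_sub ((G_int μ hη x).const_mul _) ((xG_int μ hη x).const_mul _),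
    integral_const_mul, integral_const_mul]
  unfold uu ww
  ring

/-- the kernel with three variables -/
noncomputable def Psi (η c x s t : ℝ) : ℝ :=
  (η ^ 2 - c * ((s - x) * (t - x))) * (G η (s - x) * G η (t - x))

theorem Psi_cont (hη : 0 < η) (c : ℝ) :
    Continuous fun z : (ℝ × ℝ) × ℝ => Psi η c z.1.1 z.1.2 z.2 := by
  unfold Psi
  have h1 : Continuous fun z : (ℝ × ℝ) × ℝ => G η (z.1.2 - z.1.1) :=
    (G_cont hη).comp (by fun_prop)
  have h2 : Continuous fun z : (ℝ × ℝ) × ℝ => G η (z.2 - z.1.1) :=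
    (G_cont hη).comp (by fun_prop)
  fun_prop

theorem Psi_bdd (hη : 0 < η) (c x s t : ℝ) :
    |Psi η c x s t| ≤ η ^ 2 * ((η ^ 2)⁻¹ * (η ^ 2)⁻¹) + |c| * ((2 * η)⁻¹ * (2 * η)⁻¹) := by
  have h1 : Psi η c x s t = η ^ 2 * (G η (s - x) * G η (t - x)) -
      c * (((s - x) * G η (s - x)) * ((t - x) * G η (t - x))) := by unfold Psi; ring
  rw [h1]
  refine (abs_sub _ _).trans (add_le_add ?_ ?_)
  · rw [abs_mul, abs_mul, abs_of_nonneg (by positivity : (0 : ℝ) ≤ η ^ 2)]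
    gcongr
    · exact G_abs hη _
    · exact G_abs hη _
  · rw [abs_mul, abs_mul]
    gcongr
    · exact xG_le hη _
    · exact xG_le hη _

theorem Psi_sym (hη : 0 < η) (x s t : ℝ) :
    0 ≤ Psi η 2 x s t + Psi η 2 s x t + Psi η 2 t x s := by
  have e1 : G η (x - s) = G η (s - x) := by rw [← G_neg, neg_sub]
  have e2 : G η (x - t) = G η (t - x) := by rw [← G_neg, neg_sub]
  have e3 : G η (s - t) = G η (t - s) := by rw [← G_neg, neg_sub]
  unfold Psi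
  rw [e1, e2, e3]
  have h1 := G_mul hη (s - x)
  have h2 := G_mul hη (t - x)
  have h3 := G_mul hη (t - s)
  have p1 := G_pos hη (s - x)
  have p2 := G_pos hη (t - x)
  have p3 := G_pos hη (t - s)
  set a := G η (s - x)
  set b := G η (t - x)
  set c := G η (t - s)
  have key : (η ^ 2 - 2 * ((s - x) * (t - x))) * (a * b) + (η ^ 2 - 2 * ((x - s) * (t - s))) *
      (a * c) + (η ^ 2 - 2 * ((x - t) * (s - t))) * (b * c) = 3 * η ^ 4 * (a * b * c) := by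
    have e4 : (η ^ 2 - 2 * ((s - x) * (t - x))) * (a * b) =
        (η ^ 2 - 2 * ((s - x) * (t - x))) * (a * b * (((t - s) ^ 2 + η ^ 2) * c)) := by
      rw [h3, mul_one]
    have e5 : (η ^ 2 - 2 * ((x - s) * (t - s))) * (a * c) =
        (η ^ 2 - 2 * ((x - s) * (t - s))) * (a * c * (((t - x) ^ 2 + η ^ 2) * b)) := by
      rw [h2, mul_one]
    have e6 : (η ^ 2 - 2 * ((x - t) * (s - t))) * (b * c) =
        (η ^ 2 - 2 * ((x - t) * (s - t))) * (b * c * (((s - x) ^ 2 + η ^ 2) * a)) := by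
      rw [h1, mul_one]
    rw [e4, e5, e6]
    ring
  rw [key]
  positivity

/-- `∫ η² u² ≥ 2 ∫ w²` -/
theorem uu_ww (hη : 0 < η) :
    0 ≤ ∫ x, (η ^ 2 * uu μ η x ^ 2 - 2 * ww μ η x ^ 2) ∂μ := by
  have h0 : ∀ x, η ^ 2 * uu μ η x ^ 2 - 2 * ww μ η x ^ 2 = ∫ s, ∫ t, Psi η 2 x s t ∂μ ∂μ :=
    fun x => (double_int μ hη 2 x).symm
  simp only [h0]
  set I := ∫ x, ∫ s, ∫ t, Psi η 2 x s t ∂μ ∂μ ∂μ with hI
  have hc := Psi_cont hη 2
  have hb := Psi_bdd hη 2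
  have hc2 : Continuous fun z : (ℝ × ℝ) × ℝ => Psi η 2 z.1.2 z.1.1 z.2 :=
    hc.comp (by fun_prop : Continuous fun z : (ℝ × ℝ) × ℝ => ((z.1.2, z.1.1), z.2))
  have hc3 : Continuous fun z : (ℝ × ℝ) × ℝ => Psi η 2 z.2 z.1.1 z.1.2 :=
    hc.comp (by fun_prop : Continuous fun z : (ℝ × ℝ) × ℝ => ((z.2, z.1.1), z.1.2))
  have h2 : I = ∫ x, ∫ s, ∫ t, Psi η 2 s x t ∂μ ∂μ ∂μ := tri_swap12 μ hc hb
  have h3 : ∫ x, ∫ s, ∫ t, Psi η 2 s x t ∂μ ∂μ ∂μ = ∫ x, ∫ s, ∫ t, Psi η 2 t x s ∂μ ∂μ ∂μ :=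
    tri_swap23 μ (Θ := fun x s t => Psi η 2 s x t) hc2 (fun x s t => hb s x t)
  have i1 := tri_int μ hc hb
  have i2 := tri_int μ (Θ := fun x s t => Psi η 2 s x t) hc2 (fun x s t => hb s x t)
  have i3 := tri_int μ (Θ := fun x s t => Psi η 2 t x s) hc3 (fun x s t => hb t x s)
  have j : ∀ (Θ : ℝ → ℝ → ℝ → ℝ) (h : Integrable (fun z : ℝ × ℝ => ∫ t, Θ z.1 z.2 t ∂μ)
      (μ.prod μ)), ∫ x, ∫ s, ∫ t, Θ x s t ∂μ ∂μ ∂μ =
        ∫ z : ℝ × ℝ, (∫ t, Θ z.1 z.2 t ∂μ) ∂(μ.prod μ) := by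
    intro Θ h
    rw [integral_prod _ h]
  have hsum : 3 * I = ∫ z : ℝ × ℝ, (∫ t, (Psi η 2 z.1 z.2 t + Psi η 2 z.2 z.1 t +
      Psi η 2 t z.1 z.2) ∂μ) ∂(μ.prod μ) := by
    have e : ∀ z : ℝ × ℝ, ∫ t, (Psi η 2 z.1 z.2 t + Psi η 2 z.2 z.1 t +
        Psi η 2 t z.1 z.2) ∂μ = (∫ t, Psi η 2 z.1 z.2 t ∂μ) + (∫ t, Psi η 2 z.2 z.1 t ∂μ) +
          ∫ t, Psi η 2 t z.1 z.2 ∂μ := by
      intro z
      have k1 : Integrable (fun t => Psi η 2 z.1 z.2 t) μ :=
        int_of_bdd _ (hc.comp (by fun_prop : Continuous fun t : ℝ => ((z.1, z.2), t)))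
          fun t => hb _ _ _
      have k2 : Integrable (fun t => Psi η 2 z.2 z.1 t) μ :=
        int_of_bdd _ (hc.comp (by fun_prop : Continuous fun t : ℝ => ((z.2, z.1), t)))
          fun t => hb _ _ _
      have k3 : Integrable (fun t => Psi η 2 t z.1 z.2) μ :=
        int_of_bdd _ (hc.comp (by fun_prop : Continuous fun t : ℝ => ((t, z.1), z.2)))
          fun t => hb _ _ _
      exact int_add3 k1 k2 k3
    simp only [e]
    rw [int_add3 i1 i2 i3, ← j _ i1,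
      ← j (fun x s t => Psi η 2 s x t) i2, ← j (fun x s t => Psi η 2 t x s) i3, ← h3, ← h2]
    ring
  have hpos : 0 ≤ 3 * I := by
    rw [hsum]
    exact integral_nonneg fun _ => integral_nonneg fun _ => Psi_sym hη _ _ _
  linarith

end

end Pool.Agent.W663.FI
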