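import Pool.Agent.W663.FI.Meas

set_option autoImplicit false

open Polynomial Filter Topology MeasureTheory

namespace Pool.Agent.W663.FI

variable (μ : Measure ℝ) [IsProbabilityMeasure μ] {η : ℝ}

/-- The hypothesis on `μ` coming from the conjugate variable: `μ` is carried by `[-r, r]` and
`|∫∫ ∂P| ≤ K ‖P‖_2` for all polynomials `P`. -/
structure Fisher (r K : ℝ) : Prop where
  r0 : 0 ≤ r
  K0 : 0 ≤ K
  supp : ∀ᵐ s ∂μ, s ∈ Set.Icc (-r) r
  ineq : ∀ P : ℝ[X], |∫ s, ∫ t, dd P s t ∂μ ∂μ| ≤ K * √(∫ s, (P.eval s) ^ 2 ∂μ)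

variable {μ} {r K : ℝ}

theorem Fisher.int_cont (h : Fisher μ r K) {f : ℝ → ℝ} (hf : Continuous f) :
    Integrable f μ := by
  obtain ⟨C, hC⟩ := (isCompact_Icc (a := -r) (b := r)).exists_bound_of_continuousOn
    hf.continuousOn
  refine Integrable.of_bound hf.aestronglyMeasurable C ?_
  filter_upwards [h.supp] with x hx using hC x hx

omit [IsProbabilityMeasure μ] in
theorem Fisher.supp2 [SFinite μ] (h : Fisher μ r K) :
    ∀ᵐ z ∂(μ.prod μ), z.1 ∈ Set.Icc (-r) r ∧ z.2 ∈ Set.Icc (-r) r := by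
  have h1 : ∀ᵐ z ∂(μ.prod μ), z.1 ∈ Set.Icc (-r) r :=
    Measure.quasiMeasurePreserving_fst.ae h.supp
  have h2 : ∀ᵐ z ∂(μ.prod μ), z.2 ∈ Set.Icc (-r) r :=
    Measure.quasiMeasurePreserving_snd.ae h.supp
  filter_upwards [h1, h2] with z a b using ⟨a, b⟩

theorem Fisher.int_cont2 (h : Fisher μ r K) {f : ℝ × ℝ → ℝ} (hf : Continuous f) :
    Integrable f (μ.prod μ) := by
  obtain ⟨C, hC⟩ := ((isCompact_Icc (a := -r) (b := r)).prod
    (isCompact_Icc (a := -r) (b := r))).exists_bound_of_continuousOn hf.continuousOn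
  refine Integrable.of_bound hf.aestronglyMeasurable C ?_
  filter_upwards [h.supp2] with x hx using hC x hx

theorem Fisher.ineq_c1 (h : Fisher μ r K) (f : ℝ → ℝ) (F : ℝ → ℝ → ℝ)
    (hfc : Continuous f) (hF : Continuous fun z : ℝ × ℝ => F z.1 z.2)
    (hf : ∀ s t, f s - f t = (s - t) * F s t) :
    |∫ s, ∫ t, F s t ∂μ ∂μ| ≤ K * √(∫ s, (f s) ^ 2 ∂μ) := by
  obtain ⟨C, hC⟩ := (isCompact_Icc (a := -r) (b := r)).exists_bound_of_continuousOn
    hfc.continuousOn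
  have key : ∀ ε : ℝ, 0 < ε → |∫ s, ∫ t, F s t ∂μ ∂μ| ≤
      ε + K * √((∫ s, (f s) ^ 2 ∂μ) + ε * (2 * C + ε)) := by
    intro ε hε
    obtain ⟨P, hP1, hP2⟩ := c1_approx r h.r0 f F hF hf ε hε
    have i1 : Integrable (fun z : ℝ × ℝ => F z.1 z.2) (μ.prod μ) := h.int_cont2 hF
    have i2 : Integrable (fun z : ℝ × ℝ => dd P z.1 z.2) (μ.prod μ) := h.int_cont2 (dd_cont P)
    have e1 : ∫ s, ∫ t, F s t ∂μ ∂μ = ∫ z, F z.1 z.2 ∂(μ.prod μ) := (integral_prod _ i1).symm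
    have e2 : ∫ s, ∫ t, dd P s t ∂μ ∂μ = ∫ z, dd P z.1 z.2 ∂(μ.prod μ) :=
      (integral_prod _ i2).symm
    have h1 : |(∫ z, dd P z.1 z.2 ∂(μ.prod μ)) - ∫ z, F z.1 z.2 ∂(μ.prod μ)| ≤ ε := by
      rw [← integral_sub i2 i1]
      have h2 := norm_integral_le_of_norm_le_const (μ := μ.prod μ)
        (f := fun z : ℝ × ℝ => dd P z.1 z.2 - F z.1 z.2) (C := ε) (by
          filter_upwards [h.supp2] with z hz
          exact hP1 _ hz.1 _ hz.2)
      rw [probReal_univ, mul_one] at h2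
      exact h2
    have h3 := h.ineq P
    have h4 : ∫ s, (P.eval s) ^ 2 ∂μ ≤ (∫ s, (f s) ^ 2 ∂μ) + ε * (2 * C + ε) := by
      have h5 : ∫ s, (P.eval s) ^ 2 ∂μ ≤ ∫ s, ((f s) ^ 2 + ε * (2 * C + ε)) ∂μ := by
        refine integral_mono_ae (h.int_cont (by fun_prop)) (h.int_cont (by fun_prop)) ?_
        filter_upwards [h.supp] with s hs
        have h6 := hP2 s hs
        have h7 : |f s| ≤ C := hC s hs
        have h8 : |P.eval s| ≤ |f s| + ε := by
          have : P.eval s = f s + (P.eval s - f s) := by ring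
          rw [this]
          exact (abs_add_le _ _).trans (by linarith)
        have h9 : (P.eval s) ^ 2 ≤ (|f s| + ε) ^ 2 := by
          rw [← sq_abs]
          exact pow_le_pow_left₀ (abs_nonneg _) h8 2
        have h10 : (|f s| + ε) ^ 2 = (f s) ^ 2 + ε * (2 * |f s| + ε) := by
          rw [add_sq, sq_abs]; ring
        nlinarith
      rw [integral_add (h.int_cont (by fun_prop)) (integrable_const _), integral_const,
        probReal_univ, one_smul] at h5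
      exact h5
    rw [e1]
    rw [e2] at h3
    have h11 : |∫ z, F z.1 z.2 ∂(μ.prod μ)| ≤ ε + |∫ z, dd P z.1 z.2 ∂(μ.prod μ)| := by
      have : ∫ z, F z.1 z.2 ∂(μ.prod μ) = (∫ z, dd P z.1 z.2 ∂(μ.prod μ)) -
        ((∫ z, dd P z.1 z.2 ∂(μ.prod μ)) - ∫ z, F z.1 z.2 ∂(μ.prod μ)) := by ring
      rw [this]
      exact (abs_sub _ _).trans (by linarith)
    refine h11.trans ?_
    gcongr
    refine h3.trans ?_
    exact mul_le_mul_of_nonneg_left (Real.sqrt_le_sqrt h4) h.K0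
  have hlim : Tendsto (fun ε : ℝ => ε + K * √((∫ s, (f s) ^ 2 ∂μ) + ε * (2 * C + ε)))
      (𝓝[>] 0) (𝓝 (0 + K * √((∫ s, (f s) ^ 2 ∂μ) + 0 * (2 * C + 0)))) := by
    have hc : Continuous (fun ε : ℝ => ε + K * √((∫ s, (f s) ^ 2 ∂μ) + ε * (2 * C + ε))) := by
      fun_prop
    exact (hc.tendsto 0).mono_left nhdsWithin_le_nhds
  rw [zero_mul, add_zero, zero_add] at hlim
  refine ge_of_tendsto hlim ?_
  filter_upwards [self_mem_nhdsWithin] with ε hε using key ε hε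

theorem F_cont (hη : 0 < η) : Continuous fun z : ℝ × ℝ => ∫ x, Psi η 1 x z.1 z.2 ∂μ := by
  refine continuous_of_dominated
    (bound := fun _ => η ^ 2 * ((η ^ 2)⁻¹ * (η ^ 2)⁻¹) + |1| * ((2 * η)⁻¹ * (2 * η)⁻¹)) ?_ ?_
    (integrable_const _) ?_
  · intro z
    have : Continuous fun x : ℝ => Psi η 1 x z.1 z.2 :=
      (Psi_cont hη 1).comp (by fun_prop : Continuous fun x : ℝ => ((x, z.1), z.2))
    exact this.aestronglyMeasurable
  · intro z
    exact Eventually.of_forall fun x => Psi_bdd hη 1 x z.1 z.2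
  · exact Eventually.of_forall fun x =>
      (Psi_cont hη 1).comp (by fun_prop : Continuous fun z : ℝ × ℝ => ((x, z.1), z.2))

theorem ww_diff (hη : 0 < η) (s t : ℝ) :
    (-ww μ η s) - (-ww μ η t) = (s - t) * ∫ x, Psi η 1 x s t ∂μ := by
  unfold ww
  have i1 : Integrable (fun x => -((x - s) * G η (x - s))) μ := (xG_int μ hη s).neg
  have i2 : Integrable (fun x => -((x - t) * G η (x - t))) μ := (xG_int μ hη t).neg
  rw [← integral_neg, ← integral_neg, ← integral_sub i1 i2, ← integral_const_mul]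
  refine integral_congr_ae (Eventually.of_forall fun x => ?_)
  show -((x - s) * G η (x - s)) - -((x - t) * G η (x - t)) = (s - t) * Psi η 1 x s t
  unfold Psi
  have e1 : G η (x - s) = G η (s - x) := by rw [← G_neg, neg_sub]
  have e2 : G η (x - t) = G η (t - x) := by rw [← G_neg, neg_sub]
  rw [e1, e2]
  have h1 := G_mul hη (s - x)
  have h2 := G_mul hη (t - x)
  set a := G η (s - x)
  set b := G η (t - x)
  have e3 : -((x - s) * a) = (s - x) * a * (((t - x) ^ 2 + η ^ 2) * b) := by rw [h2]; ring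
  have e4 : -((x - t) * b) = (t - x) * b * (((s - x) ^ 2 + η ^ 2) * a) := by rw [h1]; ring
  rw [e3, e4]
  ring

/-- Lemma A: `∫ (η u)² dμ ≤ 2 K²`. -/
theorem Fisher.uu_le (h : Fisher μ r K) (hη : 0 < η) :
    η ^ 2 * ∫ x, uu μ η x ^ 2 ∂μ ≤ 2 * K ^ 2 := by
  have h1 := h.ineq_c1 (fun s => -ww μ η s) (fun s t => ∫ x, Psi η 1 x s t ∂μ)
    (ww_cont μ hη).neg (F_cont hη) (ww_diff hη)
  have hc := Psi_cont hη 1
  have hb := Psi_bdd hη 1
  have hc2 : Continuous fun z : (ℝ × ℝ) × ℝ => Psi η 1 z.1.2 z.1.1 z.2 :=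
    hc.comp (by fun_prop : Continuous fun z : (ℝ × ℝ) × ℝ => ((z.1.2, z.1.1), z.2))
  have h2 : ∫ s, ∫ t, ∫ x, Psi η 1 x s t ∂μ ∂μ ∂μ = ∫ x, ∫ s, ∫ t, Psi η 1 x s t ∂μ ∂μ ∂μ := by
    rw [tri_swap12 μ hc hb,
      tri_swap23 μ (Θ := fun x s t => Psi η 1 s x t) hc2 (fun x s t => hb s x t)]
  have h3 : ∫ x, ∫ s, ∫ t, Psi η 1 x s t ∂μ ∂μ ∂μ =
      ∫ x, (η ^ 2 * uu μ η x ^ 2 - 1 * ww μ η x ^ 2) ∂μ :=
    integral_congr_ae (Eventually.of_forall fun x => double_int μ hη 1 x)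
  have i1 := (uu_sq_int μ hη).const_mul (η ^ 2)
  have i2 := ww_sq_int μ hη
  rw [h2, h3, integral_sub i1 (i2.const_mul 1), integral_const_mul, integral_const_mul] at h1
  simp only [neg_sq] at h1
  have h4 := uu_ww μ hη
  rw [integral_sub i1 (i2.const_mul 2), integral_const_mul, integral_const_mul] at h4
  set U := ∫ x, uu μ η x ^ 2 ∂μ
  set W := ∫ x, ww μ η x ^ 2 ∂μ
  have hW : 0 ≤ W := integral_nonneg fun _ => sq_nonneg _
  set q := √W with hq
  have hq0 : 0 ≤ q := Real.sqrt_nonneg _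
  have hqq : q ^ 2 = W := Real.sq_sqrt hW
  have h5 : η ^ 2 * U - 1 * W ≤ K * q := (le_abs_self _).trans h1
  have h6 : q ^ 2 ≤ K * q := by nlinarith
  have h7 : q ≤ K := by
    rcases hq0.eq_or_lt with h0 | h0
    · rw [← h0]; exact h.K0
    · exact le_of_mul_le_mul_right (by nlinarith) h0
  nlinarith [h.K0]

end Pool.Agent.W663.FI
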