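import Pool.Agent.W663.FI.Meas2

set_option autoImplicit false

open Polynomial Filter Topology MeasureTheory

namespace Pool.Agent.W663.FI

variable {μ : Measure ℝ} [IsProbabilityMeasure μ] {r K : ℝ}

/-- no atoms -/
theorem Fisher.noatom (h : Fisher μ r K) (a : ℝ) : μ {a} = 0 := by
  by_contra hne
  set c : ℝ := μ.real {a} with hc
  have hc0 : 0 < c := by
    rw [hc, Measure.real]
    exact ENNReal.toReal_pos hne (measure_ne_top _ _)
  have key : ∀ η : ℝ, 0 < η → c ^ 3 ≤ 2 * K ^ 2 * η ^ 2 := by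
    intro η hη
    have h1 := h.uu_le hη
    have h2 : c * (η ^ 2)⁻¹ ≤ uu μ η a := by
      have h3 : ∫ t, Set.indicator {a} (fun _ => (η ^ 2)⁻¹) t ∂μ ≤ uu μ η a := by
        refine integral_mono ((integrable_const _).indicator (measurableSet_singleton a))
          (G_int μ hη a) fun t => ?_
        by_cases ht : t = a
        · subst ht
          rw [Set.indicator_of_mem (Set.mem_singleton _), sub_self]
          unfold G
          simp
        · rw [Set.indicator_of_notMem (by simpa using ht)]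
          exact (G_pos hη _).le
      rw [integral_indicator_const _ (measurableSet_singleton a), smul_eq_mul] at h3
      exact h3
    have h4 : c * (c * (η ^ 2)⁻¹) ^ 2 ≤ ∫ x, uu μ η x ^ 2 ∂μ := by
      have h5 : ∫ t, Set.indicator {a} (fun _ => (c * (η ^ 2)⁻¹) ^ 2) t ∂μ ≤
          ∫ x, uu μ η x ^ 2 ∂μ := by
        refine integral_mono ((integrable_const _).indicator (measurableSet_singleton a))
          (uu_sq_int μ hη) fun t => ?_
        by_cases ht : t = a
        · subst ht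
          rw [Set.indicator_of_mem (Set.mem_singleton _)]
          exact pow_le_pow_left₀ (by positivity) h2 2
        · rw [Set.indicator_of_notMem (by simpa using ht)]
          positivity
      rw [integral_indicator_const _ (measurableSet_singleton a), smul_eq_mul] at h5
      exact h5
    have h6 : η ^ 2 * (c * (c * (η ^ 2)⁻¹) ^ 2) ≤ 2 * K ^ 2 :=
      (mul_le_mul_of_nonneg_left h4 (by positivity)).trans h1
    have h7 : η ^ 2 * (c * (c * (η ^ 2)⁻¹) ^ 2) = c ^ 3 * (η ^ 2)⁻¹ := by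
      have : η ^ 2 ≠ 0 := by positivity
      field_simp
    rw [h7, ← div_eq_mul_inv, div_le_iff₀ (by positivity)] at h6
    exact h6
  have hlim : Tendsto (fun η : ℝ => 2 * K ^ 2 * η ^ 2) (𝓝[>] 0) (𝓝 (2 * K ^ 2 * 0 ^ 2)) := by
    have hc : Continuous (fun η : ℝ => 2 * K ^ 2 * η ^ 2) := by fun_prop
    exact (hc.tendsto 0).mono_left nhdsWithin_le_nhds
  have h8 : c ^ 3 ≤ 2 * K ^ 2 * 0 ^ 2 := by
    refine ge_of_tendsto hlim ?_
    filter_upwards [self_mem_nhdsWithin] with η hη using key η hη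
  have h9 : 0 < c ^ 3 := by positivity
  nlinarith

theorem Fisher.diag (h : Fisher μ r K) : ∀ᵐ z ∂(μ.prod μ), z.1 ≠ z.2 := by
  rw [ae_iff]
  simp only [ne_eq, not_not]
  have hm : MeasurableSet {z : ℝ × ℝ | z.1 = z.2} :=
    measurableSet_eq_fun measurable_fst measurable_snd
  rw [Measure.measure_prod_null hm]
  refine Eventually.of_forall fun x => ?_
  have : Prod.mk x ⁻¹' {z : ℝ × ℝ | z.1 = z.2} = {x} := by
    ext y; simp [eq_comm]
  show μ (Prod.mk x ⁻¹' {z : ℝ × ℝ | z.1 = z.2}) = 0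
  rw [this]
  exact h.noatom x

/-- `D = ∫∫ G(s - t)` -/
noncomputable def DD (μ : Measure ℝ) (η : ℝ) : ℝ := ∫ z : ℝ × ℝ, G η (z.1 - z.2) ∂(μ.prod μ)

theorem G2_int {η : ℝ} (hη : 0 < η) : Integrable (fun z : ℝ × ℝ => G η (z.1 - z.2)) (μ.prod μ) :=
  int_of_bdd _ (G_sub_cont hη) fun _ => G_abs hη _

theorem DD_eq {η : ℝ} (hη : 0 < η) : DD μ η = ∫ x, uu μ η x ∂μ := by
  unfold DD
  rw [integral_prod _ (G2_int hη)]
  refine integral_congr_ae (Eventually.of_forall fun x => ?_)
  unfold uu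
  refine integral_congr_ae (Eventually.of_forall fun t => ?_)
  show G η (x - t) = G η (t - x)
  rw [← G_neg, neg_sub]

theorem uu_int {η : ℝ} (hη : 0 < η) : Integrable (uu μ η) μ :=
  int_of_bdd _ (uu_cont μ hη) fun x => uu_abs μ hη x

theorem Fisher.DD_le (h : Fisher μ r K) {η : ℝ} (hη : 0 < η) : η * DD μ η ≤ 2 * K := by
  rw [DD_eq hη]
  have h1 : (∫ x, uu μ η x ∂μ) ^ 2 ≤ ∫ x, uu μ η x ^ 2 ∂μ := by
    have h2 : 0 ≤ ∫ x, (uu μ η x - ∫ y, uu μ η y ∂μ) ^ 2 ∂μ := integral_nonneg fun _ => sq_nonneg _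
    set c := ∫ y, uu μ η y ∂μ with hc
    have h3 : ∀ x, (uu μ η x - c) ^ 2 = uu μ η x ^ 2 + (-(2 * c)) * uu μ η x + c ^ 2 := by
      intro x; ring
    simp only [h3] at h2
    rw [int_add3 (uu_sq_int μ hη) ((uu_int hη).const_mul _) (integrable_const _),
      integral_const_mul, integral_const, probReal_univ, one_smul, ← hc] at h2
    nlinarith
  have h4 := h.uu_le hη
  have h5 : (η * ∫ x, uu μ η x ∂μ) ^ 2 ≤ (2 * K) ^ 2 := by
    rw [mul_pow, mul_pow]
    have : η ^ 2 * (∫ x, uu μ η x ∂μ) ^ 2 ≤ η ^ 2 * ∫ x, uu μ η x ^ 2 ∂μ := by gcongr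
    nlinarith [sq_nonneg K]
  exact le_of_sq_le_sq' h5 (by linarith [h.K0])
where
  le_of_sq_le_sq' {a b : ℝ} (h : a ^ 2 ≤ b ^ 2) (hb : 0 ≤ b) : a ≤ b := by
    exact le_of_sq_le_sq h hb
  le_of_sq_le_sq {a b : ℝ} (h : a ^ 2 ≤ b ^ 2) (hb : 0 ≤ b) : a ≤ b := by
    have := abs_le_abs_of_sq_le_sq h
    rw [abs_of_nonneg hb] at this
    exact (le_abs_self a).trans this
  abs_le_abs_of_sq_le_sq {a b : ℝ} (h : a ^ 2 ≤ b ^ 2) : |a| ≤ |b| := sq_le_sq.1 h

theorem Fisher.le_DD (h : Fisher μ r K) {η : ℝ} (hη : 0 < η) :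
    1 ≤ (2 * η * (2 * r + η)) * DD μ η := by
  set n : ℕ := ⌊2 * r / η⌋₊ + 1 with hn
  set idx : ℝ → ℕ := fun s => ⌊(s + r) / η⌋₊ with hidx
  have hidxm : Measurable idx := by
    refine Nat.measurable_floor.comp ?_
    fun_prop
  set A : ℕ → Set ℝ := fun i => idx ⁻¹' {i} with hA
  have hAm : ∀ i, MeasurableSet (A i) := fun i => hidxm (measurableSet_singleton i)
  have hsum : ∑ i ∈ Finset.range n, μ.real (A i) = 1 := by
    rw [← measureReal_biUnion_finset]
    · have h1 : ∀ᵐ s ∂μ, s ∈ ⋃ b ∈ Finset.range n, A b := by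
        filter_upwards [h.supp] with s hs
        rw [Set.mem_iUnion₂]
        refine ⟨idx s, ?_, rfl⟩
        rw [Finset.mem_range, hn, hidx, Nat.lt_succ_iff]
        exact Nat.floor_le_floor (by gcongr; linarith [hs.2])
      have h2 := prob_compl_eq_zero_iff (μ := μ)
        (Finset.measurableSet_biUnion (Finset.range n) fun b _ => hAm b)
      have h3 : μ (⋃ b ∈ Finset.range n, A b) = 1 := h2.1 (by
        rw [ae_iff] at h1; exact h1)
      rw [Measure.real, h3]; simp
    · intro i _ j _ hij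
      exact Set.disjoint_left.2 fun x hx hx' => hij (hx.symm.trans hx')
    · exact fun b _ => hAm b
  have hlow : ∀ᵐ x ∂μ, ∑ i ∈ Finset.range n,
      Set.indicator (A i) (fun _ => μ.real (A i) * (2 * η ^ 2)⁻¹) x ≤ uu μ η x := by
    filter_upwards [h.supp] with x hx
    have hxi : idx x ∈ Finset.range n := by
      rw [Finset.mem_range, hn, hidx, Nat.lt_succ_iff]
      exact Nat.floor_le_floor (by gcongr; linarith [hx.2])
    rw [Finset.sum_eq_single_of_mem (idx x) hxi]
    · rw [Set.indicator_of_mem (show x ∈ A (idx x) from rfl)]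
      have h3 : ∫ t, Set.indicator (A (idx x)) (fun _ => (2 * η ^ 2)⁻¹) t ∂μ ≤ uu μ η x := by
        refine integral_mono_ae ((integrable_const _).indicator (hAm _)) (G_int μ hη x) ?_
        filter_upwards [h.supp] with t ht
        by_cases hti : t ∈ A (idx x)
        · rw [Set.indicator_of_mem hti]
          have h4 : ⌊(t + r) / η⌋₊ = ⌊(x + r) / η⌋₊ := hti
          have a1 := Nat.floor_le (a := (t + r) / η) (div_nonneg (by linarith [ht.1]) hη.le)
          have a2 := Nat.lt_floor_add_one ((t + r) / η)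
          have a3 := Nat.floor_le (a := (x + r) / η) (div_nonneg (by linarith [hx.1]) hη.le)
          have a4 := Nat.lt_floor_add_one ((x + r) / η)
          rw [h4] at a1 a2
          have b1 : (t + r) / η - (x + r) / η < 1 := by linarith
          have b2 : -1 < (t + r) / η - (x + r) / η := by linarith
          have b3 : (t + r) / η - (x + r) / η = (t - x) / η := by ring
          rw [b3] at b1 b2
          rw [div_lt_iff₀ hη, one_mul] at b1
          rw [lt_div_iff₀ hη] at b2
          show (2 * η ^ 2)⁻¹ ≤ G η (t - x)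
          unfold G
          refine inv_anti₀ (G_den_pos hη _) ?_
          nlinarith
        · rw [Set.indicator_of_notMem hti]
          exact (G_pos hη _).le
      rw [integral_indicator_const _ (hAm _), smul_eq_mul] at h3
      exact h3
    · intro b _ hb
      have hxb : x ∉ A b := fun hx' => hb (Eq.symm hx')
      exact Set.indicator_of_notMem hxb _
  have h5 : ∑ i ∈ Finset.range n, μ.real (A i) * (μ.real (A i) * (2 * η ^ 2)⁻¹) ≤ DD μ η := by
    rw [DD_eq hη]
    have h6 : ∫ x, ∑ i ∈ Finset.range n,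
        Set.indicator (A i) (fun _ => μ.real (A i) * (2 * η ^ 2)⁻¹) x ∂μ =
        ∑ i ∈ Finset.range n, μ.real (A i) * (μ.real (A i) * (2 * η ^ 2)⁻¹) := by
      rw [integral_finsetSum _ fun i _ => (integrable_const _).indicator (hAm i)]
      refine Finset.sum_congr rfl fun i _ => ?_
      rw [integral_indicator_const _ (hAm i), smul_eq_mul]
    rw [← h6]
    refine integral_mono_ae ?_ (uu_int hη) hlow
    exact integrable_finsetSum _ fun i _ => (integrable_const _).indicator (hAm i)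
  have h7 := sq_sum_le_card_mul_sum_sq (s := Finset.range n) (f := fun i => μ.real (A i))
  rw [hsum, one_pow, Finset.card_range] at h7
  have h8 : ∑ i ∈ Finset.range n, μ.real (A i) * (μ.real (A i) * (2 * η ^ 2)⁻¹) =
      (2 * η ^ 2)⁻¹ * ∑ i ∈ Finset.range n, μ.real (A i) ^ 2 := by
    rw [Finset.mul_sum]
    refine Finset.sum_congr rfl fun i _ => ?_
    ring
  rw [h8] at h5
  set S := ∑ i ∈ Finset.range n, μ.real (A i) ^ 2
  have h9 : S ≤ 2 * η ^ 2 * DD μ η := by
    have : S = 2 * η ^ 2 * ((2 * η ^ 2)⁻¹ * S) := by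
      field_simp
    rw [this]
    gcongr
  have h10 : (n : ℝ) * η ≤ 2 * r + η := by
    have h11 := Nat.floor_le (a := 2 * r / η) (div_nonneg (by linarith [h.r0]) hη.le)
    rw [hn]
    push_cast
    have h12 : (⌊2 * r / η⌋₊ : ℝ) * η ≤ 2 * r := by
      rwa [le_div_iff₀ hη] at h11
    nlinarith
  have hS : 0 ≤ S := Finset.sum_nonneg fun _ _ => sq_nonneg _
  have hn0 : (0 : ℝ) ≤ n := Nat.cast_nonneg n
  have hD : 0 ≤ DD μ η := by
    have : 0 ≤ 2 * η ^ 2 * DD μ η := hS.trans h9
    by_contra hneg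
    push Not at hneg
    nlinarith [mul_pos (pow_pos hη 2) (neg_pos.2 hneg)]
  calc (1 : ℝ) ≤ n * S := h7
    _ ≤ n * (2 * η ^ 2 * DD μ η) := by gcongr
    _ = 2 * η * (n * η) * DD μ η := by ring
    _ ≤ 2 * η * (2 * r + η) * DD μ η := by gcongr

end Pool.Agent.W663.FI
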