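import Mathlib

set_option autoImplicit false

open Polynomial Filter Topology

namespace Pool.Agent.W663.FI

/-- the difference quotient `(P(s) - P(t)) / (s - t)` as a polynomial expression -/
noncomputable def dd (P : ℝ[X]) (s t : ℝ) : ℝ :=
  P.sum fun n c => c * ∑ l ∈ Finset.range n, s ^ l * t ^ (n - 1 - l)

theorem dd_mul (P : ℝ[X]) (s t : ℝ) : (s - t) * dd P s t = P.eval s - P.eval t := by
  unfold dd
  rw [Polynomial.sum_def, Finset.mul_sum, Polynomial.eval_eq_sum, Polynomial.eval_eq_sum,
    Polynomial.sum_def, Polynomial.sum_def, ← Finset.sum_sub_distrib]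
  refine Finset.sum_congr rfl fun n _ => ?_
  have h := (Commute.all s t).mul_geom_sum₂ n
  rw [mul_left_comm, h]
  ring

theorem dd_diag (P : ℝ[X]) (s : ℝ) : dd P s s = P.derivative.eval s := by
  unfold dd
  rw [Polynomial.derivative_eval]
  rw [Polynomial.sum_def, Polynomial.sum_def]
  refine Finset.sum_congr rfl fun n _ => ?_
  have h : ∀ l ∈ Finset.range n, s ^ l * s ^ (n - 1 - l) = s ^ (n - 1) := by
    intro l hl
    rw [← pow_add]
    congr 1
    have := Finset.mem_range.1 hl
    omega
  rw [Finset.sum_congr rfl h, Finset.sum_const, Finset.card_range, nsmul_eq_mul]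
  ring

theorem dd_cont (P : ℝ[X]) : Continuous fun z : ℝ × ℝ => dd P z.1 z.2 := by
  unfold dd
  simp only [Polynomial.sum_def]
  fun_prop

/-- an antiderivative -/
noncomputable def anti (Q : ℝ[X]) : ℝ[X] := Q.sum fun n c => monomial (n + 1) (c / (n + 1))

theorem derivative_anti (Q : ℝ[X]) : derivative (anti Q) = Q := by
  unfold anti
  rw [Polynomial.sum_def, derivative_sum]
  conv_rhs => rw [Q.as_sum_support]
  refine Finset.sum_congr rfl fun n _ => ?_
  rw [derivative_monomial]
  simp only [Nat.add_sub_cancel]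
  congr 1
  have : ((n : ℝ) + 1) ≠ 0 := by positivity
  push_cast
  field_simp

/-- `C¹` approximation by polynomials -/
theorem c1_approx (r : ℝ) (hr : 0 ≤ r) (f : ℝ → ℝ) (F : ℝ → ℝ → ℝ)
    (hF : Continuous fun z : ℝ × ℝ => F z.1 z.2)
    (hf : ∀ s t, f s - f t = (s - t) * F s t) (ε : ℝ) (hε : 0 < ε) :
    ∃ P : ℝ[X], (∀ s ∈ Set.Icc (-r) r, ∀ t ∈ Set.Icc (-r) r, |dd P s t - F s t| ≤ ε) ∧
      ∀ s ∈ Set.Icc (-r) r, |P.eval s - f s| ≤ ε := by
  have hderiv : ∀ t, HasDerivAt f (F t t) t := by
    intro t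
    rw [hasDerivAt_iff_tendsto_slope]
    have h1 : Tendsto (fun s => F s t) (𝓝[≠] t) (𝓝 (F t t)) := by
      have h2 : Continuous fun s => F s t := hF.comp (by fun_prop : Continuous fun s : ℝ => (s, t))
      exact (h2.tendsto t).mono_left nhdsWithin_le_nhds
    refine h1.congr' ?_
    filter_upwards [self_mem_nhdsWithin] with s hs
    have hst : s - t ≠ 0 := sub_ne_zero.2 hs
    rw [slope_def_field, hf s t]
    field_simp
  set δ : ℝ := ε / (r + 1) with hδ
  have hδ0 : 0 < δ := by positivity
  have hδε : δ ≤ ε := by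
    rw [hδ]; exact div_le_self hε.le (by linarith)
  have hδr : δ * r ≤ ε := by
    rw [hδ, div_mul_eq_mul_div, div_le_iff₀ (by positivity)]
    nlinarith
  have hcd : Continuous fun s => F s s := hF.comp (by fun_prop : Continuous fun s : ℝ => (s, s))
  obtain ⟨Q, hQ⟩ := exists_polynomial_near_of_continuousOn (-r) r (fun s => F s s)
    hcd.continuousOn δ hδ0
  set P : ℝ[X] := anti Q + C (f 0 - (anti Q).eval 0) with hP
  have hPd : derivative P = Q := by rw [hP, derivative_add, derivative_anti, derivative_C, add_zero]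
  have hP0 : P.eval 0 = f 0 := by rw [hP]; simp
  have hlip : ∀ s ∈ Set.Icc (-r) r, ∀ t ∈ Set.Icc (-r) r,
      |(P.eval s - f s) - (P.eval t - f t)| ≤ δ * |s - t| := by
    intro s hs t ht
    have h1 : ∀ x ∈ Set.Icc (-r) r,
        HasDerivWithinAt (fun x => P.eval x - f x) (Q.eval x - F x x) (Set.Icc (-r) r) x := by
      intro x _
      have h2 : HasDerivAt (fun x => P.eval x) (Q.eval x) x := by
        have := P.hasDerivAt x
        rwa [hPd] at this
      exact (h2.sub (hderiv x)).hasDerivWithinAt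
    have h3 := (convex_Icc (-r) r).norm_image_sub_le_of_norm_hasDerivWithin_le
      (f := fun x => P.eval x - f x) (C := δ) h1 (fun x hx => (hQ x hx).le) ht hs
    simpa [Real.norm_eq_abs] using h3
  refine ⟨P, ?_, ?_⟩
  · intro s hs t ht
    by_cases hst : s = t
    · subst hst
      rw [dd_diag, hPd]
      exact (hQ s hs).le.trans hδε
    · have h1 := hlip s hs t ht
      have h2 : (P.eval s - f s) - (P.eval t - f t) = (s - t) * (dd P s t - F s t) := by
        rw [mul_sub, dd_mul, ← hf]; ring
      rw [h2, abs_mul, mul_comm δ] at h1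
      have h3 : 0 < |s - t| := abs_pos.2 (sub_ne_zero.2 hst)
      exact (le_of_mul_le_mul_left h1 h3).trans hδε
  · intro s hs
    have h1 := hlip s hs 0 ⟨by linarith, hr⟩
    rw [hP0, sub_self, sub_zero, sub_zero] at h1
    refine h1.trans (le_trans ?_ hδr)
    gcongr
    exact abs_le.2 hs

end Pool.Agent.W663.FI
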