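import Pool.Agent.W663.FI.Defs

set_option autoImplicit false
set_option linter.unusedSectionVars false

open Filter Topology
open scoped TensorProduct InnerProductSpace

namespace Pool.Agent.W663.FI

open Pool.Agent.Helper38.FE

section tensor

variable {E : Type} [NormedAddCommGroup E] [InnerProductSpace ℂ E]

/-- the inclusion of the algebraic tensor product -/
noncomputable def inc (E : Type) [NormedAddCommGroup E] [InnerProductSpace ℂ E] :
    (E ⊗[ℂ] E) →ₗᵢ[ℂ] HT E :=
  UniformSpace.Completion.toComplₗᵢ (𝕜 := ℂ) (E := E ⊗[ℂ] E)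

theorem inc_dense : DenseRange (inc E) :=
  UniformSpace.Completion.denseRange_coe (α := E ⊗[ℂ] E)

theorem ten_eq (a b : E) : ten a b = inc E (a ⊗ₜ[ℂ] b) := rfl

theorem inner_ten (a b a' b' : E) :
    inner ℂ (ten a b) (ten a' b') = inner ℂ a a' * inner ℂ b b' := by
  rw [ten_eq, ten_eq, LinearIsometry.inner_map_map, TensorProduct.inner_tmul]

/-- `ten` as a bounded bilinear map -/
noncomputable def tenB (E : Type) [NormedAddCommGroup E] [InnerProductSpace ℂ E] :
    E →L[ℂ] E →L[ℂ] HT E :=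
  LinearMap.mkContinuous₂ (LinearMap.mk₂ ℂ (fun a b => (ten a b : HT E))
    (fun a a' b => by
      rw [ten_eq, ten_eq, ten_eq, TensorProduct.add_tmul, map_add])
    (fun c a b => by
      rw [ten_eq, ten_eq, ← TensorProduct.smul_tmul', map_smul])
    (fun a b b' => by
      rw [ten_eq, ten_eq, ten_eq, TensorProduct.tmul_add, map_add])
    (fun c a b => by
      rw [ten_eq, ten_eq, TensorProduct.tmul_smul, map_smul])) 1
    (fun a b => by
      show ‖(ten a b : HT E)‖ ≤ 1 * ‖a‖ * ‖b‖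
      rw [ten_eq, LinearIsometry.norm_map, TensorProduct.norm_tmul, one_mul])

theorem tenB_apply (a b : E) : tenB E a b = ten a b := rfl

theorem mem_of_ten {W : Submodule ℂ (HT E)} (hcl : IsClosed (W : Set (HT E)))
    (h1 : ∀ a b : E, ten a b ∈ W) (t : HT E) : t ∈ W := by
  have h4 : ∀ t : E ⊗[ℂ] E, inc E t ∈ W := by
    intro t
    induction t using TensorProduct.induction_on with
    | zero => rw [map_zero]; exact W.zero_mem
    | tmul a b => exact h1 a b
    | add a b ha hb => rw [map_add]; exact W.add_mem ha hb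
  exact (hcl.closure_subset_iff.2 (by rintro _ ⟨t, rfl⟩; exact h4 t)) (inc_dense t)

end tensor

variable {H : Type} [NormedAddCommGroup H] [InnerProductSpace ℂ H] [CompleteSpace H] {m : ℕ}
  {M : VonNeumannAlgebra H} {Ω : H} {x : Fin m → (H →L[ℂ] H)}

instance : CompleteSpace (L2 Ω x) :=
  (Submodule.isClosed_topologicalClosure _).completeSpace_coe

theorem wd_nil : wd x [] = 1 := by simp [wd]

theorem wd_cons (j : Fin m) (w : List (Fin m)) : wd x (j :: w) = x j * wd x w := by simp [wd]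

theorem wd_append (u w : List (Fin m)) : wd x (u ++ w) = wd x u * wd x w := by simp [wd]

theorem wd_snoc (j : Fin m) (w : List (Fin m)) : wd x (w ++ [j]) = wd x w * x j := by simp [wd]

theorem wd_star (hx : ∀ i, x i ∈ M ∧ IsSelfAdjoint (x i)) (w : List (Fin m)) :
    star (wd x w) = wd x w.reverse := by
  induction w with
  | nil => simp [wd]
  | cons j w ih =>
    rw [wd_cons, star_mul, ih, (hx j).2.star_eq, List.reverse_cons, wd_snoc]

theorem wd_mem (hx : ∀ i, x i ∈ M ∧ IsSelfAdjoint (x i)) (w : List (Fin m)) : wd x w ∈ M := by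
  induction w with
  | nil => rw [wd_nil]; exact one_mem M.toStarSubalgebra
  | cons j w ih =>
    rw [wd_cons]; exact mul_mem (S := StarSubalgebra ℂ (H →L[ℂ] H)) (hx j).1 ih

theorem vec_coe (w : List (Fin m)) : ((vec Ω x w : L2 Ω x) : H) = wd x w Ω := rfl

theorem norm_star_apply (hM : TracialSpace M Ω) {a : H →L[ℂ] H} (ha : a ∈ M) :
    ‖(star a) Ω‖ = ‖a Ω‖ := by
  have h1 : ⟪(star a) Ω, (star a) Ω⟫_ℂ = ⟪a Ω, a Ω⟫_ℂ := by
    have h2 : ⟪Ω, (a * star a) Ω⟫_ℂ = ⟪(star a) Ω, (star a) Ω⟫_ℂ := by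
      rw [mul_apply_eq_comp, ContinuousLinearMap.star_eq_adjoint,
        ContinuousLinearMap.adjoint_inner_left]
    have h3 : ⟪Ω, (star a * a) Ω⟫_ℂ = ⟪a Ω, a Ω⟫_ℂ := by
      rw [mul_apply_eq_comp, ContinuousLinearMap.star_eq_adjoint,
        ContinuousLinearMap.adjoint_inner_right]
    rw [← h2, ← h3]
    exact hM.trace a ha (star a) (star_mem (s := M.toStarSubalgebra) ha)
  rw [inner_self_eq_norm_sq_to_K, inner_self_eq_norm_sq_to_K] at h1
  have h4 : ‖(star a) Ω‖ ^ 2 = ‖a Ω‖ ^ 2 := by exact_mod_cast h1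
  exact (sq_eq_sq₀ (norm_nonneg _) (norm_nonneg _)).1 h4

/-- the free vector space on the words, mapped to `L²(N)` -/
noncomputable def phi (Ω : H) (x : Fin m → (H →L[ℂ] H)) :
    (List (Fin m) →₀ ℂ) →ₗ[ℂ] L2 Ω x := Finsupp.linearCombination ℂ (vec Ω x)

theorem phi_single (w : List (Fin m)) (c : ℂ) :
    phi Ω x (Finsupp.single w c) = c • vec Ω x w := by
  simp [phi]

theorem range_phi : LinearMap.range (phi Ω x) = Submodule.span ℂ (Set.range (vec Ω x)) := by
  unfold phi
  exact Finsupp.range_linearCombination ℂ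

theorem span_dense : Dense (Submodule.span ℂ (Set.range (vec Ω x)) : Set (L2 Ω x)) := by
  intro v
  have hv : (v : H) ∈ closure ((Submodule.span ℂ (Set.range fun w : List (Fin m) => wd x w Ω) :
      Submodule ℂ H) : Set H) := v.2
  rw [closure_subtype]
  refine closure_mono ?_ hv
  intro y hy
  have h1 : Submodule.span ℂ (Set.range fun w : List (Fin m) => wd x w Ω) =
      (Submodule.span ℂ (Set.range (vec Ω x))).map (L2 Ω x).subtype := by
    rw [Submodule.map_span, ← Set.range_comp]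
    rfl
  rw [h1] at hy
  obtain ⟨z, hz, hzy⟩ := hy
  exact ⟨z, hz, hzy⟩

theorem phi_dense : DenseRange (phi Ω x) := by
  have h : Set.range (phi Ω x) = (Submodule.span ℂ (Set.range (vec Ω x)) : Set (L2 Ω x)) := by
    rw [← range_phi]; rfl
  unfold DenseRange
  rw [h]
  exact span_dense

theorem phi_coe (c : List (Fin m) →₀ ℂ) :
    ((phi Ω x c : L2 Ω x) : H) = (c.sum fun w a => a • wd x w) Ω := by
  unfold phi
  rw [Finsupp.linearCombination_apply, Finsupp.sum, Finsupp.sum]
  rw [Submodule.coe_sum, FunLike.coe_sum, Finset.sum_apply]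
  rfl

/-- left multiplication by `x_j` -/
noncomputable def Lop (Ω : H) (x : Fin m → (H →L[ℂ] H)) (j : Fin m) : L2 Ω x →L[ℂ] L2 Ω x :=
  LinearMap.extendOfNorm (Finsupp.linearCombination ℂ fun w => vec Ω x (j :: w)) (phi Ω x)

/-- right multiplication by `x_j` -/
noncomputable def Rop (Ω : H) (x : Fin m → (H →L[ℂ] H)) (j : Fin m) : L2 Ω x →L[ℂ] L2 Ω x :=
  LinearMap.extendOfNorm (Finsupp.linearCombination ℂ fun w => vec Ω x (w ++ [j])) (phi Ω x)

theorem Lop_bound (j : Fin m) (c : List (Fin m) →₀ ℂ) :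
    ‖Finsupp.linearCombination ℂ (fun w => vec Ω x (j :: w)) c‖ ≤ ‖x j‖ * ‖phi Ω x c‖ := by
  have h1 : ((Finsupp.linearCombination ℂ (fun w => vec Ω x (j :: w)) c : L2 Ω x) : H) =
      x j ((phi Ω x c : L2 Ω x) : H) := by
    unfold phi
    rw [Finsupp.linearCombination_apply, Finsupp.linearCombination_apply, Finsupp.sum, Finsupp.sum,
      Submodule.coe_sum, Submodule.coe_sum, map_sum]
    refine Finset.sum_congr rfl fun w _ => ?_
    rw [Submodule.coe_smul, Submodule.coe_smul, vec_coe, vec_coe, wd_cons, map_smul,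
      mul_apply_eq_comp]
  have h2 : ‖Finsupp.linearCombination ℂ (fun w => vec Ω x (j :: w)) c‖ =
      ‖((Finsupp.linearCombination ℂ (fun w => vec Ω x (j :: w)) c : L2 Ω x) : H)‖ := rfl
  rw [h2, h1]
  exact (x j).le_opNorm _

theorem Rop_bound (hM : TracialSpace M Ω) (hx : ∀ i, x i ∈ M ∧ IsSelfAdjoint (x i)) (j : Fin m)
    (c : List (Fin m) →₀ ℂ) :
    ‖Finsupp.linearCombination ℂ (fun w => vec Ω x (w ++ [j])) c‖ ≤ ‖x j‖ * ‖phi Ω x c‖ := by
  set y : H →L[ℂ] H := c.sum fun w a => a • wd x w with hy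
  have hyM : y ∈ M := by
    rw [hy, Finsupp.sum]
    refine sum_mem (S := M) fun w _ => ?_
    exact M.toStarSubalgebra.smul_mem (wd_mem hx w) _
  have h1 : ((Finsupp.linearCombination ℂ (fun w => vec Ω x (w ++ [j])) c : L2 Ω x) : H) =
      (y * x j) Ω := by
    rw [hy, Finsupp.linearCombination_apply, Finsupp.sum, Finsupp.sum, Submodule.coe_sum,
      Finset.sum_mul, FunLike.coe_sum, Finset.sum_apply]
    refine Finset.sum_congr rfl fun w _ => ?_
    rw [Submodule.coe_smul, vec_coe, wd_snoc, smul_mul_assoc]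
    rfl
  have h2 : ‖Finsupp.linearCombination ℂ (fun w => vec Ω x (w ++ [j])) c‖ =
      ‖((Finsupp.linearCombination ℂ (fun w => vec Ω x (w ++ [j])) c : L2 Ω x) : H)‖ := rfl
  have h3 : ‖phi Ω x c‖ = ‖y Ω‖ := by
    show ‖((phi Ω x c : L2 Ω x) : H)‖ = _
    rw [phi_coe]
  have hyx : y * x j ∈ M := mul_mem (S := StarSubalgebra ℂ (H →L[ℂ] H)) hyM (hx j).1
  rw [h2, h1, h3, ← norm_star_apply hM hyx, star_mul, (hx j).2.star_eq, mul_apply_eq_comp,
    ← norm_star_apply hM hyM]
  exact (x j).le_opNorm _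

theorem Lop_vec (j : Fin m) (w : List (Fin m)) :
    Lop Ω x j (vec Ω x w) = vec Ω x (j :: w) := by
  have h := LinearMap.extendOfNorm_eq (f := Finsupp.linearCombination ℂ
    fun w => vec Ω x (j :: w)) phi_dense ⟨‖x j‖, Lop_bound j⟩ (Finsupp.single w 1)
  rw [phi_single, one_smul, Finsupp.linearCombination_single, one_smul] at h
  exact h

theorem Rop_vec (hM : TracialSpace M Ω) (hx : ∀ i, x i ∈ M ∧ IsSelfAdjoint (x i)) (j : Fin m)
    (w : List (Fin m)) : Rop Ω x j (vec Ω x w) = vec Ω x (w ++ [j]) := by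
  have h := LinearMap.extendOfNorm_eq (f := Finsupp.linearCombination ℂ
    fun w => vec Ω x (w ++ [j])) phi_dense ⟨‖x j‖, Rop_bound hM hx j⟩ (Finsupp.single w 1)
  rw [phi_single, one_smul, Finsupp.linearCombination_single, one_smul] at h
  exact h

theorem Lop_norm (j : Fin m) : ‖Lop Ω x j‖ ≤ ‖x j‖ := by
  unfold Lop
  exact LinearMap.opNorm_extendOfNorm_le (f := Finsupp.linearCombination ℂ
    fun w => vec Ω x (j :: w)) (e := phi Ω x) phi_dense (norm_nonneg (x j)) (Lop_bound j)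

theorem Rop_norm (hM : TracialSpace M Ω) (hx : ∀ i, x i ∈ M ∧ IsSelfAdjoint (x i)) (j : Fin m) :
    ‖Rop Ω x j‖ ≤ ‖x j‖ := by
  unfold Rop
  exact LinearMap.opNorm_extendOfNorm_le (f := Finsupp.linearCombination ℂ
    fun w => vec Ω x (w ++ [j])) (e := phi Ω x) phi_dense (norm_nonneg (x j)) (Rop_bound hM hx j)

theorem Lop_coe (j : Fin m) (v : L2 Ω x) : ((Lop Ω x j v : L2 Ω x) : H) = x j (v : H) := by
  have h1 : ∀ v ∈ Set.range (phi Ω x), ((Lop Ω x j v : L2 Ω x) : H) = x j (v : H) := by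
    rintro _ ⟨c, rfl⟩
    have h := LinearMap.extendOfNorm_eq (f := Finsupp.linearCombination ℂ
      fun w => vec Ω x (j :: w)) phi_dense ⟨‖x j‖, Lop_bound j⟩ c
    unfold Lop
    rw [h]
    unfold phi
    rw [Finsupp.linearCombination_apply, Finsupp.linearCombination_apply, Finsupp.sum, Finsupp.sum,
      Submodule.coe_sum, Submodule.coe_sum, map_sum]
    refine Finset.sum_congr rfl fun w _ => ?_
    rw [Submodule.coe_smul, Submodule.coe_smul, vec_coe, vec_coe, wd_cons, map_smul,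
      mul_apply_eq_comp]
  have h2 : IsClosed {v : L2 Ω x | ((Lop Ω x j v : L2 Ω x) : H) = x j (v : H)} :=
    isClosed_eq (by fun_prop) (by fun_prop)
  exact (h2.closure_subset_iff.2 h1) (phi_dense v)

/-- two bounded operators that agree on the vectors `vec w` are equal -/
theorem ext_vec {F : Type*} [NormedAddCommGroup F] [NormedSpace ℂ F] {S T : L2 Ω x →L[ℂ] F}
    (h : ∀ w, S (vec Ω x w) = T (vec Ω x w)) : S = T := by
  ext v
  have h1 : ∀ v ∈ (Submodule.span ℂ (Set.range (vec Ω x)) : Set (L2 Ω x)), S v = T v := by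
    intro v hv
    induction hv using Submodule.span_induction with
    | mem y hy => obtain ⟨w, rfl⟩ := hy; exact h w
    | zero => simp
    | add a b _ _ ha hb => rw [map_add, map_add, ha, hb]
    | smul c a _ ha => rw [map_smul, map_smul, ha]
  have h2 : IsClosed {v : L2 Ω x | S v = T v} := isClosed_eq (by fun_prop) (by fun_prop)
  exact (h2.closure_subset_iff.2 h1) (span_dense v)

theorem ext_inner_vec {a b : L2 Ω x} (h : ∀ w, inner ℂ (vec Ω x w) a = inner ℂ (vec Ω x w) b) :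
    a = b := by
  apply ext_inner_left ℂ
  intro v
  have h1 : ∀ v ∈ (Submodule.span ℂ (Set.range (vec Ω x)) : Set (L2 Ω x)),
      inner ℂ v a = inner ℂ v b := by
    intro v hv
    induction hv using Submodule.span_induction with
    | mem y hy => obtain ⟨w, rfl⟩ := hy; exact h w
    | zero => simp
    | add c d _ _ hc hd => rw [inner_add_left, inner_add_left, hc, hd]
    | smul c d _ hd => rw [inner_smul_left, inner_smul_left, hd]
  have h2 : IsClosed {v : L2 Ω x | inner ℂ v a = inner ℂ v b} :=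
    isClosed_eq (by fun_prop) (by fun_prop)
  exact (h2.closure_subset_iff.2 h1) (span_dense v)

/-- a bounded operator with `⟨S (vec u), vec v⟩ = ⟨vec u, S (vec v)⟩` is self-adjoint -/
theorem selfAdjoint_of_vec {S : L2 Ω x →L[ℂ] L2 Ω x}
    (h : ∀ u v, inner ℂ (S (vec Ω x u)) (vec Ω x v) = inner ℂ (vec Ω x u) (S (vec Ω x v))) :
    IsSelfAdjoint S := by
  rw [ContinuousLinearMap.isSelfAdjoint_iff']
  apply ext_vec
  intro v
  apply ext_inner_vec
  intro u
  rw [ContinuousLinearMap.adjoint_inner_right, h]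

theorem Lop_sa (hx : ∀ i, x i ∈ M ∧ IsSelfAdjoint (x i)) (j : Fin m) :
    IsSelfAdjoint (Lop Ω x j) := by
  apply selfAdjoint_of_vec
  intro u v
  show inner ℂ ((Lop Ω x j (vec Ω x u) : L2 Ω x) : H) ((vec Ω x v : L2 Ω x) : H) =
    inner ℂ ((vec Ω x u : L2 Ω x) : H) ((Lop Ω x j (vec Ω x v) : L2 Ω x) : H)
  rw [Lop_coe, Lop_coe]
  have h := (ContinuousLinearMap.isSelfAdjoint_iff_isSymmetric.1 (hx j).2)
  exact h _ _

theorem inner_vec (u v : List (Fin m)) :
    inner ℂ (vec Ω x u) (vec Ω x v) = ⟪Ω, (star (wd x u) * wd x v) Ω⟫_ℂ := by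
  rw [mul_apply_eq_comp, ContinuousLinearMap.star_eq_adjoint,
    ContinuousLinearMap.adjoint_inner_right]
  rfl

theorem Rop_sa (hM : TracialSpace M Ω) (hx : ∀ i, x i ∈ M ∧ IsSelfAdjoint (x i)) (j : Fin m) :
    IsSelfAdjoint (Rop Ω x j) := by
  apply selfAdjoint_of_vec
  intro u v
  rw [Rop_vec hM hx, Rop_vec hM hx, inner_vec, inner_vec, wd_snoc, wd_snoc, star_mul,
    (hx j).2.star_eq, mul_assoc, ← mul_assoc (star (wd x u))]
  refine hM.trace _ (hx j).1 _ ?_
  exact mul_mem (S := StarSubalgebra ℂ (H →L[ℂ] H))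
    (star_mem (s := M.toStarSubalgebra) (wd_mem hx u)) (wd_mem hx v)

theorem LR_comm (hM : TracialSpace M Ω) (hx : ∀ i, x i ∈ M ∧ IsSelfAdjoint (x i)) (i j : Fin m) :
    Commute (Lop Ω x i) (Rop Ω x j) := by
  apply ext_vec
  intro w
  rw [mul_apply_eq_comp, mul_apply_eq_comp, Rop_vec hM hx, Lop_vec, Lop_vec, Rop_vec hM hx]
  rfl

end Pool.Agent.W663.FI
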